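import Pool.Agent.MP_018e62_nt.RowSum

/-!
The resonator `D` and its mean values.
-/

set_option autoImplicit false

namespace Pool.Agent.MP_018e62_nt

open Finset MeasureTheory ProbabilityTheory Filter Topology

/-- `n ^ (i t)`. -/
noncomputable def pw (n : ℕ) (t : ℝ) : ℂ := Complex.exp ((Real.log n : ℂ) * t * Complex.I)

lemma norm_pw (n : ℕ) (t : ℝ) : ‖pw n t‖ = 1 := by
  unfold pw
  have : ((Real.log n : ℂ) * t * Complex.I) = ((Real.log n * t : ℝ) : ℂ) * Complex.I := by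
    push_cast; ring
  rw [this, Complex.norm_exp_ofReal_mul_I]

lemma continuous_pw (n : ℕ) : Continuous (pw n) := by unfold pw; fun_prop

/-- Geometric sum. -/
noncomputable def geo (θ : ℕ → ℂ) (k : ℕ) (p : ℕ) (t : ℝ) : ℂ :=
  ∑ j ∈ range (k + 1), ((starRingEnd ℂ) (θ p) * pw p t) ^ j

/-- The resonator. -/
noncomputable def DD (θ : ℕ → ℂ) (k : ℕ) (Q : Finset ℕ) (t : ℝ) : ℂ := ∏ p ∈ Q, geo θ k p t

lemma continuous_DD (θ : ℕ → ℂ) (k : ℕ) (Q : Finset ℕ) : Continuous (DD θ k Q) := by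
  unfold DD geo
  have := continuous_pw
  fun_prop

/-- The index set. -/
def JJ (k : ℕ) (Q : Finset ℕ) : Finset (↥Q → ℕ) := Fintype.piFinset fun _ => range (k + 1)

/-- The coefficients. -/
noncomputable def cJ (θ : ℕ → ℂ) (Q : Finset ℕ) (J : ↥Q → ℕ) : ℂ :=
  ∏ p : ↥Q, (starRingEnd ℂ) (θ p) ^ J p

/-- The frequencies. -/
noncomputable def lJ (Q : Finset ℕ) (J : ↥Q → ℕ) : ℝ := ∑ p : ↥Q, J p * Real.log (p : ℕ)

lemma card_JJ (k : ℕ) (Q : Finset ℕ) : (JJ k Q).card = (k + 1) ^ Q.card := by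
  unfold JJ
  rw [Fintype.card_piFinset]
  simp

lemma DD_eq (θ : ℕ → ℂ) (k : ℕ) (Q : Finset ℕ) (t : ℝ) :
    DD θ k Q t = ∑ J ∈ JJ k Q, cJ θ Q J * Complex.exp (lJ Q J * t * Complex.I) := by
  unfold DD geo JJ cJ lJ
  rw [← Finset.prod_coe_sort Q, Finset.prod_univ_sum]
  apply Finset.sum_congr rfl
  intro J _
  simp_rw [mul_pow]
  rw [Finset.prod_mul_distrib]
  congr 1
  unfold pw
  simp_rw [← Complex.exp_nat_mul]
  rw [← Complex.exp_sum]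
  congr 1
  push_cast
  rw [Finset.sum_mul, Finset.sum_mul]
  apply Finset.sum_congr rfl
  intro p _
  ring

lemma norm_cJ {θ : ℕ → ℂ} {Q : Finset ℕ} (hθ : ∀ p ∈ Q, ‖θ p‖ = 1) (J : ↥Q → ℕ) :
    ‖cJ θ Q J‖ = 1 := by
  unfold cJ
  rw [norm_prod]
  apply Finset.prod_eq_one
  intro p _
  rw [norm_pow, RCLike.norm_conj, hθ p p.2, one_pow]

lemma norm_DD_le {θ : ℕ → ℂ} {Q : Finset ℕ} (hθ : ∀ p ∈ Q, ‖θ p‖ = 1) (k : ℕ) (t : ℝ) :
    ‖DD θ k Q t‖ ≤ (JJ k Q).card := by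
  rw [DD_eq]
  refine (norm_sum_le _ _).trans ?_
  have h : ∀ J ∈ JJ k Q, ‖cJ θ Q J * Complex.exp (lJ Q J * t * Complex.I)‖ = 1 := by
    intro J _
    have : ((lJ Q J : ℂ) * t * Complex.I) = ((lJ Q J * t : ℝ) : ℂ) * Complex.I := by
      push_cast; ring
    rw [norm_mul, norm_cJ hθ, this, Complex.norm_exp_ofReal_mul_I, one_mul]
  rw [Finset.sum_congr rfl h]
  simp

/-- The telescoping property of the geometric sums. -/
lemma DD_erase {θ : ℕ → ℂ} {Q : Finset ℕ} (hθ : ∀ p ∈ Q, ‖θ p‖ = 1) (k : ℕ) (t : ℝ) {p : ℕ}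
    (hp : p ∈ Q) :
    ‖DD θ k Q t‖ ^ 2 * ‖pw p t - θ p‖ ^ 2 ≤ 4 * ‖DD θ k (Q.erase p) t‖ ^ 2 := by
  have h1 : DD θ k Q t = geo θ k p t * DD θ k (Q.erase p) t := by
    unfold DD
    exact (Finset.mul_prod_erase Q (fun p => geo θ k p t) hp).symm
  set z := (starRingEnd ℂ) (θ p) * pw p t with hz
  have hz1 : ‖z‖ = 1 := by rw [hz, norm_mul, RCLike.norm_conj, hθ p hp, norm_pw, one_mul]
  have h2 : ‖pw p t - θ p‖ = ‖z - 1‖ := by
    have h3 : z - 1 = (starRingEnd ℂ) (θ p) * (pw p t - θ p) := by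
      rw [hz, mul_sub]
      congr 1
      rw [mul_comm, Complex.mul_conj, Complex.normSq_eq_norm_sq, hθ p hp]
      norm_num
    rw [h3, norm_mul, RCLike.norm_conj, hθ p hp, one_mul]
  have h4 : geo θ k p t * (z - 1) = z ^ (k + 1) - 1 := by
    unfold geo
    exact geom_sum_mul z (k + 1)
  have h5 : ‖geo θ k p t‖ * ‖z - 1‖ ≤ 2 := by
    rw [← norm_mul, h4]
    refine (norm_sub_le _ _).trans ?_
    rw [norm_pow, hz1, one_pow, norm_one]
    norm_num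
  rw [h1, h2, norm_mul]
  have h6 : 0 ≤ ‖geo θ k p t‖ * ‖z - 1‖ := by positivity
  have h7 : (‖geo θ k p t‖ * ‖z - 1‖) ^ 2 ≤ 4 := by nlinarith
  calc (‖geo θ k p t‖ * ‖DD θ k (Q.erase p) t‖) ^ 2 * ‖z - 1‖ ^ 2
      = (‖geo θ k p t‖ * ‖z - 1‖) ^ 2 * ‖DD θ k (Q.erase p) t‖ ^ 2 := by ring
    _ ≤ 4 * ‖DD θ k (Q.erase p) t‖ ^ 2 := by gcongr

/-- Unique factorization: the frequencies `lJ Q J` are the logarithms of different integers. -/
lemma lJ_eq_log {Q : Finset ℕ} (hQ : ∀ p ∈ Q, p.Prime) (J : ↥Q → ℕ) :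
    lJ Q J = Real.log ((∏ p : ↥Q, (p : ℕ) ^ J p : ℕ) : ℝ) := by
  unfold lJ
  push_cast
  rw [Real.log_prod]
  · apply Finset.sum_congr rfl
    intro p _
    rw [Real.log_pow]
  · intro p _
    have := (hQ p p.2).pos
    positivity

lemma prod_pos {Q : Finset ℕ} (hQ : ∀ p ∈ Q, p.Prime) (J : ↥Q → ℕ) :
    0 < ∏ p : ↥Q, (p : ℕ) ^ J p := by
  apply Finset.prod_pos
  intro p _
  exact pow_pos (hQ p p.2).pos _

lemma factorization_prod {Q : Finset ℕ} (hQ : ∀ p ∈ Q, p.Prime) (J : ↥Q → ℕ) (p : ↥Q) :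
    (∏ p : ↥Q, (p : ℕ) ^ J p).factorization p = J p := by
  have hne : ∀ q ∈ (Finset.univ : Finset ↥Q), (q : ℕ) ^ J q ≠ 0 :=
    fun q _ => (pow_pos (hQ q q.2).pos _).ne'
  rw [Nat.factorization_prod hne, Finsupp.finsetSum_apply]
  rw [Finset.sum_eq_single p]
  · rw [Nat.factorization_pow, Finsupp.smul_apply, (hQ p p.2).factorization_self]
    simp
  · intro q _ hq
    rw [Nat.factorization_pow, Finsupp.smul_apply, Nat.factorization_eq_zero_of_not_dvd]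
    · simp
    · intro h
      apply hq
      have := (Nat.prime_dvd_prime_iff_eq (hQ p p.2) (hQ q q.2)).mp h
      exact Subtype.ext this.symm
  · intro h
    exact absurd (Finset.mem_univ p) h

lemma prod_injective {Q : Finset ℕ} (hQ : ∀ p ∈ Q, p.Prime) {J J' : ↥Q → ℕ}
    (h : ∏ p : ↥Q, (p : ℕ) ^ J p = ∏ p : ↥Q, (p : ℕ) ^ J' p) : J = J' := by
  funext p
  rw [← factorization_prod hQ J p, h, factorization_prod hQ J' p]

lemma not_dvd_prod {Q : Finset ℕ} (hQ : ∀ p ∈ Q, p.Prime) (J : ↥Q → ℕ) {q : ℕ} (hq : q.Prime)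
    (hqQ : q ∉ Q) : ¬ q ∣ ∏ p : ↥Q, (p : ℕ) ^ J p := by
  intro h
  rw [hq.prime.dvd_finsetProd_iff] at h
  obtain ⟨p, _, hp⟩ := h
  have h1 := hq.dvd_of_dvd_pow hp
  have h2 := (Nat.prime_dvd_prime_iff_eq hq (hQ p p.2)).mp h1
  exact hqQ (h2 ▸ p.2)

lemma lJ_injective {Q : Finset ℕ} (hQ : ∀ p ∈ Q, p.Prime) {J J' : ↥Q → ℕ}
    (h : lJ Q J = lJ Q J') : J = J' := by
  rw [lJ_eq_log hQ, lJ_eq_log hQ] at h
  have h1 := Real.log_injOn_pos (Set.mem_Ioi.mpr (by exact_mod_cast prod_pos hQ J))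
    (Set.mem_Ioi.mpr (by exact_mod_cast prod_pos hQ J')) h
  exact prod_injective hQ (by exact_mod_cast h1)

lemma lJ_add_injective {Q : Finset ℕ} (hQ : ∀ p ∈ Q, p.Prime) {J J' : ↥Q → ℕ} {q q' : ℕ}
    (hq : q.Prime) (hq' : q'.Prime) (hqQ : q ∉ Q) (hqQ' : q' ∉ Q)
    (h : lJ Q J + 2 * Real.log q = lJ Q J' + 2 * Real.log q') : J = J' ∧ q = q' := by
  have hq0 : (0 : ℝ) < q := by exact_mod_cast hq.pos
  have hq0' : (0 : ℝ) < q' := by exact_mod_cast hq'.pos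
  have hJ : (0 : ℝ) < ((∏ p : ↥Q, (p : ℕ) ^ J p : ℕ) : ℝ) := by exact_mod_cast prod_pos hQ J
  have hJ' : (0 : ℝ) < ((∏ p : ↥Q, (p : ℕ) ^ J' p : ℕ) : ℝ) := by exact_mod_cast prod_pos hQ J'
  rw [lJ_eq_log hQ, lJ_eq_log hQ] at h
  have e : ∀ (a b : ℝ), 0 < a → 0 < b → Real.log a + 2 * Real.log b = Real.log (a * b ^ 2) := by
    intro a b ha hb
    rw [Real.log_mul ha.ne' (by positivity), Real.log_pow]
    norm_num
  rw [e _ _ hJ hq0, e _ _ hJ' hq0'] at h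
  have h1 := Real.log_injOn_pos (Set.mem_Ioi.mpr (by positivity)) (Set.mem_Ioi.mpr (by positivity)) h
  have h2 : (∏ p : ↥Q, (p : ℕ) ^ J p) * q ^ 2 = (∏ p : ↥Q, (p : ℕ) ^ J' p) * q' ^ 2 := by
    exact_mod_cast h1
  have hqq : q = q' := by
    by_contra hne
    have h3 : q ∣ (∏ p : ↥Q, (p : ℕ) ^ J' p) * q' ^ 2 := by
      rw [← h2]
      exact Dvd.dvd.mul_left (dvd_pow_self q two_ne_zero) _
    rcases hq.dvd_mul.mp h3 with h4 | h4
    · exact not_dvd_prod hQ J' hq hqQ h4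
    · exact hne ((Nat.prime_dvd_prime_iff_eq hq hq').mp (hq.dvd_of_dvd_pow h4))
  subst hqq
  have h5 := Nat.eq_of_mul_eq_mul_right (pow_pos hq.pos 2) h2
  exact ⟨prod_injective hQ h5, rfl⟩

/-- For fixed distinct frequencies the mean values converge. -/
theorem tendsto_mean_value {ι : Type*} [DecidableEq ι] (s : Finset ι) (c : ι → ℂ) (l : ι → ℝ)
    (hl : Set.InjOn l s) :
    Tendsto (fun T : ℝ => ∫ t, ‖∑ i ∈ s, c i * Complex.exp (l i * t * Complex.I)‖ ^ 2 ∂(gT T))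
      atTop (𝓝 (∑ i ∈ s, ‖c i‖ ^ 2)) := by
  rw [tendsto_iff_norm_sub_tendsto_zero]
  have h1 : ∀ T : ℝ, ‖(∫ t, ‖∑ i ∈ s, c i * Complex.exp (l i * t * Complex.I)‖ ^ 2 ∂(gT T)) -
      ∑ i ∈ s, ‖c i‖ ^ 2‖ ≤ ∑ i ∈ s, ‖c i‖ ^ 2 * ∑ j ∈ s.erase i, gk T (l i - l j) :=
    fun T => mean_value T s c l
  refine squeeze_zero (fun T => norm_nonneg _) h1 ?_
  have h2 : Tendsto (fun T : ℝ => ∑ i ∈ s, ‖c i‖ ^ 2 * ∑ j ∈ s.erase i, gk T (l i - l j)) atTop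
      (𝓝 (∑ i ∈ s, ‖c i‖ ^ 2 * ∑ j ∈ s.erase i, (0 : ℝ))) := by
    apply tendsto_finsetSum
    intro i hi
    apply Tendsto.const_mul
    apply tendsto_finsetSum
    intro j hj
    have hne : l i - l j ≠ 0 := by
      intro h
      have := hl hi (Finset.mem_of_mem_erase hj) (sub_eq_zero.mp h)
      exact (Finset.ne_of_mem_erase hj) this.symm
    unfold gk
    apply Real.tendsto_exp_atBot.comp
    apply tendsto_neg_atTop_atBot.comp
    have h3 : (fun T : ℝ => T ^ 2 * (l i - l j) ^ 2 / 2) = fun T : ℝ => T ^ 2 * ((l i - l j) ^ 2 / 2) := by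
      funext T
      ring
    rw [h3]
    apply Tendsto.atTop_mul_const (by positivity)
    exact tendsto_pow_atTop two_ne_zero
  simpa using h2

end Pool.Agent.MP_018e62_nt
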