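import Pool.Agent.MP_018e62_nt.Average

/-!
Mean values of the resonator times a sum over a window of primes.
-/

set_option autoImplicit false

namespace Pool.Agent.MP_018e62_nt

open Finset MeasureTheory ProbabilityTheory Filter Topology

/-- `∑_{p ∈ W} a p * p ^ (2 i t)`. -/
noncomputable def SW (a : ℕ → ℝ) (W : Finset ℕ) (t : ℝ) : ℂ :=
  ∑ p ∈ W, (a p : ℂ) * Complex.exp (((2 * Real.log p : ℝ) : ℂ) * t * Complex.I)

lemma continuous_SW (a : ℕ → ℝ) (W : Finset ℕ) : Continuous (SW a W) := by unfold SW; fun_prop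

lemma DD_mul_SW (θ : ℕ → ℂ) (k : ℕ) (Q : Finset ℕ) (a : ℕ → ℝ) (W : Finset ℕ) (t : ℝ) :
    DD θ k Q t * SW a W t = ∑ x ∈ JJ k Q ×ˢ W, (cJ θ Q x.1 * (a x.2 : ℂ)) *
      Complex.exp (((lJ Q x.1 + 2 * Real.log x.2 : ℝ) : ℂ) * t * Complex.I) := by
  rw [DD_eq]
  unfold SW
  rw [Finset.sum_mul_sum, Finset.sum_product]
  apply Finset.sum_congr rfl
  intro J _
  apply Finset.sum_congr rfl
  intro p _
  have : Complex.exp (((lJ Q J + 2 * Real.log p : ℝ) : ℂ) * t * Complex.I) =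
      Complex.exp ((lJ Q J : ℂ) * t * Complex.I) *
        Complex.exp (((2 * Real.log p : ℝ) : ℂ) * t * Complex.I) := by
    rw [← Complex.exp_add]
    congr 1
    push_cast
    ring
  rw [this]
  ring

lemma sum_norm_sq {θ : ℕ → ℂ} {Q : Finset ℕ} (hθ : ∀ p ∈ Q, ‖θ p‖ = 1) (k : ℕ)
    (W : Finset ℕ) (g : ℕ → ℝ) (a : ℕ → ℝ) :
    ∑ x ∈ JJ k Q ×ˢ W, ‖cJ θ Q x.1 * (a x.2 : ℂ)‖ ^ 2 * g x.2 =
      (JJ k Q).card * ∑ p ∈ W, a p ^ 2 * g p := by
  rw [Finset.sum_product]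
  have : ∀ J ∈ JJ k Q, ∑ p ∈ W, ‖cJ θ Q J * (a p : ℂ)‖ ^ 2 * g p = ∑ p ∈ W, a p ^ 2 * g p := by
    intro J _
    apply Finset.sum_congr rfl
    intro p _
    rw [norm_mul, norm_cJ hθ, one_mul, Complex.norm_real, Real.norm_eq_abs, sq_abs]
  rw [Finset.sum_congr rfl this]
  simp

lemma tendsto_window {θ : ℕ → ℂ} {Q : Finset ℕ} (hθ : ∀ p ∈ Q, ‖θ p‖ = 1)
    (hQ : ∀ p ∈ Q, p.Prime) (k : ℕ) (W : Finset ℕ) (hW : ∀ p ∈ W, p.Prime ∧ p ∉ Q) (a : ℕ → ℝ) :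
    Tendsto (fun T : ℝ => ∫ t, ‖DD θ k Q t * SW a W t‖ ^ 2 ∂(gT T)) atTop
      (𝓝 ((JJ k Q).card * ∑ p ∈ W, a p ^ 2)) := by
  classical
  have h := tendsto_mean_value (JJ k Q ×ˢ W) (fun x => cJ θ Q x.1 * (a x.2 : ℂ))
    (fun x => lJ Q x.1 + 2 * Real.log x.2) (by
      rintro ⟨J, p⟩ hx ⟨J', p'⟩ hx' heq
      simp only [Finset.coe_product, Set.mem_prod, Finset.mem_coe] at hx hx'
      obtain ⟨h1, h2⟩ := lJ_add_injective hQ (hW p hx.2).1 (hW p' hx'.2).1 (hW p hx.2).2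
        (hW p' hx'.2).2 heq
      exact Prod.ext h1 h2)
  have e : ∑ x ∈ JJ k Q ×ˢ W, ‖cJ θ Q x.1 * (a x.2 : ℂ)‖ ^ 2 =
      (JJ k Q).card * ∑ p ∈ W, a p ^ 2 := by
    have := sum_norm_sq hθ k W (fun _ => 1) a
    simpa using this
  rw [e] at h
  refine h.congr (fun T => ?_)
  congr 1
  funext t
  rw [DD_mul_SW]

lemma tendsto_DD {θ : ℕ → ℂ} {Q : Finset ℕ} (hθ : ∀ p ∈ Q, ‖θ p‖ = 1)
    (hQ : ∀ p ∈ Q, p.Prime) (k : ℕ) :
    Tendsto (fun T : ℝ => ∫ t, ‖DD θ k Q t‖ ^ 2 ∂(gT T)) atTop (𝓝 ((JJ k Q).card)) := by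
  classical
  have h := tendsto_mean_value (JJ k Q) (fun J => cJ θ Q J) (fun J => lJ Q J) (by
    intro J _ J' _ heq
    exact lJ_injective hQ heq)
  have e : ∑ J ∈ JJ k Q, ‖cJ θ Q J‖ ^ 2 = (JJ k Q).card := by
    have : ∀ J ∈ JJ k Q, ‖cJ θ Q J‖ ^ 2 = 1 := by
      intro J _
      rw [norm_cJ hθ, one_pow]
    rw [Finset.sum_congr rfl this]
    simp
  rw [e] at h
  refine h.congr (fun T => ?_)
  congr 1
  funext t
  rw [DD_eq]

/-- Upper bound for the frequencies. -/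
noncomputable def Lam (k : ℕ) (Q : Finset ℕ) : ℝ := ∑ p ∈ Q, k * Real.log p

lemma lJ_nonneg (Q : Finset ℕ) (J : ↥Q → ℕ) : 0 ≤ lJ Q J := by
  unfold lJ
  exact Finset.sum_nonneg fun p _ => mul_nonneg (Nat.cast_nonneg _) (Real.log_natCast_nonneg _)

lemma lJ_le {k : ℕ} {Q : Finset ℕ} {J : ↥Q → ℕ} (hJ : J ∈ JJ k Q) : lJ Q J ≤ Lam k Q := by
  unfold lJ Lam
  rw [← Finset.sum_coe_sort Q]
  apply Finset.sum_le_sum
  intro p _
  apply mul_le_mul_of_nonneg_right _ (Real.log_natCast_nonneg _)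
  unfold JJ at hJ
  rw [Fintype.mem_piFinset] at hJ
  have := hJ p
  rw [Finset.mem_range] at this
  exact_mod_cast (by omega : J p ≤ k)

/-- Uniform upper bound for the mean value over a window. -/
lemma window_bound {θ : ℕ → ℂ} {Q : Finset ℕ} (hθ : ∀ p ∈ Q, ‖θ p‖ = 1) (k : ℕ) {T : ℝ}
    (hT : 2 ≤ T) (W : Finset ℕ) (hW : ∀ p ∈ W, 1 ≤ p) (a : ℕ → ℝ) :
    ∫ t, ‖DD θ k Q t * SW a W t‖ ^ 2 ∂(gT T) ≤
      (JJ k Q).card * ∑ p ∈ W, a p ^ 2 *
        (1 + (JJ k Q).card * (4 + 4 * (Real.exp (Lam k Q) * p / (T - 1)))) := by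
  classical
  have h := mean_value T (JJ k Q ×ˢ W) (fun x => cJ θ Q x.1 * (a x.2 : ℂ))
    (fun x => lJ Q x.1 + 2 * Real.log x.2)
  have h2 := (abs_le.mp h).2
  have e0 : ∫ t, ‖DD θ k Q t * SW a W t‖ ^ 2 ∂(gT T) =
      ∫ t, ‖∑ x ∈ JJ k Q ×ˢ W, (cJ θ Q x.1 * (a x.2 : ℂ)) *
        Complex.exp (((lJ Q x.1 + 2 * Real.log x.2 : ℝ) : ℂ) * t * Complex.I)‖ ^ 2 ∂(gT T) := by
    congr 1
    funext t
    rw [DD_mul_SW]
  rw [e0]
  have hrow : ∀ x ∈ JJ k Q ×ˢ W, ∑ y ∈ (JJ k Q ×ˢ W).erase x,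
      gk T (lJ Q x.1 + 2 * Real.log x.2 - (lJ Q y.1 + 2 * Real.log y.2)) ≤
      (JJ k Q).card * (4 + 4 * (Real.exp (Lam k Q) * x.2 / (T - 1))) := by
    rintro ⟨J, p⟩ hx
    rw [Finset.mem_product] at hx
    have hp0 : (0 : ℝ) < p := by exact_mod_cast hW p hx.2
    calc ∑ y ∈ (JJ k Q ×ˢ W).erase (J, p),
          gk T (lJ Q J + 2 * Real.log p - (lJ Q y.1 + 2 * Real.log y.2))
        ≤ ∑ y ∈ JJ k Q ×ˢ W, gk T (lJ Q J + 2 * Real.log p - (lJ Q y.1 + 2 * Real.log y.2)) :=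
          Finset.sum_le_sum_of_subset_of_nonneg (Finset.erase_subset _ _)
            (fun _ _ _ => gk_nonneg _ _)
      _ = ∑ J' ∈ JJ k Q, ∑ q ∈ W,
            gk T ((lJ Q J + 2 * Real.log p - lJ Q J') - 2 * Real.log q) := by
          rw [Finset.sum_product]
          apply Finset.sum_congr rfl
          intro J' _
          apply Finset.sum_congr rfl
          intro q _
          congr 1
          ring
      _ ≤ ∑ J' ∈ JJ k Q, (4 + 4 * (Real.exp (Lam k Q) * p / (T - 1))) := by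
          apply Finset.sum_le_sum
          intro J' _
          refine (sum_gk_le hT _ W hW).trans ?_
          have h3 : Real.exp ((lJ Q J + 2 * Real.log p - lJ Q J') / 2) ≤
              Real.exp (Lam k Q) * p := by
            have h4 : (lJ Q J + 2 * Real.log p - lJ Q J') / 2 ≤ Lam k Q + Real.log p := by
              have h5 := lJ_le hx.1
              have h6 := lJ_nonneg Q J
              have h7 := lJ_nonneg Q J'
              linarith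
            calc Real.exp ((lJ Q J + 2 * Real.log p - lJ Q J') / 2)
                ≤ Real.exp (Lam k Q + Real.log p) := Real.exp_le_exp.mpr h4
              _ = Real.exp (Lam k Q) * p := by rw [Real.exp_add, Real.exp_log hp0]
          have h5 : 0 < T - 1 := by linarith
          gcongr
      _ = (JJ k Q).card * (4 + 4 * (Real.exp (Lam k Q) * p / (T - 1))) := by
          rw [Finset.sum_const, nsmul_eq_mul]
  have e1 : ∑ x ∈ JJ k Q ×ˢ W, ‖cJ θ Q x.1 * (a x.2 : ℂ)‖ ^ 2 =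
      (JJ k Q).card * ∑ p ∈ W, a p ^ 2 := by
    have := sum_norm_sq hθ k W (fun _ => 1) a
    simpa using this
  have e2 : ∑ x ∈ JJ k Q ×ˢ W, ‖cJ θ Q x.1 * (a x.2 : ℂ)‖ ^ 2 *
      ∑ y ∈ (JJ k Q ×ˢ W).erase x,
        gk T (lJ Q x.1 + 2 * Real.log x.2 - (lJ Q y.1 + 2 * Real.log y.2)) ≤
      (JJ k Q).card * ∑ p ∈ W, a p ^ 2 *
        ((JJ k Q).card * (4 + 4 * (Real.exp (Lam k Q) * p / (T - 1)))) := by
    rw [← sum_norm_sq hθ k W (fun p => (JJ k Q).card * (4 + 4 * (Real.exp (Lam k Q) * p / (T - 1))))]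
    apply Finset.sum_le_sum
    intro x hx
    exact mul_le_mul_of_nonneg_left (hrow x hx) (by positivity)
  rw [e1] at h2
  have e3 : (JJ k Q).card * ∑ p ∈ W, a p ^ 2 *
        (1 + (JJ k Q).card * (4 + 4 * (Real.exp (Lam k Q) * p / (T - 1)))) =
      (JJ k Q).card * ∑ p ∈ W, a p ^ 2 + (JJ k Q).card * ∑ p ∈ W, a p ^ 2 *
        ((JJ k Q).card * (4 + 4 * (Real.exp (Lam k Q) * p / (T - 1)))) := by
    rw [← mul_add, ← Finset.sum_add_distrib]
    congr 1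
    apply Finset.sum_congr rfl
    intro p _
    ring
  rw [e3]
  linarith

/-- The Gaussian measure lives near its mean. -/
lemma gT_compl (T : ℝ) (hT : 0 < T) :
    (gT T).real {t | T ^ 2 / 2 ≤ |t - T ^ 2|} ≤ 4 / T ^ 2 := by
  have h1 : (((T ^ 2).toNNReal : NNReal) : ℝ) = T ^ 2 := Real.coe_toNNReal _ (sq_nonneg T)
  have hmem : MemLp (fun x : ℝ => x) 2 (gT T) := by
    unfold gT
    exact memLp_id_gaussianReal 2
  have h := meas_ge_le_variance_div_sq hmem (c := T ^ 2 / 2) (by positivity)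
  have hmean : ∫ x, x ∂(gT T) = T ^ 2 := by
    unfold gT
    exact integral_id_gaussianReal
  have hvar : variance (fun x : ℝ => x) (gT T) = T ^ 2 := by
    unfold gT
    rw [variance_fun_id_gaussianReal, h1]
  rw [hmean, hvar] at h
  rw [Measure.real]
  have h2 : T ^ 2 / (T ^ 2 / 2) ^ 2 = 4 / T ^ 2 := by
    field_simp
    ring
  rw [h2] at h
  exact ENNReal.toReal_le_of_le_ofReal (by positivity) h

end Pool.Agent.MP_018e62_nt
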