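import Pool.Agent.MP_018e62_nt.Two

/-!
Counting the connected components.
-/

set_option autoImplicit false

namespace Pool.Agent.MP_018e62_nt

open Finset Filter Topology

/-- Counting components from a finite closed partition into preconnected sets. -/
theorem card_components {X : Type*} [TopologicalSpace X] {m : ℕ} (F : Fin m → Set X)
    (hclosed : ∀ i, IsClosed (F i)) (hpre : ∀ i, IsPreconnected (F i))
    (hne : ∀ i, (F i).Nonempty) (hdis : ∀ i j, i ≠ j → Disjoint (F i) (F j))
    (hcov : ∀ x, ∃ i, x ∈ F i) : Nat.card (ConnectedComponents X) = m := by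
  have hopen : ∀ i, IsOpen (F i) := by
    intro i
    have e : F i = (⋃ j ∈ {j : Fin m | j ≠ i}, F j)ᶜ := by
      ext x
      simp only [Set.mem_compl_iff, Set.mem_iUnion, Set.mem_ofPred_eq, exists_prop, not_exists,
        not_and]
      constructor
      · intro hx j hj hxj
        exact Set.disjoint_left.mp (hdis j i hj) hxj hx
      · intro h
        obtain ⟨j, hj⟩ := hcov x
        by_cases hji : j = i
        · rwa [← hji]
        · exact absurd hj (h j hji)
    rw [e]
    exact ((Set.toFinite _).isClosed_biUnion fun j _ => hclosed j).isOpen_compl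
  have hcomp : ∀ i, ∀ x ∈ F i, connectedComponent x = F i := by
    intro i x hx
    apply Set.Subset.antisymm
    · exact IsClopen.connectedComponent_subset ⟨hclosed i, hopen i⟩ hx
    · exact (hpre i).subset_connectedComponent hx
  choose pt hpt using hne
  let f : Fin m → ConnectedComponents X := fun i => (pt i : ConnectedComponents X)
  have hf : Function.Bijective f := by
    constructor
    · intro i j hij
      have h1 : connectedComponent (pt i) = connectedComponent (pt j) :=
        ConnectedComponents.coe_eq_coe.mp hij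
      rw [hcomp i _ (hpt i), hcomp j _ (hpt j)] at h1
      by_contra hne
      have h2 := hdis i j hne
      rw [h1] at h2
      exact Set.disjoint_left.mp h2 (hpt j) (hpt j)
    · intro q
      obtain ⟨x, rfl⟩ := ConnectedComponents.surjective_coe q
      obtain ⟨i, hi⟩ := hcov x
      refine ⟨i, ?_⟩
      apply ConnectedComponents.coe_eq_coe.mpr
      rw [hcomp i _ (hpt i), hcomp i _ hi]
  rw [← Nat.card_congr (Equiv.ofBijective f hf), Nat.card_fin]

/-- The same for a subset of the complex plane. -/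
theorem card_components_subset {m : ℕ} (K : Set ℂ) (F : Fin m → Set ℂ)
    (hclosed : ∀ i, IsClosed (F i)) (hpre : ∀ i, IsPreconnected (F i))
    (hne : ∀ i, (F i).Nonempty) (hdis : ∀ i j, i ≠ j → Disjoint (F i) (F j))
    (hcov : K = ⋃ i, F i) : Nat.card (ConnectedComponents ↥K) = m := by
  have hsub : ∀ i, F i ⊆ K := fun i => by
    rw [hcov]
    exact Set.subset_iUnion F i
  have himg : ∀ i, (Subtype.val : K → ℂ) '' (Subtype.val ⁻¹' (F i)) = F i := by
    intro i
    rw [Subtype.image_preimage_coe]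
    exact Set.inter_eq_self_of_subset_right (hsub i)
  apply card_components (fun i => (Subtype.val : K → ℂ) ⁻¹' (F i))
  · intro i
    exact (hclosed i).preimage continuous_subtype_val
  · intro i
    rw [← Topology.IsInducing.subtypeVal.isPreconnected_image, himg i]
    exact hpre i
  · intro i
    obtain ⟨x, hx⟩ := hne i
    exact ⟨⟨x, hsub i hx⟩, hx⟩
  · intro i j hij
    exact (hdis i j hij).preimage _
  · rintro ⟨x, hx⟩
    rw [hcov, Set.mem_iUnion] at hx
    exact hx

section

variable {τ r t : ℝ} {N Y Y' : ℕ} {ε : ℝ}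

/-- The pieces of the closure in logarithmic coordinates. -/
noncomputable def piece (r t : ℝ) (a : ℕ) : Set ℂ := (fun y => ell r t 2 a + y) '' LL (ell r t) 3

lemma Setup.piece_compact (h : Setup τ r t N Y Y' ε) (a : ℕ) : IsCompact (piece r t a) :=
  (isCompact_LL (summable_b h.good.hr) (fun k a => norm_ell_le t h.good.hr.le k a) 3).image
    (by fun_prop)

lemma Setup.piece_preconnected (h : Setup τ r t N Y Y' ε) (a : ℕ) :
    IsPreconnected (piece r t a) :=
  h.preconnected.image _ (by fun_prop)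

lemma zero_mem_LL (r t : ℝ) (K : ℕ) : (0 : ℂ) ∈ LL (ell r t) K :=
  subset_closure (zero_mem_SS K)

lemma piece_nonempty (r t : ℝ) (a : ℕ) : (piece r t a).Nonempty :=
  ⟨_, 0, zero_mem_LL r t 3, rfl⟩

/-- The accumulated piece. -/
noncomputable def bigPiece (r t : ℝ) (m : ℕ) : Set ℂ :=
  closure (⋃ a ∈ {a : ℕ | Odd a ∨ 2 * m - 2 ≤ a}, piece r t a)

lemma piece_subset (r t : ℝ) (a : ℕ) : piece r t a ⊆ LL (ell r t) 2 := by
  rintro _ ⟨y, hy, rfl⟩
  exact add_mem_LL (ell_zero r t) a hy

lemma Setup.bigPiece_subset (h : Setup τ r t N Y Y' ε) (m : ℕ) :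
    bigPiece r t m ⊆ LL (ell r t) 2 := by
  apply closure_minimal _ isClosed_closure
  intro x hx
  rw [Set.mem_iUnion₂] at hx
  obtain ⟨a, _, hxa⟩ := hx
  exact piece_subset r t a hxa

lemma Setup.compact_LL (h : Setup τ r t N Y Y' ε) (K : ℕ) : IsCompact (LL (ell r t) K) :=
  isCompact_LL (summable_b h.good.hr) (fun k a => norm_ell_le t h.good.hr.le k a) K

lemma Setup.bigPiece_compact (h : Setup τ r t N Y Y' ε) (m : ℕ) : IsCompact (bigPiece r t m) :=
  (h.compact_LL 2).of_isClosed_subset isClosed_closure (h.bigPiece_subset m)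

lemma Setup.bigPiece_preconnected (h : Setup τ r t N Y Y' ε) {m : ℕ} (hm : 1 ≤ m)
    (hτ : τ = (1 / 2) ^ (2 * m - 1)) : IsPreconnected (bigPiece r t m) := by
  apply IsPreconnected.closure
  have hx : ell r t 2 1 + 0 ∈ piece r t 1 := ⟨0, zero_mem_LL r t 3, rfl⟩
  apply isPreconnected_of_forall (ell r t 2 1 + 0)
  intro y hy
  rw [Set.mem_iUnion₂] at hy
  obtain ⟨a, ha, hya⟩ := hy
  refine ⟨piece r t 1 ∪ piece r t a, ?_, Or.inl hx, Or.inr hya, ?_⟩
  · intro z hz
    rw [Set.mem_iUnion₂]
    rcases hz with hz | hz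
    · exact ⟨1, Or.inl (by decide), hz⟩
    · exact ⟨a, ha, hz⟩
  · apply IsPreconnected.union' _ (h.piece_preconnected 1) (h.piece_preconnected a)
    obtain ⟨p, hp, q, hq, e⟩ := h.two_close hm hτ ha
    refine ⟨ell r t 2 1 + p, ⟨p, hp, rfl⟩, ⟨q, hq, ?_⟩⟩
    have e2 : ell r t 2 a + q = ell r t 2 1 + p := by
      have : ell r t 2 a = ell r t 2 1 + (p - q) := by rw [← e]; ring
      rw [this]
      ring
    exact e2

lemma Setup.im_LL_two (h : Setup τ r t N Y Y' ε) {x : ℂ} (hx : x ∈ LL (ell r t) 2) :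
    |x.im| ≤ 3 := by
  have hSS : SS (ell r t) 2 ⊆ {x : ℂ | |x.im| ≤ 3} := by
    intro x hx
    rw [SS_succ_iff (ell_zero r t)] at hx
    obtain ⟨a, y, hy, rfl⟩ := hx
    have h1 := h.im_LL (x := y) (subset_closure hy)
    have h2 := (Complex.abs_im_le_norm _).trans (norm_ell_le' t h.good.hr.le
      (show 1 ≤ 2 by norm_num) a)
    have h3 := h.hτ1
    have h4 := h.hτ0
    show |(ell r t 2 a + y).im| ≤ 3
    rw [Complex.add_im]
    rw [abs_le] at h2 ⊢
    norm_num at h1 h2 ⊢
    constructor <;> linarith [h1.1, h1.2, h2.1, h2.2]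
  have hclosed : IsClosed {x : ℂ | |x.im| ≤ 3} :=
    isClosed_le (continuous_abs.comp Complex.continuous_im) continuous_const
  exact closure_minimal hSS hclosed hx

lemma Setup.exp_inj (h : Setup τ r t N Y Y' ε) : Set.InjOn Complex.exp (LL (ell r t) 2) := by
  intro x hx y hy hxy
  have h1 := abs_le.mp (h.im_LL_two hx)
  have h2 := abs_le.mp (h.im_LL_two hy)
  have hpi := Real.pi_gt_three
  exact Complex.exp_inj_of_neg_pi_lt_of_le_pi (by linarith [h1.1]) (by linarith [h1.2])
    (by linarith [h2.1]) (by linarith [h2.2]) hxy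

/-- Separation of the isolated pieces from every other piece. -/
lemma Setup.sep (h : Setup τ r t N Y Y' ε) {m : ℕ}
    (hτ : τ = (1 / 2) ^ (2 * m - 1))
    (hx : 0.98 * (1 / 2 : ℝ) ^ (2 * m) ≤ ((2 : ℝ) ^ (-r)) ^ (2 * m)) {i a : ℕ} (hi : i + 1 < m)
    (ha : a ≠ 2 * i) {z w : ℂ} (hz : z ∈ piece r t (2 * i)) (hw : w ∈ piece r t a) :
    0.2 * τ ≤ |z.im - w.im| := by
  obtain ⟨x, hx', rfl⟩ := hz
  obtain ⟨y, hy, rfl⟩ := hw
  have h1 := h.two_far hτ hx hi ha
  have h2 := h.im_LL hx'
  have h3 := h.im_LL hy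
  have hτ0 := h.hτ0
  simp only [Complex.add_im]
  have e : (ell r t 2 (2 * i)).im - (ell r t 2 a).im =
      ((ell r t 2 (2 * i)).im + x.im - ((ell r t 2 a).im + y.im)) - (x.im - y.im) := by ring
  rw [e] at h1
  have h4 := abs_sub ((ell r t 2 (2 * i)).im + x.im - ((ell r t 2 a).im + y.im)) (x.im - y.im)
  have h5 : |x.im - y.im| ≤ 1.84 * τ := by
    rw [abs_le]
    norm_num at h2 h3 ⊢
    constructor <;> linarith [h2.1, h2.2, h3.1, h3.2]
  norm_num at h1 h5 ⊢
  linarith

/-- The pieces of the closure. -/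
noncomputable def pieces (r t : ℝ) (m : ℕ) (i : Fin m) : Set ℂ :=
  if (i : ℕ) + 1 < m then piece r t (2 * i) else bigPiece r t m

lemma Setup.pieces_compact (h : Setup τ r t N Y Y' ε) {m : ℕ} (i : Fin m) :
    IsCompact (pieces r t m i) := by
  unfold pieces
  split_ifs
  · exact h.piece_compact _
  · exact h.bigPiece_compact m

lemma Setup.pieces_subset (h : Setup τ r t N Y Y' ε) {m : ℕ} (i : Fin m) :
    pieces r t m i ⊆ LL (ell r t) 2 := by
  unfold pieces
  split_ifs
  · exact piece_subset r t _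
  · exact h.bigPiece_subset m

lemma Setup.pieces_preconnected (h : Setup τ r t N Y Y' ε) {m : ℕ} (hm : 1 ≤ m)
    (hτ : τ = (1 / 2) ^ (2 * m - 1)) (i : Fin m) : IsPreconnected (pieces r t m i) := by
  unfold pieces
  split_ifs
  · exact h.piece_preconnected _
  · exact h.bigPiece_preconnected hm hτ

lemma pieces_nonempty (r t : ℝ) {m : ℕ} (i : Fin m) : (pieces r t m i).Nonempty := by
  unfold pieces
  split_ifs
  · exact piece_nonempty r t _
  · obtain ⟨x, hx⟩ := piece_nonempty r t 1
    refine ⟨x, subset_closure ?_⟩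
    rw [Set.mem_iUnion₂]
    exact ⟨1, Or.inl (by decide), hx⟩

lemma Setup.disjoint_big (h : Setup τ r t N Y Y' ε) {m : ℕ}
    (hτ : τ = (1 / 2) ^ (2 * m - 1))
    (hx : 0.98 * (1 / 2 : ℝ) ^ (2 * m) ≤ ((2 : ℝ) ^ (-r)) ^ (2 * m)) {i : ℕ} (hi : i + 1 < m) :
    Disjoint (piece r t (2 * i)) (bigPiece r t m) := by
  rw [Set.disjoint_left]
  intro z hz hzb
  have hτ0 := h.hτ0
  have h1 : bigPiece r t m ⊆ {w : ℂ | 0.2 * τ ≤ |z.im - w.im|} := by
    apply closure_minimal
    · intro w hw
      rw [Set.mem_iUnion₂] at hw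
      obtain ⟨a, ha, hwa⟩ := hw
      refine h.sep hτ hx hi ?_ hz hwa
      rintro rfl
      rcases ha with ha | ha
      · obtain ⟨k, hk⟩ := ha
        omega
      · omega
    · exact isClosed_le continuous_const
        (continuous_abs.comp (continuous_const.sub Complex.continuous_im))
  have h2 := h1 hzb
  simp only [Set.mem_ofPred_eq, sub_self, abs_zero] at h2
  norm_num at h2
  linarith

lemma Setup.pieces_disjoint (h : Setup τ r t N Y Y' ε) {m : ℕ}
    (hτ : τ = (1 / 2) ^ (2 * m - 1))
    (hx : 0.98 * (1 / 2 : ℝ) ^ (2 * m) ≤ ((2 : ℝ) ^ (-r)) ^ (2 * m)) (i j : Fin m)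
    (hij : i ≠ j) : Disjoint (pieces r t m i) (pieces r t m j) := by
  have hτ0 := h.hτ0
  have hij' : (i : ℕ) ≠ j := fun h => hij (Fin.ext h)
  unfold pieces
  split_ifs with h1 h2 h2
  · rw [Set.disjoint_left]
    intro z hz hz'
    have h3 := h.sep hτ hx h1 (a := 2 * (j : ℕ)) (by omega) hz hz'
    rw [sub_self, abs_zero] at h3
    norm_num at h3
    linarith
  · exact h.disjoint_big hτ hx h1
  · exact (h.disjoint_big hτ hx h2).symm
  · exfalso
    have := i.2
    have := j.2
    omega

lemma Setup.union_pieces (h : Setup τ r t N Y Y' ε) {m : ℕ} (hm : 1 ≤ m) :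
    LL (ell r t) 2 = ⋃ i : Fin m, pieces r t m i := by
  apply Set.Subset.antisymm
  · apply closure_minimal
    · intro x hx
      rw [SS_succ_iff (ell_zero r t)] at hx
      obtain ⟨a, y, hy, rfl⟩ := hx
      have hmem : ell r t 2 a + y ∈ piece r t a := ⟨y, subset_closure hy, rfl⟩
      rw [Set.mem_iUnion]
      by_cases ha : Odd a ∨ 2 * m - 2 ≤ a
      · refine ⟨⟨m - 1, by omega⟩, ?_⟩
        unfold pieces
        rw [if_neg (by simp; omega)]
        apply subset_closure
        rw [Set.mem_iUnion₂]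
        exact ⟨a, ha, hmem⟩
      · obtain ⟨h1, h2⟩ := not_or.mp ha
        rw [Nat.not_odd_iff_even] at h1
        obtain ⟨j, hj⟩ := h1
        refine ⟨⟨j, by omega⟩, ?_⟩
        unfold pieces
        rw [if_pos (by simp; omega)]
        have e : 2 * ((⟨j, by omega⟩ : Fin m) : ℕ) = a := by
          simp
          omega
        rw [e]
        exact hmem
    · exact isClosed_iUnion_of_finite fun i => (h.pieces_compact i).isClosed
  · apply Set.iUnion_subset
    intro i
    exact h.pieces_subset i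

/-- The number of connected components. -/
theorem Setup.count (h : Setup τ r t N Y Y' ε) {m : ℕ} (hm : 1 ≤ m)
    (hτ : τ = (1 / 2) ^ (2 * m - 1))
    (hx : 0.98 * (1 / 2 : ℝ) ^ (2 * m) ≤ ((2 : ℝ) ^ (-r)) ^ (2 * m)) :
    Nat.card (ConnectedComponents ↥(closure (Complex.exp '' SS (ell r t) 2))) = m := by
  have e : closure (Complex.exp '' SS (ell r t) 2) = Complex.exp '' LL (ell r t) 2 :=
    (image_closure_of_isCompact (h.compact_LL 2) Complex.continuous_exp.continuousOn).symm
  apply card_components_subset _ (fun i : Fin m => Complex.exp '' pieces r t m i)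
  · intro i
    exact ((h.pieces_compact i).image Complex.continuous_exp).isClosed
  · intro i
    exact (h.pieces_preconnected hm hτ i).image _ Complex.continuous_exp.continuousOn
  · intro i
    exact (pieces_nonempty r t i).image _
  · intro i j hij
    rw [Set.disjoint_left]
    rintro _ ⟨z, hz, rfl⟩ ⟨w, hw, hzw⟩
    have h1 := h.exp_inj (h.pieces_subset j hw) (h.pieces_subset i hz) hzw
    rw [h1] at hw
    exact Set.disjoint_left.mp (h.pieces_disjoint hτ hx i j hij) hz hw
  · rw [e, h.union_pieces hm, Set.image_iUnion]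

end

end Pool.Agent.MP_018e62_nt
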