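import Pool.Agent.MP_018e62_nt.Inradius

/-!
The design of the arguments of the small primes and its consequences.
-/

set_option autoImplicit false

namespace Pool.Agent.MP_018e62_nt

open Finset Filter Topology

/-- The prescribed arguments. -/
noncomputable def th (Y Y' p : ℕ) : ℂ := if p = 2 ∨ (Y ≤ p ∧ p < Y') then Complex.I else 1

lemma norm_th (Y Y' p : ℕ) : ‖th Y Y' p‖ = 1 := by
  unfold th
  split_ifs <;> simp

/-- The hypotheses of the construction. -/
structure Setup (τ r t : ℝ) (N Y Y' : ℕ) (ε : ℝ) : Prop where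
  good : Good r t N
  hτ0 : 0 < τ
  hτ1 : τ ≤ 1 / 2
  hY : 3 ≤ Y
  hYY' : Y ≤ Y'
  hY'N : Y' ≤ N
  hε : 0 < ε
  hεN : 4 * N * ε ≤ 0.01 * τ
  happ : ∀ p, p < N → p.Prime → ‖pw p t - th Y Y' p‖ < ε
  sum1 : 1.1 * τ ≤ ∑ p ∈ (Ico Y Y').filter Nat.Prime, (p : ℝ) ^ (-r)
  sum2 : ∑ p ∈ (Ico Y Y').filter Nat.Prime, (p : ℝ) ^ (-r) ≤ 1.2 * τ
  sum3 : 9 ≤ ∑ p ∈ (Ico Y' N).filter Nat.Prime, (p : ℝ) ^ (-r)
  tail : ∀ Z, ∑ p ∈ (Ico N Z).filter Nat.Prime, (p : ℝ) ^ (-r) ≤ 0.1 * τ
  hY1 : 36 / (Y : ℝ) ≤ rho r N 0 ^ 2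
  hY2 : 3 / (Y : ℝ) ≤ rho r N 0
  hY3 : 5 / (Y : ℝ) ≤ 0.01 * τ

section

variable {τ r t : ℝ} {N Y Y' : ℕ} {ε : ℝ}

lemma Setup.vv_sub (h : Setup τ r t N Y Y' ε) {k : ℕ} (hk : k < N) (hkp : k.Prime) :
    ‖vv r t k - (((k : ℝ) ^ (-r) : ℝ) : ℂ) * th Y Y' k‖ ≤ ε := by
  unfold vv
  rw [← mul_sub, norm_mul, Complex.norm_real, Real.norm_of_nonneg (by positivity)]
  have h1 := (h.happ k hk hkp).le
  have h2 : (k : ℝ) ^ (-r) ≤ 1 := by
    apply Real.rpow_le_one_of_one_le_of_nonpos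
    · exact_mod_cast hkp.one_lt.le
    · linarith [h.good.hr]
  calc (k : ℝ) ^ (-r) * ‖pw k t - th Y Y' k‖ ≤ 1 * ε :=
        mul_le_mul h2 h1 (norm_nonneg _) (by norm_num)
    _ = ε := one_mul ε

lemma Setup.N_ge (h : Setup τ r t N Y Y' ε) : 10 ^ 12 ≤ N := h.good.hN

lemma Setup.Y_le_N (h : Setup τ r t N Y Y' ε) : Y ≤ N := h.hYY'.trans h.hY'N

/-- The rectangle is covered. -/
theorem Setup.rectangle (h : Setup τ r t N Y Y' ε) (z : ℂ) (hx : |z.re| ≤ 3)
    (hz : |z.im| ≤ 1.05 * τ) :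
    ∃ p ∈ LL (ell r t) Y, ∃ q ∈ LL (ell r t) Y, z = p - q := by
  have hr := h.good.hr
  have hY := h.hY
  have hτ0 := h.hτ0
  have hYN := h.Y_le_N
  -- the zonotope inequality
  have hzon : ∀ u : ℂ, ((starRingEnd ℂ) u * z).re ≤
      ∑ k ∈ Ico Y N, |((starRingEnd ℂ) u * ell r t k 1).re| := by
    intro u
    have h1 : ∑ k ∈ (Ico Y N).filter Nat.Prime, |((starRingEnd ℂ) u * ell r t k 1).re| ≤
        ∑ k ∈ Ico Y N, |((starRingEnd ℂ) u * ell r t k 1).re| :=
      Finset.sum_le_sum_of_subset_of_nonneg (Finset.filter_subset _ _) fun _ _ _ => abs_nonneg _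
    have h2 : ∀ k ∈ (Ico Y N).filter Nat.Prime,
        (k : ℝ) ^ (-r) * |((starRingEnd ℂ) u * th Y Y' k).re| -
          ‖u‖ * (5 / 2 * (1 / (k : ℝ) ^ 2) + ε) ≤ |((starRingEnd ℂ) u * ell r t k 1).re| := by
      intro k hk
      rw [Finset.mem_filter, Finset.mem_Ico] at hk
      have e1 : (k : ℝ) ^ (-r) * |((starRingEnd ℂ) u * th Y Y' k).re| =
          |((starRingEnd ℂ) u * ((((k : ℝ) ^ (-r) : ℝ) : ℂ) * th Y Y' k)).re| := by
        rw [show (starRingEnd ℂ) u * ((((k : ℝ) ^ (-r) : ℝ) : ℂ) * th Y Y' k) =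
          (((k : ℝ) ^ (-r) : ℝ) : ℂ) * ((starRingEnd ℂ) u * th Y Y' k) by ring,
          Complex.re_ofReal_mul, abs_mul, abs_of_nonneg (show (0 : ℝ) ≤ (k : ℝ) ^ (-r) by positivity)]
      rw [e1]
      have h3 : ‖ell r t k 1 - (((k : ℝ) ^ (-r) : ℝ) : ℂ) * th Y Y' k‖ ≤
          5 / 2 * (1 / (k : ℝ) ^ 2) + ε := by
        have h4 := norm_ell_sub_le t hr.le hk.2 (a := 1) le_rfl
        have h5 := h.vv_sub hk.1.2 hk.2
        calc ‖ell r t k 1 - (((k : ℝ) ^ (-r) : ℝ) : ℂ) * th Y Y' k‖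
            = ‖(ell r t k 1 - vv r t k) + (vv r t k -
                (((k : ℝ) ^ (-r) : ℝ) : ℂ) * th Y Y' k)‖ := by
              congr 1
              ring
          _ ≤ _ := (norm_add_le _ _).trans (add_le_add h4 h5)
      have h4 := Complex.abs_re_le_norm ((starRingEnd ℂ) u *
        (ell r t k 1 - (((k : ℝ) ^ (-r) : ℝ) : ℂ) * th Y Y' k))
      rw [norm_mul, RCLike.norm_conj] at h4
      have h5 : ‖u‖ * ‖ell r t k 1 - (((k : ℝ) ^ (-r) : ℝ) : ℂ) * th Y Y' k‖ ≤
          ‖u‖ * (5 / 2 * (1 / (k : ℝ) ^ 2) + ε) := mul_le_mul_of_nonneg_left h3 (norm_nonneg _)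
      rw [mul_sub, Complex.sub_re] at h4
      have h6 := abs_sub_abs_le_abs_sub
        ((starRingEnd ℂ) u * ((((k : ℝ) ^ (-r) : ℝ) : ℂ) * th Y Y' k)).re
        ((starRingEnd ℂ) u * ell r t k 1).re
      rw [abs_sub_comm] at h6
      linarith
    have h3 := Finset.sum_le_sum h2
    rw [Finset.sum_sub_distrib, ← Finset.mul_sum] at h3
    -- error term
    have h4 : ∑ k ∈ (Ico Y N).filter Nat.Prime, (5 / 2 * (1 / (k : ℝ) ^ 2) + ε) ≤ 0.02 * τ := by
      calc ∑ k ∈ (Ico Y N).filter Nat.Prime, (5 / 2 * (1 / (k : ℝ) ^ 2) + ε)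
          ≤ ∑ k ∈ Ico Y N, (5 / 2 * (1 / (k : ℝ) ^ 2) + ε) := by
            apply Finset.sum_le_sum_of_subset_of_nonneg (Finset.filter_subset _ _)
            intro k _ _
            have := h.hε
            positivity
        _ = 5 / 2 * ∑ k ∈ Ico Y N, 1 / (k : ℝ) ^ 2 + ((N - Y : ℕ) : ℝ) * ε := by
            rw [Finset.sum_add_distrib, ← Finset.mul_sum, Finset.sum_const, Nat.card_Ico,
              nsmul_eq_mul]
        _ ≤ 5 / 2 * (2 / (Y : ℝ)) + (N : ℝ) * ε := by
            apply add_le_add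
            · exact mul_le_mul_of_nonneg_left (sum_inv_sq_le (y := Y) (by omega) N) (by norm_num)
            · apply mul_le_mul_of_nonneg_right _ h.hε.le
              exact_mod_cast Nat.sub_le N Y
        _ ≤ 0.02 * τ := by
            have h5 := h.hY3
            have h6 := h.hεN
            have h7 : 5 / 2 * (2 / (Y : ℝ)) = 5 / (Y : ℝ) := by ring
            have h8 : 0 ≤ (N : ℝ) * ε := mul_nonneg (Nat.cast_nonneg _) h.hε.le
            rw [h7]
            norm_num at h5 h6 ⊢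
            linarith
    -- main term
    have h5 : 1.1 * τ * |u.im| + 9 * |u.re| ≤ ∑ k ∈ (Ico Y N).filter Nat.Prime,
        (k : ℝ) ^ (-r) * |((starRingEnd ℂ) u * th Y Y' k).re| := by
      have e0 : Ico Y N = Ico Y Y' ∪ Ico Y' N := (Finset.Ico_union_Ico_eq_Ico h.hYY' h.hY'N).symm
      have edis : Disjoint ((Ico Y Y').filter Nat.Prime) ((Ico Y' N).filter Nat.Prime) :=
        Finset.disjoint_filter_filter (Finset.Ico_disjoint_Ico_consecutive Y Y' N)
      rw [e0, Finset.filter_union, Finset.sum_union edis]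
      have e1 : ∑ k ∈ (Ico Y Y').filter Nat.Prime,
          (k : ℝ) ^ (-r) * |((starRingEnd ℂ) u * th Y Y' k).re| =
          (∑ k ∈ (Ico Y Y').filter Nat.Prime, (k : ℝ) ^ (-r)) * |u.im| := by
        rw [Finset.sum_mul]
        apply Finset.sum_congr rfl
        intro k hk
        rw [Finset.mem_filter, Finset.mem_Ico] at hk
        congr 2
        unfold th
        rw [if_pos (Or.inr hk.1)]
        simp
      have e2 : ∑ k ∈ (Ico Y' N).filter Nat.Prime,
          (k : ℝ) ^ (-r) * |((starRingEnd ℂ) u * th Y Y' k).re| =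
          (∑ k ∈ (Ico Y' N).filter Nat.Prime, (k : ℝ) ^ (-r)) * |u.re| := by
        rw [Finset.sum_mul]
        apply Finset.sum_congr rfl
        intro k hk
        rw [Finset.mem_filter, Finset.mem_Ico] at hk
        congr 2
        unfold th
        have := h.hYY'
        rw [if_neg (by omega)]
        simp
      rw [e1, e2]
      exact add_le_add (mul_le_mul_of_nonneg_right h.sum1 (abs_nonneg _))
        (mul_le_mul_of_nonneg_right h.sum3 (abs_nonneg _))
    have h6 : ((starRingEnd ℂ) u * z).re ≤ |u.re| * 3 + |u.im| * (1.05 * τ) := by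
      have e : ((starRingEnd ℂ) u * z).re = u.re * z.re + u.im * z.im := by
        simp [Complex.mul_re]
      rw [e]
      apply add_le_add
      · calc u.re * z.re ≤ |u.re * z.re| := le_abs_self _
          _ = |u.re| * |z.re| := abs_mul _ _
          _ ≤ |u.re| * 3 := mul_le_mul_of_nonneg_left hx (abs_nonneg _)
      · calc u.im * z.im ≤ |u.im * z.im| := le_abs_self _
          _ = |u.im| * |z.im| := abs_mul _ _
          _ ≤ |u.im| * (1.05 * τ) := mul_le_mul_of_nonneg_left hz (abs_nonneg _)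
    have h7 : ‖u‖ ≤ |u.re| + |u.im| := Complex.norm_le_abs_re_add_abs_im u
    have h8 : ‖u‖ * ∑ k ∈ (Ico Y N).filter Nat.Prime, (5 / 2 * (1 / (k : ℝ) ^ 2) + ε) ≤
        (|u.re| + |u.im|) * (0.02 * τ) :=
      mul_le_mul h7 h4 (Finset.sum_nonneg fun k _ => by
        have := h.hε
        positivity) (by positivity)
    have h9 : 0 ≤ |u.re| := abs_nonneg _
    have h10 : 0 ≤ |u.im| := abs_nonneg _
    have h11 : |u.re| * 3 + |u.im| * (1.05 * τ) ≤
        1.1 * τ * |u.im| + 9 * |u.re| - (|u.re| + |u.im|) * (0.02 * τ) := by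
      have hτ1 := h.hτ1
      have h12 : 0 ≤ |u.im| * τ := by positivity
      have h13 : |u.re| * τ ≤ |u.re| * (1 / 2) := mul_le_mul_of_nonneg_left hτ1 h9
      norm_num
      linarith
    linarith
  -- rounding
  obtain ⟨s, hs, hs2⟩ := rounding (Ico Y N) (fun k => ell r t k 1) z hzon
  have hrem : ‖z - ∑ k ∈ Ico Y N, (s k : ℂ) * ell r t k 1‖ ≤ rho r N 0 := by
    have h1 : ∑ k ∈ Ico Y N, ‖ell r t k 1‖ ^ 2 ≤ 9 * (2 / (Y : ℝ)) := by
      calc ∑ k ∈ Ico Y N, ‖ell r t k 1‖ ^ 2 ≤ ∑ k ∈ Ico Y N, 9 * (1 / (k : ℝ) ^ 2) := by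
            apply Finset.sum_le_sum
            intro k hk
            rw [Finset.mem_Ico] at hk
            exact norm_ell_sq_le t hr.le (by omega) 1
        _ = 9 * ∑ k ∈ Ico Y N, 1 / (k : ℝ) ^ 2 := by rw [Finset.mul_sum]
        _ ≤ 9 * (2 / (Y : ℝ)) :=
            mul_le_mul_of_nonneg_left (sum_inv_sq_le (y := Y) (by omega) N) (by norm_num)
    have h2 : ‖z - ∑ k ∈ Ico Y N, (s k : ℂ) * ell r t k 1‖ ^ 2 ≤ rho r N 0 ^ 2 := by
      refine hs2.trans (le_trans ?_ h.hY1)
      have h3 : 36 / (Y : ℝ) = 2 * (9 * (2 / (Y : ℝ))) := by ring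
      rw [h3]
      linarith
    exact le_of_sq_le_sq h2 (rho_nonneg r N 0)
  apply mem_diff (ell_zero r t) (summable_b hr) (fun k a => norm_ell_le t hr.le k a)
  intro η hη
  obtain ⟨M, s', hM, hs', h3⟩ := h.good.ball 0 _ hrem η hη
  rw [yy_zero] at hM h3
  refine ⟨M, fun k => if k < N then s k else s' k, ?_, ?_⟩
  · intro k
    dsimp only
    split_ifs
    · exact hs k
    · exact hs' k
  · rw [← Finset.sum_Ico_consecutive _ hYN hM]
    have e1 : ∑ k ∈ Ico Y N, (((if k < N then s k else s' k : ℝ)) : ℂ) * ell r t k 1 =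
        ∑ k ∈ Ico Y N, (s k : ℂ) * ell r t k 1 := by
      apply Finset.sum_congr rfl
      intro k hk
      rw [Finset.mem_Ico] at hk
      rw [if_pos hk.2]
    have e2 : ∑ k ∈ Ico N M, (((if k < N then s k else s' k : ℝ)) : ℂ) * ell r t k 1 =
        ∑ k ∈ Ico N M, (s' k : ℂ) * ell r t k 1 := by
      apply Finset.sum_congr rfl
      intro k hk
      rw [Finset.mem_Ico] at hk
      rw [if_neg (by omega)]
    rw [e1, e2, ← sub_sub]
    exact h3

lemma lg_real_im {x : ℝ} (hx0 : 0 ≤ x) (hx1 : x ≤ 1 / 2) (a : ℕ) : (lg (x : ℂ) a).im = 0 := by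
  unfold lg
  have h1 : x ^ (a + 1) ≤ 1 / 2 := by
    calc x ^ (a + 1) ≤ (1 / 2) ^ (a + 1) := pow_le_pow_left₀ hx0 hx1 _
      _ ≤ 1 / 2 := by
          rw [pow_succ]
          have : (1 / 2 : ℝ) ^ a ≤ 1 := pow_le_one₀ (by norm_num) (by norm_num)
          linarith
  have e1 : Complex.log (1 - (x : ℂ) ^ (a + 1)) = ((Real.log (1 - x ^ (a + 1)) : ℝ) : ℂ) := by
    rw [Complex.ofReal_log (by linarith)]
    push_cast
    rfl
  have e2 : Complex.log (1 - (x : ℂ)) = ((Real.log (1 - x) : ℝ) : ℂ) := by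
    rw [Complex.ofReal_log (by linarith)]
    push_cast
    rfl
  rw [e1, e2, Complex.sub_im, Complex.ofReal_im, Complex.ofReal_im, sub_zero]

/-- The imaginary part for the primes with argument zero. -/
lemma Setup.im_one (h : Setup τ r t N Y Y' ε) {k : ℕ} (hk : k < N) (hk2 : k ≠ 2)
    (hkY : k < Y ∨ Y' ≤ k) (a : ℕ) : |(ell r t k a).im| ≤ 4 * ε := by
  have hr := h.good.hr
  by_cases hkp : k.Prime
  · rw [ell_of_prime hkp]
    have h1 := h.vv_sub hk hkp
    have e : th Y Y' k = 1 := by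
      unfold th
      rw [if_neg (by omega)]
    rw [e, mul_one] at h1
    have hx1 : (k : ℝ) ^ (-r) ≤ 1 / 2 := by
      rw [← norm_vv r t k]
      exact norm_vv_le_half hr.le hkp.two_le
    have hx0 : 0 ≤ (k : ℝ) ^ (-r) := by positivity
    have h2 := norm_lg_sub_lg_le (v := vv r t k) (x := (((k : ℝ) ^ (-r) : ℝ) : ℂ))
      (norm_vv_le_half hr.le hkp.two_le)
      (by rw [Complex.norm_real, Real.norm_of_nonneg hx0]; exact hx1) a
    have h3 := lg_real_im hx0 hx1 a
    have h4 := (Complex.abs_im_le_norm _).trans h2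
    rw [Complex.sub_im, h3, sub_zero] at h4
    linarith
  · rw [ell_of_not_prime hkp]
    simp [h.hε.le]

/-- The imaginary part for the primes in the first class. -/
lemma Setup.im_two (h : Setup τ r t N Y Y' ε) {k : ℕ} (hk : Y ≤ k) (hk' : k < Y')
    (hkp : k.Prime) (a : ℕ) :
    -(5 / 2 * (1 / (k : ℝ) ^ 2) + ε) ≤ (ell r t k a).im ∧
      (ell r t k a).im ≤ (k : ℝ) ^ (-r) + (5 / 2 * (1 / (k : ℝ) ^ 2) + ε) := by
  have hr := h.good.hr
  have hx0 : 0 ≤ (k : ℝ) ^ (-r) := by positivity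
  have hε := h.hε
  rcases Nat.eq_zero_or_pos a with ha | ha
  · rw [ha, ell_zero, Complex.zero_im]
    have : 0 ≤ 5 / 2 * (1 / (k : ℝ) ^ 2) := by positivity
    constructor <;> linarith
  · have h1 := h.vv_sub (hk'.trans_le h.hY'N) hkp
    have e : th Y Y' k = Complex.I := by
      unfold th
      rw [if_pos (Or.inr ⟨hk, hk'⟩)]
    rw [e] at h1
    have h2 := norm_ell_sub_le t hr.le hkp ha
    have h3 : ‖ell r t k a - (((k : ℝ) ^ (-r) : ℝ) : ℂ) * Complex.I‖ ≤
        5 / 2 * (1 / (k : ℝ) ^ 2) + ε := by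
      calc ‖ell r t k a - (((k : ℝ) ^ (-r) : ℝ) : ℂ) * Complex.I‖
          = ‖(ell r t k a - vv r t k) + (vv r t k -
              (((k : ℝ) ^ (-r) : ℝ) : ℂ) * Complex.I)‖ := by
            congr 1
            ring
        _ ≤ _ := (norm_add_le _ _).trans (add_le_add h2 h1)
    have h4 := (Complex.abs_im_le_norm _).trans h3
    rw [Complex.sub_im, Complex.im_ofReal_mul, Complex.I_im, mul_one, abs_le] at h4
    constructor <;> linarith [h4.1, h4.2]

/-- All local terms beyond the prime two are covered. -/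
theorem Setup.cover (h : Setup τ r t N Y Y' ε) (k : ℕ) (hk : 3 ≤ k) (a : ℕ) :
    ∃ p ∈ LL (ell r t) (k + 1), ∃ q ∈ LL (ell r t) (k + 1), ell r t k a = p - q := by
  have hr := h.good.hr
  rcases Nat.lt_or_ge k N with hkN | hkN
  swap
  · exact h.good.cover_large k hkN a
  rcases Nat.lt_or_ge k Y with hkY | hkY
  swap
  · have h1 : ‖ell r t k a‖ ≤ rho r N 0 := by
      refine (norm_ell_le' t hr.le (by omega) a).trans (le_trans ?_ h.hY2)
      apply div_le_div_of_nonneg_left (by norm_num)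
      · have := h.hY
        exact_mod_cast (by omega : 0 < Y)
      · exact_mod_cast hkY
    obtain ⟨p, hp, q, hq, e⟩ := h.good.ball_diff 0 _ h1
    rw [yy_zero] at hp hq
    have hsub := LL_subset (ell_zero r t) (show k + 1 ≤ N by omega)
    exact ⟨p, hsub hp, q, hsub hq, e⟩
  · have h1 : |(ell r t k a).im| ≤ 1.05 * τ := by
      refine (h.im_one hkN (by omega) (Or.inl hkY) a).trans ?_
      have h2 := h.hεN
      have h3 := h.N_ge
      have h4 : (1 : ℝ) ≤ N := by exact_mod_cast (by omega : 1 ≤ N)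
      have h5 : 4 * ε ≤ 4 * N * ε := by
        have := h.hε
        nlinarith
      have := h.hτ0
      norm_num at h2 ⊢
      linarith
    have h2 : |(ell r t k a).re| ≤ 3 := by
      refine (Complex.abs_re_le_norm _).trans ((norm_ell_le' t hr.le (by omega) a).trans ?_)
      have h4 : (1 : ℝ) ≤ k := by exact_mod_cast (by omega : 1 ≤ k)
      rw [div_le_iff₀ (by linarith)]
      linarith
    obtain ⟨p, hp, q, hq, e⟩ := h.rectangle _ h2 h1
    have hsub := LL_subset (ell_zero r t) (show k + 1 ≤ Y by omega)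
    exact ⟨p, hsub hp, q, hsub hq, e⟩

theorem Setup.preconnected (h : Setup τ r t N Y Y' ε) : IsPreconnected (LL (ell r t) 3) :=
  isPreconnected_LL (ell_zero r t) (summable_b h.good.hr)
    (fun k a => norm_ell_le t h.good.hr.le k a) 3 (fun k hk a => h.cover k hk a)

/-- The bound for a single imaginary part. -/
lemma Setup.im_bound (h : Setup τ r t N Y Y' ε) {k : ℕ} (hk : 3 ≤ k) (a : ℕ) :
    -((if k < N then 4 * ε else 0) +
      (if k ∈ (Ico Y Y').filter Nat.Prime then 5 / 2 * (1 / (k : ℝ) ^ 2) else 0) +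
      (if k ∈ (Ico N (k + 1)).filter Nat.Prime then 3 * (k : ℝ) ^ (-r) else 0)) ≤
        (ell r t k a).im ∧
    (ell r t k a).im ≤ ((if k < N then 4 * ε else 0) +
      (if k ∈ (Ico Y Y').filter Nat.Prime then 5 / 2 * (1 / (k : ℝ) ^ 2) else 0) +
      (if k ∈ (Ico N (k + 1)).filter Nat.Prime then 3 * (k : ℝ) ^ (-r) else 0)) +
      (if k ∈ (Ico Y Y').filter Nat.Prime then (k : ℝ) ^ (-r) else 0) := by
  have hr := h.good.hr
  have hε := h.hε
  have hY'N := h.hY'N
  by_cases hkp : k.Prime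
  swap
  · rw [ell_of_not_prime hkp, Complex.zero_im]
    have e1 : ¬ k ∈ (Ico Y Y').filter Nat.Prime := by
      intro h1
      exact hkp (Finset.mem_filter.mp h1).2
    have e2 : ¬ k ∈ (Ico N (k + 1)).filter Nat.Prime := by
      intro h1
      exact hkp (Finset.mem_filter.mp h1).2
    rw [if_neg e1, if_neg e2, if_neg e1]
    split_ifs <;> constructor <;> linarith
  rcases Nat.lt_or_ge k N with hkN | hkN
  swap
  · have e1 : ¬ k ∈ (Ico Y Y').filter Nat.Prime := by
      intro h1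
      have := (Finset.mem_Ico.mp (Finset.mem_filter.mp h1).1).2
      omega
    have e2 : k ∈ (Ico N (k + 1)).filter Nat.Prime := by
      rw [Finset.mem_filter, Finset.mem_Ico]
      exact ⟨⟨hkN, by omega⟩, hkp⟩
    rw [if_neg e1, if_pos e2, if_neg e1, if_neg (by omega)]
    have h1 := (Complex.abs_im_le_norm _).trans (norm_ell_le t hr.le k a)
    rw [abs_le] at h1
    constructor <;> linarith [h1.1, h1.2]
  have e2 : ¬ k ∈ (Ico N (k + 1)).filter Nat.Prime := by
    intro h1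
    have := (Finset.mem_Ico.mp (Finset.mem_filter.mp h1).1).1
    omega
  rw [if_neg e2, if_pos hkN]
  by_cases e1 : k ∈ (Ico Y Y').filter Nat.Prime
  · rw [if_pos e1, if_pos e1]
    rw [Finset.mem_filter, Finset.mem_Ico] at e1
    have h1 := h.im_two e1.1.1 e1.1.2 hkp a
    constructor <;> linarith [h1.1, h1.2]
  · rw [if_neg e1, if_neg e1]
    have h2 : k < Y ∨ Y' ≤ k := by
      by_contra hcon
      push Not at hcon
      apply e1
      rw [Finset.mem_filter, Finset.mem_Ico]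
      exact ⟨hcon, hkp⟩
    have h1 := h.im_one hkN (by omega) h2 a
    rw [abs_le] at h1
    constructor <;> linarith [h1.1, h1.2]

/-- The imaginary parts of the elements of the closure. -/
theorem Setup.im_LL (h : Setup τ r t N Y Y' ε) {x : ℂ} (hx : x ∈ LL (ell r t) 3) :
    -(0.32 * τ) ≤ x.im ∧ x.im ≤ 1.52 * τ := by
  have hε := h.hε
  have hτ0 := h.hτ0
  have hSS : SS (ell r t) 3 ⊆ {x : ℂ | -(0.32 * τ) ≤ x.im ∧ x.im ≤ 1.52 * τ} := by
    rintro x ⟨M, a, rfl⟩
    set f : ℕ → ℝ := fun k => (if k < N then 4 * ε else 0) +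
      (if k ∈ (Ico Y Y').filter Nat.Prime then 5 / 2 * (1 / (k : ℝ) ^ 2) else 0) +
      (if k ∈ (Ico N (k + 1)).filter Nat.Prime then 3 * (k : ℝ) ^ (-r) else 0) with hf
    set g : ℕ → ℝ := fun k => if k ∈ (Ico Y Y').filter Nat.Prime then (k : ℝ) ^ (-r) else 0
      with hg
    have h1 : ∑ k ∈ Ico 3 M, f k ≤ 0.32 * τ := by
      rw [hf]
      rw [Finset.sum_add_distrib, Finset.sum_add_distrib]
      have s1 : ∑ k ∈ Ico 3 M, (if k < N then 4 * ε else 0) ≤ 0.01 * τ := by
        rw [← Finset.sum_filter]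
        calc ∑ k ∈ (Ico 3 M).filter (fun k => k < N), 4 * ε
            ≤ ∑ k ∈ Finset.range N, 4 * ε := by
              apply Finset.sum_le_sum_of_subset_of_nonneg
              · intro k hk
                rw [Finset.mem_filter] at hk
                exact Finset.mem_range.mpr hk.2
              · intro k _ _
                linarith
          _ = 4 * N * ε := by
              rw [Finset.sum_const, Finset.card_range, nsmul_eq_mul]
              ring
          _ ≤ 0.01 * τ := h.hεN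
      have s2 : ∑ k ∈ Ico 3 M, (if k ∈ (Ico Y Y').filter Nat.Prime then
          5 / 2 * (1 / (k : ℝ) ^ 2) else 0) ≤ 0.01 * τ := by
        rw [← Finset.sum_filter]
        calc ∑ k ∈ (Ico 3 M).filter (fun k => k ∈ (Ico Y Y').filter Nat.Prime),
              5 / 2 * (1 / (k : ℝ) ^ 2)
            ≤ ∑ k ∈ Ico Y Y', 5 / 2 * (1 / (k : ℝ) ^ 2) := by
              apply Finset.sum_le_sum_of_subset_of_nonneg
              · intro k hk
                rw [Finset.mem_filter, Finset.mem_filter] at hk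
                exact hk.2.1
              · intro k _ _
                positivity
          _ = 5 / 2 * ∑ k ∈ Ico Y Y', 1 / (k : ℝ) ^ 2 := by rw [Finset.mul_sum]
          _ ≤ 5 / 2 * (2 / (Y : ℝ)) := by
              apply mul_le_mul_of_nonneg_left _ (by norm_num)
              exact sum_inv_sq_le (y := Y) (by have := h.hY; omega) Y'
          _ = 5 / (Y : ℝ) := by ring
          _ ≤ 0.01 * τ := h.hY3
      have s3 : ∑ k ∈ Ico 3 M, (if k ∈ (Ico N (k + 1)).filter Nat.Prime then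
          3 * (k : ℝ) ^ (-r) else 0) ≤ 0.3 * τ := by
        rw [← Finset.sum_filter]
        calc ∑ k ∈ (Ico 3 M).filter (fun k => k ∈ (Ico N (k + 1)).filter Nat.Prime),
              3 * (k : ℝ) ^ (-r)
            ≤ ∑ k ∈ (Ico N M).filter Nat.Prime, 3 * (k : ℝ) ^ (-r) := by
              apply Finset.sum_le_sum_of_subset_of_nonneg
              · intro k hk
                rw [Finset.mem_filter, Finset.mem_filter, Finset.mem_Ico, Finset.mem_Ico] at hk
                rw [Finset.mem_filter, Finset.mem_Ico]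
                exact ⟨⟨hk.2.1.1, hk.1.2⟩, hk.2.2⟩
              · intro k _ _
                positivity
          _ = 3 * ∑ k ∈ (Ico N M).filter Nat.Prime, (k : ℝ) ^ (-r) := by rw [Finset.mul_sum]
          _ ≤ 3 * (0.1 * τ) := mul_le_mul_of_nonneg_left (h.tail M) (by norm_num)
          _ = 0.3 * τ := by ring
      norm_num at s1 s2 s3 ⊢
      linarith
    have h2 : ∑ k ∈ Ico 3 M, g k ≤ 1.2 * τ := by
      rw [hg, ← Finset.sum_filter]
      refine le_trans ?_ h.sum2
      apply Finset.sum_le_sum_of_subset_of_nonneg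
      · intro k hk
        rw [Finset.mem_filter] at hk
        exact hk.2
      · intro k _ _
        positivity
    have h3 : -∑ k ∈ Ico 3 M, f k ≤ (∑ k ∈ Ico 3 M, ell r t k (a k)).im := by
      rw [Complex.im_sum, ← Finset.sum_neg_distrib]
      apply Finset.sum_le_sum
      intro k hk
      exact (h.im_bound (Finset.mem_Ico.mp hk).1 (a k)).1
    have h4 : (∑ k ∈ Ico 3 M, ell r t k (a k)).im ≤ ∑ k ∈ Ico 3 M, f k + ∑ k ∈ Ico 3 M, g k := by
      rw [Complex.im_sum, ← Finset.sum_add_distrib]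
      apply Finset.sum_le_sum
      intro k hk
      exact (h.im_bound (Finset.mem_Ico.mp hk).1 (a k)).2
    constructor
    · linarith
    · norm_num at h1 h2 h4 ⊢
      linarith
  have hclosed : IsClosed {x : ℂ | -(0.32 * τ) ≤ x.im ∧ x.im ≤ 1.52 * τ} :=
    (isClosed_le continuous_const Complex.continuous_im).inter
      (isClosed_le Complex.continuous_im continuous_const)
  exact closure_minimal hSS hclosed hx

end

end Pool.Agent.MP_018e62_nt
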