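import Pool.Agent.MP_018e62_nt.Local

/-!
The divisor function in terms of the local factors.
-/

set_option autoImplicit false

namespace Pool.Agent.MP_018e62_nt

open Finset Filter Topology

/-- The complex divisor function. -/
noncomputable def sg (c : ℂ) (n : ℕ) : ℂ := ∑ d ∈ n.divisors, (d : ℂ) ^ c

/-- The power function as an arithmetic function. -/
noncomputable def powAF (c : ℂ) : ArithmeticFunction ℂ :=
  ⟨fun n => if n = 0 then 0 else (n : ℂ) ^ c, by simp⟩

lemma powAF_apply (c : ℂ) {n : ℕ} (hn : n ≠ 0) : powAF c n = (n : ℂ) ^ c := by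
  simp [powAF, hn]

lemma powAF_mult (c : ℂ) : (powAF c).IsMultiplicative := by
  rw [ArithmeticFunction.IsMultiplicative.iff_ne_zero]
  constructor
  · rw [powAF_apply c one_ne_zero]
    simp
  · intro m n hm hn _
    rw [powAF_apply c (Nat.mul_ne_zero hm hn), powAF_apply c hm, powAF_apply c hn]
    push_cast
    rw [Complex.natCast_mul_natCast_cpow]

/-- The divisor function as an arithmetic function. -/
noncomputable def sgAF (c : ℂ) : ArithmeticFunction ℂ :=
  (ArithmeticFunction.zeta : ArithmeticFunction ℂ) * powAF c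

lemma sgAF_mult (c : ℂ) : (sgAF c).IsMultiplicative :=
  ArithmeticFunction.isMultiplicative_zeta.natCast.mul (powAF_mult c)

lemma sgAF_apply (c : ℂ) (n : ℕ) : sgAF c n = sg c n := by
  unfold sgAF sg
  rw [ArithmeticFunction.coe_zeta_mul_apply]
  apply Finset.sum_congr rfl
  intro d hd
  exact powAF_apply c (Nat.pos_of_mem_divisors hd).ne'

lemma cpow_eq_vv (r t : ℝ) {k : ℕ} (hk : 1 ≤ k) :
    (k : ℂ) ^ (-(r : ℂ) + t * Complex.I) = vv r t k := by
  have hk0 : (k : ℂ) ≠ 0 := by exact_mod_cast (by omega : k ≠ 0)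
  have hk1 : (0 : ℝ) ≤ k := Nat.cast_nonneg k
  rw [Complex.cpow_add _ _ hk0]
  unfold vv pw
  congr 1
  · rw [Complex.ofReal_cpow hk1]
    push_cast
    rfl
  · rw [Complex.cpow_def_of_ne_zero hk0, ← Complex.natCast_log]
    congr 1
    ring

lemma exp_lg {v : ℂ} (hv : ‖v‖ ≤ 1 / 2) (a : ℕ) :
    Complex.exp (lg v a) = ∑ i ∈ Finset.range (a + 1), v ^ i := by
  unfold lg
  have h1 : 1 - v ≠ 0 := by
    intro h
    have : v = 1 := (sub_eq_zero.mp h).symm
    rw [this, norm_one] at hv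
    norm_num at hv
  have h2 : 1 - v ^ (a + 1) ≠ 0 := by
    intro h
    have h3 : v ^ (a + 1) = 1 := (sub_eq_zero.mp h).symm
    have h4 := norm_pow_le_self hv a
    rw [h3, norm_one] at h4
    linarith
  have h3 : v ≠ 1 := fun h => h1 (by rw [h, sub_self])
  rw [Complex.exp_sub, Complex.exp_log h1, Complex.exp_log h2, geom_sum_eq h3,
    ← neg_sub (v ^ (a + 1)) 1, ← neg_sub v 1, neg_div_neg_eq]

lemma sg_prime_pow {r : ℝ} (t : ℝ) (hr : 1 ≤ r) {p : ℕ} (hp : p.Prime) (a : ℕ) :
    sg (-(r : ℂ) + t * Complex.I) (p ^ a) = Complex.exp (ell r t p a) := by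
  rw [ell_of_prime hp, exp_lg (norm_vv_le_half hr hp.two_le)]
  unfold sg
  rw [Nat.sum_divisors_prime_pow hp]
  apply Finset.sum_congr rfl
  intro i _
  rw [← cpow_eq_vv r t hp.one_lt.le, Nat.cast_pow, ← Complex.natCast_cpow_natCast_mul,
    Complex.cpow_nat_mul]

/-- The value of the divisor function at a product of prime powers. -/
lemma sg_prod {r : ℝ} (t : ℝ) (hr : 1 ≤ r) (N : ℕ) (a : ℕ → ℕ) :
    sg (-(r : ℂ) + t * Complex.I) (∏ k ∈ (Ico 2 N).filter Nat.Prime, k ^ a k) =
      Complex.exp (∑ k ∈ Ico 2 N, ell r t k (a k)) := by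
  rw [← sgAF_apply, (sgAF_mult _).map_prod]
  · rw [Complex.exp_sum, Finset.prod_filter]
    apply Finset.prod_congr rfl
    intro k _
    split_ifs with hk
    · rw [sgAF_apply, sg_prime_pow t hr hk]
    · rw [ell_of_not_prime hk, Complex.exp_zero]
  · intro i hi j hj hij
    rw [Finset.mem_coe, Finset.mem_filter] at hi hj
    exact Nat.Coprime.pow _ _ ((Nat.coprime_primes hi.2 hj.2).mpr hij)

/-- The range of the divisor function. -/
theorem range_sg {r : ℝ} (t : ℝ) (hr : 1 ≤ r) :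
    {z : ℂ | ∃ n : ℕ, 1 ≤ n ∧ z = ∑ d ∈ n.divisors, (d : ℂ) ^ (-(r : ℂ) + t * Complex.I)} =
      Complex.exp '' SS (ell r t) 2 := by
  ext z
  constructor
  · rintro ⟨n, hn, rfl⟩
    refine ⟨∑ k ∈ Ico 2 (n + 1), ell r t k (n.factorization k),
      ⟨n + 1, n.factorization, rfl⟩, ?_⟩
    rw [← sg_prod t hr]
    have e : ∏ k ∈ (Ico 2 (n + 1)).filter Nat.Prime, k ^ n.factorization k = n := by
      conv_rhs => rw [← Nat.prod_factorization_pow_eq_self (show n ≠ 0 by omega)]
      unfold Finsupp.prod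
      symm
      apply Finset.prod_subset
      · intro p hp
        rw [Nat.support_factorization, Nat.mem_primeFactors] at hp
        rw [Finset.mem_filter, Finset.mem_Ico]
        exact ⟨⟨hp.1.two_le, Nat.lt_succ_of_le (Nat.le_of_dvd (by omega) hp.2.1)⟩, hp.1⟩
      · intro p _ hp
        rw [Finsupp.notMem_support_iff] at hp
        rw [hp]
        exact pow_zero p
    rw [e]
    rfl
  · rintro ⟨x, ⟨N, a, rfl⟩, rfl⟩
    refine ⟨∏ k ∈ (Ico 2 N).filter Nat.Prime, k ^ a k, ?_, ?_⟩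
    · apply Nat.one_le_iff_ne_zero.mpr
      rw [Finset.prod_ne_zero_iff]
      intro k hk
      rw [Finset.mem_filter] at hk
      exact pow_ne_zero _ hk.2.ne_zero
    · rw [← sg_prod t hr]
      rfl

end Pool.Agent.MP_018e62_nt
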