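import Pool.Agent.MP_018e62_nt.Average2

/-!
Existence of a height `t` with prescribed values of `p ^ (i t)` for finitely many primes and with
small sums over many windows of primes.
-/

set_option autoImplicit false

namespace Pool.Agent.MP_018e62_nt

open Finset MeasureTheory ProbabilityTheory Filter Topology

lemma integrable_of_cont_bdd {T : ℝ} {f : ℝ → ℝ} (hf : Continuous f) {C : ℝ}
    (hC : ∀ t, ‖f t‖ ≤ C) : Integrable f (gT T) :=
  Integrable.of_bound hf.aestronglyMeasurable C (Eventually.of_forall hC)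

lemma norm_SW_le (a : ℕ → ℝ) (W : Finset ℕ) (t : ℝ) : ‖SW a W t‖ ≤ ∑ p ∈ W, |a p| := by
  unfold SW
  refine (norm_sum_le _ _).trans (Finset.sum_le_sum fun p _ => ?_)
  have : (((2 * Real.log p : ℝ) : ℂ) * t * Complex.I) =
      ((2 * Real.log p * t : ℝ) : ℂ) * Complex.I := by
    push_cast; ring
  rw [norm_mul, Complex.norm_real, Real.norm_eq_abs, this, Complex.norm_exp_ofReal_mul_I, mul_one]

theorem exists_t {θ : ℕ → ℂ} {Q : Finset ℕ} (hθ : ∀ p ∈ Q, ‖θ p‖ = 1)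
    (hQ : ∀ p ∈ Q, p.Prime) {ε κ : ℝ} (hε : 0 < ε) (hκ : 0 < κ) (W : ℕ → Finset ℕ)
    (hW : ∀ i, ∀ p ∈ W i, p.Prime ∧ p ∉ Q) (a : ℕ → ℕ → ℝ)
    (ha0 : ∀ i, ∀ p ∈ W i, 0 ≤ a i p) (ha1 : ∀ i, ∀ p ∈ W i, a i p ≤ 1 / p)
    (hmass : ∀ i, ∑ p ∈ W i, a i p ≤ 1) (U : ℕ → ℝ) (hU : Summable U)
    (hUW : ∀ i, ∑ p ∈ W i, a i p ^ 2 ≤ U i) (hUsum : ∑' i, U i ≤ κ ^ 2 / 4)
    (I : ℕ → ℕ) (hI : Tendsto (fun n : ℕ => (I n : ℝ) / n) atTop (𝓝 0)) :
    ∀ᶠ n : ℕ in atTop, ∃ t : ℝ, (n : ℝ) ^ 2 / 2 ≤ t ∧ t ≤ 3 * (n : ℝ) ^ 2 / 2 ∧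
      (∀ p ∈ Q, ‖pw p t - θ p‖ < ε) ∧ ∀ i < I n, ‖SW (a i) (W i) t‖ < κ := by
  classical
  have hU0 : ∀ i, 0 ≤ U i := fun i => (Finset.sum_nonneg fun p _ => sq_nonneg _).trans (hUW i)
  -- the length of the geometric sums
  obtain ⟨k, hk⟩ : ∃ k : ℕ, 32 * (Q.card : ℝ) / ε ^ 2 ≤ k := exists_nat_ge _
  set K : ℝ := ((JJ k Q).card : ℝ) with hK
  have hKpos : 0 < K := by
    rw [hK, card_JJ]
    positivity
  have hkQ : 4 * (Q.card : ℝ) * (K / (k + 1)) ≤ K * ε ^ 2 / 8 := by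
    rw [div_le_iff₀ (by positivity)] at hk
    have h1 : 0 ≤ (Q.card : ℝ) := Nat.cast_nonneg _
    have hk1 : (0 : ℝ) < k + 1 := by positivity
    rw [mul_div_assoc', div_le_iff₀ hk1]
    nlinarith [sq_nonneg ε, mul_nonneg hKpos.le (sq_nonneg ε)]
  -- the threshold for the windows
  obtain ⟨i0, hi0⟩ : ∃ i0 : ℕ, (1 + 4 * K) * ∑' i, U (i + i0) ≤ κ ^ 2 / 16 := by
    have h1 : Tendsto (fun j : ℕ => (1 + 4 * K) * ∑' i, U (i + j)) atTop (𝓝 ((1 + 4 * K) * 0)) :=
      (tendsto_sum_nat_add U).const_mul _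
    rw [mul_zero] at h1
    obtain ⟨j, hj⟩ := (h1.eventually (gt_mem_nhds (show 0 < κ ^ 2 / 16 by positivity))).exists
    exact ⟨j, hj.le⟩
  -- limits
  have hnat : Tendsto (fun n : ℕ => (n : ℝ)) atTop atTop := tendsto_natCast_atTop_atTop
  set E : ℕ → ℝ := fun n => ∫ t, ‖DD θ k Q t‖ ^ 2 ∂(gT n) with hE
  have hElim : Tendsto E atTop (𝓝 K) := (tendsto_DD hθ hQ k).comp hnat
  set A : ℕ → ℝ := fun n => ∑ p ∈ Q, ∫ t, ‖DD θ k Q t‖ ^ 2 * ‖pw p t - θ p‖ ^ 2 ∂(gT n) with hA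
  set A' : ℕ → ℝ := fun n => ∑ p ∈ Q, 4 * ∫ t, ‖DD θ k (Q.erase p) t‖ ^ 2 ∂(gT n) with hA'
  have hbddD : ∀ (R : Finset ℕ), (∀ p ∈ R, ‖θ p‖ = 1) → ∀ t, ‖(‖DD θ k R t‖ ^ 2 : ℝ)‖ ≤
      ((JJ k R).card : ℝ) ^ 2 := by
    intro R hR t
    rw [Real.norm_eq_abs, abs_of_nonneg (by positivity)]
    exact pow_le_pow_left₀ (norm_nonneg _) (norm_DD_le hR k t) 2
  have hcontD : ∀ R : Finset ℕ, Continuous (fun t => (‖DD θ k R t‖ ^ 2 : ℝ)) := by
    intro R
    have := continuous_DD θ k R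
    fun_prop
  have hpwbd : ∀ p ∈ Q, ∀ t, ‖pw p t - θ p‖ ^ 2 ≤ 4 := by
    intro p hp t
    have h1 : ‖pw p t - θ p‖ ≤ 2 := by
      refine (norm_sub_le _ _).trans ?_
      rw [norm_pw, hθ p hp]
      norm_num
    nlinarith [norm_nonneg (pw p t - θ p)]
  have hintA : ∀ n : ℕ, ∀ p ∈ Q,
      Integrable (fun t => ‖DD θ k Q t‖ ^ 2 * ‖pw p t - θ p‖ ^ 2) (gT n) := by
    intro n p hp
    refine integrable_of_cont_bdd (C := K ^ 2 * 4) ?_ ?_
    · have := continuous_DD θ k Q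
      have := continuous_pw p
      fun_prop
    · intro t
      rw [norm_mul]
      have h1 := hbddD Q hθ t
      have h2 : ‖(‖pw p t - θ p‖ ^ 2 : ℝ)‖ ≤ 4 := by
        rw [Real.norm_eq_abs, abs_of_nonneg (by positivity)]
        exact hpwbd p hp t
      exact mul_le_mul h1 h2 (norm_nonneg _) (by positivity)
  have hAA' : ∀ n, A n ≤ A' n := by
    intro n
    apply Finset.sum_le_sum
    intro p hp
    rw [← integral_const_mul]
    apply integral_mono (hintA n p hp)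
    · apply Integrable.const_mul
      exact integrable_of_cont_bdd (hcontD _)
        (hbddD (Q.erase p) (fun q hq => hθ q (Finset.mem_of_mem_erase hq)))
    · intro t
      exact DD_erase hθ k t hp
  have hA'lim : Tendsto A' atTop (𝓝 (4 * (Q.card : ℝ) * (K / (k + 1)))) := by
    have h1 : ∀ p ∈ Q, Tendsto (fun n : ℕ => 4 * ∫ t, ‖DD θ k (Q.erase p) t‖ ^ 2 ∂(gT n)) atTop
        (𝓝 (4 * (K / (k + 1)))) := by
      intro p hp
      apply Tendsto.const_mul
      have h2 := (tendsto_DD (θ := θ) (Q := Q.erase p)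
        (fun q hq => hθ q (Finset.mem_of_mem_erase hq))
        (fun q hq => hQ q (Finset.mem_of_mem_erase hq)) k).comp hnat
      have h3 : ((JJ k (Q.erase p)).card : ℝ) = K / (k + 1) := by
        rw [hK, card_JJ, card_JJ, Finset.card_erase_of_mem hp]
        have hcard : 1 ≤ Q.card := Finset.card_pos.mpr ⟨p, hp⟩
        obtain ⟨c, hc⟩ := Nat.exists_eq_add_of_le hcard
        rw [hc]
        push_cast
        have : 1 + c - 1 = c := by omega
        rw [this, pow_add, pow_one]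
        field_simp
      rw [h3] at h2
      exact h2
    have h2 := tendsto_finsetSum Q h1
    have h3 : ∑ p ∈ Q, (4 * (K / (k + 1))) = 4 * (Q.card : ℝ) * (K / (k + 1)) := by
      rw [Finset.sum_const, nsmul_eq_mul]
      ring
    rw [h3] at h2
    exact h2
  set M : ℕ → ℕ → ℝ := fun n i => ∫ t, ‖DD θ k Q t * SW (a i) (W i) t‖ ^ 2 ∂(gT n) with hM
  have hM0 : ∀ n i, 0 ≤ M n i := fun n i => integral_nonneg fun t => by positivity
  have hBlim : Tendsto (fun n => ∑ i ∈ Finset.range i0, M n i) atTop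
      (𝓝 (∑ i ∈ Finset.range i0, K * ∑ p ∈ W i, a i p ^ 2)) := by
    apply tendsto_finsetSum
    intro i _
    exact (tendsto_window hθ hQ k (W i) (hW i) (a i)).comp hnat
  have hBle : ∑ i ∈ Finset.range i0, K * ∑ p ∈ W i, a i p ^ 2 ≤ K * (κ ^ 2 / 4) := by
    rw [← Finset.mul_sum]
    apply mul_le_mul_of_nonneg_left _ hKpos.le
    calc ∑ i ∈ Finset.range i0, ∑ p ∈ W i, a i p ^ 2 ≤ ∑ i ∈ Finset.range i0, U i :=
          Finset.sum_le_sum fun i _ => hUW i
      _ ≤ ∑' i, U i := hU.sum_le_tsum _ (fun i _ => hU0 i)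
      _ ≤ κ ^ 2 / 4 := hUsum
  -- bound for the other windows
  have hC : ∀ n : ℕ, 2 ≤ n → ∀ m : ℕ, ∑ i ∈ Finset.Ico i0 m, M n i ≤
      K * (κ ^ 2 / 16) + 4 * K ^ 2 * Real.exp (Lam k Q) * (m / ((n : ℝ) - 1)) := by
    intro n hn m
    have hn2 : (2 : ℝ) ≤ n := by exact_mod_cast hn
    have hterm : ∀ i ∈ Finset.Ico i0 m, M n i ≤
        K * ((1 + 4 * K) * U i) + 4 * K ^ 2 * Real.exp (Lam k Q) * (1 / ((n : ℝ) - 1)) := by
      intro i _
      have h1 := window_bound hθ k hn2 (W i) (fun p hp => (hW i p hp).1.one_lt.le) (a i)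
      have h2 : ∑ p ∈ W i, a i p ^ 2 *
          (1 + K * (4 + 4 * (Real.exp (Lam k Q) * p / ((n : ℝ) - 1)))) =
          (1 + 4 * K) * ∑ p ∈ W i, a i p ^ 2 +
            (4 * K * Real.exp (Lam k Q) * (1 / ((n : ℝ) - 1))) * ∑ p ∈ W i, a i p ^ 2 * p := by
        rw [Finset.mul_sum, Finset.mul_sum, ← Finset.sum_add_distrib]
        apply Finset.sum_congr rfl
        intro p _
        ring
      have h3 : ∑ p ∈ W i, a i p ^ 2 * p ≤ 1 := by
        refine le_trans (Finset.sum_le_sum fun p hp => ?_) (hmass i)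
        have hp0 : (0 : ℝ) < p := by exact_mod_cast (hW i p hp).1.pos
        have h4 := ha1 i p hp
        rw [le_div_iff₀ hp0] at h4
        have h5 := ha0 i p hp
        nlinarith
      have h6 : 0 ≤ 1 / ((n : ℝ) - 1) := by
        have : 0 < (n : ℝ) - 1 := by linarith
        positivity
      calc M n i ≤ K * ∑ p ∈ W i, a i p ^ 2 *
            (1 + K * (4 + 4 * (Real.exp (Lam k Q) * p / ((n : ℝ) - 1)))) := h1
        _ = K * ((1 + 4 * K) * ∑ p ∈ W i, a i p ^ 2 +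
            (4 * K * Real.exp (Lam k Q) * (1 / ((n : ℝ) - 1))) * ∑ p ∈ W i, a i p ^ 2 * p) := by
            rw [h2]
        _ ≤ K * ((1 + 4 * K) * U i +
            (4 * K * Real.exp (Lam k Q) * (1 / ((n : ℝ) - 1))) * 1) := by
            have := hUW i
            have h7 : 0 ≤ 4 * K * Real.exp (Lam k Q) * (1 / ((n : ℝ) - 1)) := by positivity
            gcongr
        _ = _ := by ring
    have h0 : 0 ≤ 1 / ((n : ℝ) - 1) := by
      have : 0 < (n : ℝ) - 1 := by linarith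
      positivity
    calc ∑ i ∈ Finset.Ico i0 m, M n i
        ≤ ∑ i ∈ Finset.Ico i0 m, (K * ((1 + 4 * K) * U i) +
            4 * K ^ 2 * Real.exp (Lam k Q) * (1 / ((n : ℝ) - 1))) := Finset.sum_le_sum hterm
      _ = K * ((1 + 4 * K) * ∑ i ∈ Finset.Ico i0 m, U i) +
            4 * K ^ 2 * Real.exp (Lam k Q) * (((m - i0 : ℕ) : ℝ) * (1 / ((n : ℝ) - 1))) := by
          rw [Finset.sum_add_distrib, Finset.sum_const, Nat.card_Ico, nsmul_eq_mul,
            ← Finset.mul_sum, ← Finset.mul_sum]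
          ring
      _ ≤ K * ((1 + 4 * K) * ∑' i, U (i + i0)) +
            4 * K ^ 2 * Real.exp (Lam k Q) * ((m : ℝ) * (1 / ((n : ℝ) - 1))) := by
          have h8 : ∑ i ∈ Finset.Ico i0 m, U i ≤ ∑' i, U (i + i0) := by
            rw [Finset.sum_Ico_eq_sum_range]
            have h9 : ∑ j ∈ Finset.range (m - i0), U (i0 + j) =
                ∑ j ∈ Finset.range (m - i0), U (j + i0) := by
              apply Finset.sum_congr rfl
              intro j _
              rw [add_comm]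
            rw [h9]
            exact ((summable_nat_add_iff i0).mpr hU).sum_le_tsum _ (fun i _ => hU0 _)
          have h10 : (((m - i0 : ℕ)) : ℝ) ≤ m := by exact_mod_cast Nat.sub_le m i0
          gcongr
      _ ≤ K * (κ ^ 2 / 16) +
            4 * K ^ 2 * Real.exp (Lam k Q) * ((m : ℝ) * (1 / ((n : ℝ) - 1))) := by
          gcongr
      _ = _ := by ring
  -- the limit of the last term
  have hIlim : Tendsto (fun n : ℕ => (I n : ℝ) / ((n : ℝ) - 1)) atTop (𝓝 0) := by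
    have h1 : Tendsto (fun n : ℕ => 2 * ((I n : ℝ) / n)) atTop (𝓝 0) := by
      simpa using hI.const_mul 2
    refine squeeze_zero' ?_ ?_ h1
    · filter_upwards [eventually_ge_atTop 2] with n hn
      have : (2 : ℝ) ≤ n := by exact_mod_cast hn
      have : 0 < (n : ℝ) - 1 := by linarith
      positivity
    · filter_upwards [eventually_ge_atTop 2] with n hn
      have hn2 : (2 : ℝ) ≤ n := by exact_mod_cast hn
      have h2 : 0 < (n : ℝ) - 1 := by linarith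
      have h3 : 2 * ((I n : ℝ) / n) = (I n : ℝ) / ((n : ℝ) / 2) := by
        field_simp
      rw [h3]
      apply div_le_div_of_nonneg_left (Nat.cast_nonneg _) (by linarith) (by linarith)
  have hPlim : Tendsto (fun n : ℕ => K ^ 2 * (4 / (n : ℝ) ^ 2)) atTop (𝓝 0) := by
    have h1 : Tendsto (fun n : ℕ => 4 / (n : ℝ) ^ 2) atTop (𝓝 0) :=
      Tendsto.const_div_atTop ((tendsto_pow_atTop two_ne_zero).comp hnat) 4
    simpa using h1.const_mul (K ^ 2)
  -- the combined limit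
  have hcomb : Tendsto (fun n : ℕ => E n - A' n / ε ^ 2 -
      (∑ i ∈ Finset.range i0, M n i + (K * (κ ^ 2 / 16) +
        4 * K ^ 2 * Real.exp (Lam k Q) * ((I n : ℝ) / ((n : ℝ) - 1)))) / κ ^ 2 -
      K ^ 2 * (4 / (n : ℝ) ^ 2)) atTop
      (𝓝 (K - (4 * (Q.card : ℝ) * (K / (k + 1))) / ε ^ 2 -
      ((∑ i ∈ Finset.range i0, K * ∑ p ∈ W i, a i p ^ 2) + (K * (κ ^ 2 / 16) +
        4 * K ^ 2 * Real.exp (Lam k Q) * 0)) / κ ^ 2 - 0)) :=
    ((hElim.sub (hA'lim.div_const _)).sub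
      ((hBlim.add (tendsto_const_nhds.add (hIlim.const_mul _))).div_const _)).sub hPlim
  have hposlim : 0 < K - (4 * (Q.card : ℝ) * (K / (k + 1))) / ε ^ 2 -
      ((∑ i ∈ Finset.range i0, K * ∑ p ∈ W i, a i p ^ 2) + (K * (κ ^ 2 / 16) +
        4 * K ^ 2 * Real.exp (Lam k Q) * 0)) / κ ^ 2 - 0 := by
    have h1 : (4 * (Q.card : ℝ) * (K / (k + 1))) / ε ^ 2 ≤ K / 8 := by
      rw [div_le_iff₀ (by positivity)]
      linarith
    have h2 : ((∑ i ∈ Finset.range i0, K * ∑ p ∈ W i, a i p ^ 2) + (K * (κ ^ 2 / 16) +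
        4 * K ^ 2 * Real.exp (Lam k Q) * 0)) / κ ^ 2 ≤ K / 4 + K / 16 := by
      rw [div_le_iff₀ (by positivity)]
      linarith
    linarith
  filter_upwards [hcomb.eventually (lt_mem_nhds hposlim), eventually_ge_atTop 2] with n hn hn2
  by_contra hno
  push Not at hno
  have hn2' : (2 : ℝ) ≤ n := by exact_mod_cast hn2
  -- the functional
  set F : ℝ → ℝ := fun t => ‖DD θ k Q t‖ ^ 2 -
    (∑ p ∈ Q, ‖DD θ k Q t‖ ^ 2 * ‖pw p t - θ p‖ ^ 2) / ε ^ 2 -
    (∑ i ∈ Finset.range (I n), ‖DD θ k Q t * SW (a i) (W i) t‖ ^ 2) / κ ^ 2 with hF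
  set G : Set ℝ := {t | (n : ℝ) ^ 2 / 2 ≤ |t - (n : ℝ) ^ 2|} with hG
  have hGm : MeasurableSet G := by
    apply measurableSet_le measurable_const
    fun_prop
  have hFle : ∀ t, F t ≤ G.indicator (fun _ => K ^ 2) t := by
    intro t
    have hs1 : ∀ p ∈ Q, 0 ≤ ‖DD θ k Q t‖ ^ 2 * ‖pw p t - θ p‖ ^ 2 := fun p _ => by positivity
    have hs2 : ∀ i ∈ Finset.range (I n), 0 ≤ ‖DD θ k Q t * SW (a i) (W i) t‖ ^ 2 :=
      fun i _ => by positivity
    have hS1 := Finset.sum_nonneg hs1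
    have hS2 := Finset.sum_nonneg hs2
    have hS1' : 0 ≤ (∑ p ∈ Q, ‖DD θ k Q t‖ ^ 2 * ‖pw p t - θ p‖ ^ 2) / ε ^ 2 := by positivity
    have hS2' : 0 ≤ (∑ i ∈ Finset.range (I n), ‖DD θ k Q t * SW (a i) (W i) t‖ ^ 2) / κ ^ 2 := by
      positivity
    by_cases ht : t ∈ G
    · rw [Set.indicator_of_mem ht]
      have h1 := hbddD Q hθ t
      rw [Real.norm_eq_abs, abs_of_nonneg (by positivity)] at h1
      simp only [hF]
      linarith
    · rw [Set.indicator_of_notMem ht]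
      simp only [hG, Set.mem_ofPred_eq, not_le] at ht
      rw [abs_lt] at ht
      by_cases hall : ∀ p ∈ Q, ‖pw p t - θ p‖ < ε
      · obtain ⟨i, hi, hiκ⟩ := hno t (by linarith) (by linarith) hall
        have h1 : ‖DD θ k Q t‖ ^ 2 * κ ^ 2 ≤ ‖DD θ k Q t * SW (a i) (W i) t‖ ^ 2 := by
          rw [norm_mul, mul_pow]
          gcongr
        have h2 : ‖DD θ k Q t * SW (a i) (W i) t‖ ^ 2 ≤
            ∑ i ∈ Finset.range (I n), ‖DD θ k Q t * SW (a i) (W i) t‖ ^ 2 :=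
          Finset.single_le_sum hs2 (Finset.mem_range.mpr hi)
        have h3 : ‖DD θ k Q t‖ ^ 2 ≤
            (∑ i ∈ Finset.range (I n), ‖DD θ k Q t * SW (a i) (W i) t‖ ^ 2) / κ ^ 2 := by
          rw [le_div_iff₀ (by positivity)]
          linarith
        simp only [hF]
        linarith
      · push Not at hall
        obtain ⟨p, hp, hpε⟩ := hall
        have h1 : ‖DD θ k Q t‖ ^ 2 * ε ^ 2 ≤ ‖DD θ k Q t‖ ^ 2 * ‖pw p t - θ p‖ ^ 2 := by
          gcongr
        have h2 : ‖DD θ k Q t‖ ^ 2 * ‖pw p t - θ p‖ ^ 2 ≤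
            ∑ p ∈ Q, ‖DD θ k Q t‖ ^ 2 * ‖pw p t - θ p‖ ^ 2 :=
          Finset.single_le_sum hs1 hp
        have h3 : ‖DD θ k Q t‖ ^ 2 ≤
            (∑ p ∈ Q, ‖DD θ k Q t‖ ^ 2 * ‖pw p t - θ p‖ ^ 2) / ε ^ 2 := by
          rw [le_div_iff₀ (by positivity)]
          linarith
        simp only [hF]
        linarith
  -- integrability
  have hintS : ∀ i ∈ Finset.range (I n),
      Integrable (fun t => ‖DD θ k Q t * SW (a i) (W i) t‖ ^ 2) (gT n) := by
    intro i _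
    refine integrable_of_cont_bdd (C := (K * ∑ p ∈ W i, |a i p|) ^ 2) ?_ ?_
    · have := continuous_DD θ k Q
      have := continuous_SW (a i) (W i)
      fun_prop
    · intro t
      rw [Real.norm_eq_abs, abs_of_nonneg (by positivity), norm_mul]
      have h1 := norm_DD_le hθ k t
      have h2 := norm_SW_le (a i) (W i) t
      gcongr
  have hintD : Integrable (fun t => ‖DD θ k Q t‖ ^ 2) (gT n) :=
    integrable_of_cont_bdd (hcontD Q) (hbddD Q hθ)
  have hintSA : Integrable (fun t => (∑ p ∈ Q, ‖DD θ k Q t‖ ^ 2 * ‖pw p t - θ p‖ ^ 2) / ε ^ 2)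
      (gT n) := (integrable_finsetSum Q (hintA n)).div_const _
  have hintSM : Integrable (fun t => (∑ i ∈ Finset.range (I n),
      ‖DD θ k Q t * SW (a i) (W i) t‖ ^ 2) / κ ^ 2) (gT n) :=
    (integrable_finsetSum _ hintS).div_const _
  have hintDA : Integrable (fun t => ‖DD θ k Q t‖ ^ 2 -
      (∑ p ∈ Q, ‖DD θ k Q t‖ ^ 2 * ‖pw p t - θ p‖ ^ 2) / ε ^ 2) (gT n) := hintD.sub hintSA
  have hFint : ∫ t, F t ∂(gT n) = E n - A n / ε ^ 2 -
      (∑ i ∈ Finset.range (I n), M n i) / κ ^ 2 := by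
    simp only [hF]
    rw [integral_sub hintDA hintSM, integral_sub hintD hintSA, integral_div,
      integral_div, integral_finsetSum _ (hintA n), integral_finsetSum _ hintS]
  have hFintegrable : Integrable F (gT n) := hintDA.sub hintSM
  have hind : Integrable (G.indicator (fun _ => K ^ 2)) (gT n) :=
    (integrable_const _).indicator hGm
  have h1 : ∫ t, F t ∂(gT n) ≤ K ^ 2 * (4 / (n : ℝ) ^ 2) := by
    calc ∫ t, F t ∂(gT n) ≤ ∫ t, G.indicator (fun _ => K ^ 2) t ∂(gT n) :=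
          integral_mono hFintegrable hind hFle
      _ = (gT n).real G * K ^ 2 := by
          rw [integral_indicator hGm, setIntegral_const, smul_eq_mul]
      _ ≤ (4 / (n : ℝ) ^ 2) * K ^ 2 := by
          gcongr
          exact gT_compl n (by linarith)
      _ = K ^ 2 * (4 / (n : ℝ) ^ 2) := by ring
  -- splitting the sum over the windows
  have h2 : ∑ i ∈ Finset.range (I n), M n i ≤ ∑ i ∈ Finset.range i0, M n i +
      ∑ i ∈ Finset.Ico i0 (I n), M n i := by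
    rcases le_total i0 (I n) with h | h
    · rw [Finset.sum_range_add_sum_Ico _ h]
    · rw [Finset.Ico_eq_empty (by omega), Finset.sum_empty, add_zero]
      exact Finset.sum_le_sum_of_subset_of_nonneg (Finset.range_subset_range.mpr h)
        (fun i _ _ => hM0 n i)
  have h3 := hC n hn2 (I n)
  have h4 := hAA' n
  rw [hFint] at h1
  have h5 : A n / ε ^ 2 ≤ A' n / ε ^ 2 := by gcongr
  have h6 : (∑ i ∈ Finset.range (I n), M n i) / κ ^ 2 ≤
      (∑ i ∈ Finset.range i0, M n i + (K * (κ ^ 2 / 16) +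
        4 * K ^ 2 * Real.exp (Lam k Q) * ((I n : ℝ) / ((n : ℝ) - 1)))) / κ ^ 2 := by
    gcongr
    linarith
  linarith

end Pool.Agent.MP_018e62_nt
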