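import Pool.Agent.MP_018e62_nt.Local

/-!
The windows of primes produce balls.
-/

set_option autoImplicit false

namespace Pool.Agent.MP_018e62_nt

open Finset Filter Topology

lemma re_sq_eq (z : ℂ) : z.re ^ 2 = (‖z‖ ^ 2 + (z ^ 2).re) / 2 := by
  rw [← Complex.normSq_eq_norm_sq, Complex.normSq_apply, pow_two z, Complex.mul_re]
  ring

lemma pw_sq (p : ℕ) (t : ℝ) :
    pw p t ^ 2 = Complex.exp (((2 * Real.log p : ℝ) : ℂ) * t * Complex.I) := by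
  unfold pw
  rw [← Complex.exp_nat_mul]
  congr 1
  push_cast
  ring

lemma SW_eq (a : ℕ → ℝ) (W : Finset ℕ) (t : ℝ) : SW a W t = ∑ p ∈ W, (a p : ℂ) * pw p t ^ 2 := by
  unfold SW
  apply Finset.sum_congr rfl
  intro p _
  rw [pw_sq]

lemma wt_mul_le {r δ : ℝ} (hr : 1 < r) (hδ : 0 < δ) {p y' : ℕ} (hp : 1 ≤ p) (hpy : p < y') :
    (y' : ℝ) ^ (-(r - 1)) * wt δ p ≤ (p : ℝ) ^ (-r) := by
  have hp0 : (0 : ℝ) < p := by exact_mod_cast hp
  have e : (p : ℝ) ^ (-r) = (p : ℝ) ^ (-(r - 1)) * (1 / (p : ℝ)) := by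
    rw [one_div, ← Real.rpow_neg_one, ← Real.rpow_add hp0]
    congr 1
    ring
  rw [e]
  apply mul_le_mul _ (wt_le_inv hδ hp) (wt_nonneg hδ hp) (by positivity)
  apply Real.rpow_le_rpow_of_nonpos hp0 (by exact_mod_cast hpy.le) (by linarith)

lemma zonotope_window {r t δ : ℝ} {y y' : ℕ} (hr : 1 < r) (hδ : 0 < δ) (hy : 1 ≤ y)
    (hmass : 0.55 ≤ ∑ p ∈ (Ico y y').filter Nat.Prime, wt δ p)
    (hSW : ‖SW (wt δ) ((Ico y y').filter Nat.Prime) t‖ ≤ 0.3)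
    (hsmall : 5 / (y : ℝ) ≤ 0.075 * (y' : ℝ) ^ (-(r - 1))) (u : ℂ) :
    ‖u‖ * (0.05 * (y' : ℝ) ^ (-(r - 1))) ≤
      ∑ k ∈ Ico y y', |((starRingEnd ℂ) u * ell r t k 1).re| := by
  rcases eq_or_ne u 0 with hu | hu
  · rw [hu, norm_zero, zero_mul]
    exact Finset.sum_nonneg fun k _ => abs_nonneg _
  have hu0 : 0 < ‖u‖ := norm_pos_iff.mpr hu
  set W := (Ico y y').filter Nat.Prime with hWdef
  set Y : ℝ := (y' : ℝ) ^ (-(r - 1)) with hY
  have hY0 : 0 ≤ Y := by positivity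
  -- lower bound for the main term
  have h1 : 0.125 * Y * ‖u‖ ≤ ∑ p ∈ W, |((starRingEnd ℂ) u * vv r t p).re| := by
    have h2 : ∀ p ∈ W, Y * (wt δ p * ((‖u‖ ^ 2 + ((starRingEnd ℂ) u ^ 2 * pw p t ^ 2).re) / 2)) ≤
        ‖u‖ * |((starRingEnd ℂ) u * vv r t p).re| := by
      intro p hp
      rw [hWdef, Finset.mem_filter, Finset.mem_Ico] at hp
      have e1 : ((starRingEnd ℂ) u * vv r t p).re =
          (p : ℝ) ^ (-r) * ((starRingEnd ℂ) u * pw p t).re := by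
        unfold vv
        rw [show (starRingEnd ℂ) u * ((((p : ℝ) ^ (-r) : ℝ) : ℂ) * pw p t) =
          (((p : ℝ) ^ (-r) : ℝ) : ℂ) * ((starRingEnd ℂ) u * pw p t) by ring,
          Complex.re_ofReal_mul]
      have e2 : ‖(starRingEnd ℂ) u * pw p t‖ = ‖u‖ := by
        rw [norm_mul, norm_pw, mul_one, RCLike.norm_conj]
      have e3 : ((starRingEnd ℂ) u * pw p t).re ^ 2 =
          (‖u‖ ^ 2 + ((starRingEnd ℂ) u ^ 2 * pw p t ^ 2).re) / 2 := by
        rw [re_sq_eq, e2, mul_pow]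
      rw [← e3, e1, abs_mul, abs_of_nonneg (show (0 : ℝ) ≤ (p : ℝ) ^ (-r) by positivity)]
      have h3 : ((starRingEnd ℂ) u * pw p t).re ^ 2 ≤
          ‖u‖ * |((starRingEnd ℂ) u * pw p t).re| := by
        have h4 := Complex.abs_re_le_norm ((starRingEnd ℂ) u * pw p t)
        rw [e2] at h4
        rw [← sq_abs, pow_two]
        exact mul_le_mul_of_nonneg_right h4 (abs_nonneg _)
      have h5 := wt_mul_le hr hδ hp.2.one_lt.le hp.1.2
      calc Y * (wt δ p * ((starRingEnd ℂ) u * pw p t).re ^ 2)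
          = (Y * wt δ p) * ((starRingEnd ℂ) u * pw p t).re ^ 2 := by ring
        _ ≤ (p : ℝ) ^ (-r) * (‖u‖ * |((starRingEnd ℂ) u * pw p t).re|) :=
            mul_le_mul h5 h3 (sq_nonneg _) (by positivity)
        _ = ‖u‖ * ((p : ℝ) ^ (-r) * |((starRingEnd ℂ) u * pw p t).re|) := by ring
    have h3 := Finset.sum_le_sum h2
    rw [← Finset.mul_sum, ← Finset.mul_sum] at h3
    have h4 : ∑ p ∈ W, wt δ p * ((‖u‖ ^ 2 + ((starRingEnd ℂ) u ^ 2 * pw p t ^ 2).re) / 2) =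
        (‖u‖ ^ 2 * ∑ p ∈ W, wt δ p + ((starRingEnd ℂ) u ^ 2 * SW (wt δ) W t).re) / 2 := by
      rw [SW_eq, Finset.mul_sum, Finset.mul_sum, Complex.re_sum, ← Finset.sum_add_distrib,
        Finset.sum_div]
      apply Finset.sum_congr rfl
      intro p _
      have : ((starRingEnd ℂ) u ^ 2 * ((wt δ p : ℂ) * pw p t ^ 2)).re =
          wt δ p * ((starRingEnd ℂ) u ^ 2 * pw p t ^ 2).re := by
        rw [show (starRingEnd ℂ) u ^ 2 * ((wt δ p : ℂ) * pw p t ^ 2) =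
          (wt δ p : ℂ) * ((starRingEnd ℂ) u ^ 2 * pw p t ^ 2) by ring, Complex.re_ofReal_mul]
      rw [this]
      ring
    have h5 : -(‖u‖ ^ 2 * 0.3) ≤ ((starRingEnd ℂ) u ^ 2 * SW (wt δ) W t).re := by
      have h6 := Complex.abs_re_le_norm ((starRingEnd ℂ) u ^ 2 * SW (wt δ) W t)
      rw [norm_mul, norm_pow, RCLike.norm_conj] at h6
      have h7 : ‖u‖ ^ 2 * ‖SW (wt δ) W t‖ ≤ ‖u‖ ^ 2 * 0.3 :=
        mul_le_mul_of_nonneg_left hSW (by positivity)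
      exact (abs_le.mp (h6.trans h7)).1
    rw [h4] at h3
    have h6 : ‖u‖ ^ 2 * 0.55 ≤ ‖u‖ ^ 2 * ∑ p ∈ W, wt δ p :=
      mul_le_mul_of_nonneg_left hmass (by positivity)
    have h7 : Y * (‖u‖ ^ 2 * 0.125) ≤ Y * ((‖u‖ ^ 2 * ∑ p ∈ W, wt δ p +
        ((starRingEnd ℂ) u ^ 2 * SW (wt δ) W t).re) / 2) := by
      apply mul_le_mul_of_nonneg_left _ hY0
      norm_num at h5 h6 ⊢
      linarith
    have h8 := h7.trans h3
    have h9 : ‖u‖ * (0.125 * Y * ‖u‖) ≤ ‖u‖ * ∑ p ∈ W, |((starRingEnd ℂ) u * vv r t p).re| := by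
      refine le_trans (le_of_eq ?_) h8
      ring
    exact le_of_mul_le_mul_left h9 hu0
  -- the error term
  have h2 : ∑ p ∈ W, ‖ell r t p 1 - vv r t p‖ ≤ 5 / y := by
    calc ∑ p ∈ W, ‖ell r t p 1 - vv r t p‖ ≤ ∑ p ∈ W, 5 / 2 * (1 / (p : ℝ) ^ 2) := by
          apply Finset.sum_le_sum
          intro p hp
          rw [hWdef, Finset.mem_filter] at hp
          exact norm_ell_sub_le t hr.le hp.2 le_rfl
      _ = 5 / 2 * ∑ p ∈ W, (1 / (p : ℝ) ^ 2) := by rw [Finset.mul_sum]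
      _ ≤ 5 / 2 * ∑ p ∈ Ico y y', (1 / (p : ℝ) ^ 2) := by
          apply mul_le_mul_of_nonneg_left _ (by norm_num)
          apply Finset.sum_le_sum_of_subset_of_nonneg (Finset.filter_subset _ _)
          intro p _ _
          positivity
      _ ≤ 5 / 2 * (2 / y) := mul_le_mul_of_nonneg_left (sum_inv_sq_le hy y') (by norm_num)
      _ = 5 / y := by ring
  have h3 : ∀ p ∈ W, |((starRingEnd ℂ) u * vv r t p).re| - ‖u‖ * ‖ell r t p 1 - vv r t p‖ ≤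
      |((starRingEnd ℂ) u * ell r t p 1).re| := by
    intro p _
    have h4 := Complex.abs_re_le_norm ((starRingEnd ℂ) u * (ell r t p 1 - vv r t p))
    rw [norm_mul, RCLike.norm_conj, mul_sub, Complex.sub_re] at h4
    have h5 := abs_sub_abs_le_abs_sub ((starRingEnd ℂ) u * vv r t p).re
      ((starRingEnd ℂ) u * ell r t p 1).re
    rw [abs_sub_comm] at h5
    linarith
  have h4 := Finset.sum_le_sum h3
  rw [Finset.sum_sub_distrib, ← Finset.mul_sum] at h4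
  have h5 : ∑ p ∈ W, |((starRingEnd ℂ) u * ell r t p 1).re| ≤
      ∑ k ∈ Ico y y', |((starRingEnd ℂ) u * ell r t k 1).re| :=
    Finset.sum_le_sum_of_subset_of_nonneg (Finset.filter_subset _ _) fun p _ _ => abs_nonneg _
  have h6 : ‖u‖ * ∑ p ∈ W, ‖ell r t p 1 - vv r t p‖ ≤ ‖u‖ * (0.075 * Y) :=
    mul_le_mul_of_nonneg_left (h2.trans hsmall) hu0.le
  have h7 : ‖u‖ * (0.05 * Y) = 0.125 * Y * ‖u‖ - ‖u‖ * (0.075 * Y) := by ring
  rw [h7]
  linarith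

/-- The radii. -/
noncomputable def rho (r : ℝ) (N i : ℕ) : ℝ := 0.05 * (yy N (i + 1) : ℝ) ^ (-(r - 1))

lemma rho_nonneg (r : ℝ) (N i : ℕ) : 0 ≤ rho r N i := by
  unfold rho
  positivity

lemma yy_add (N i j : ℕ) : yy N (i + j) = (yy N i) ^ (GG ^ j) := by
  unfold yy
  rw [← pow_mul, ← pow_add]

lemma yy_mono {N : ℕ} (hN : 1 ≤ N) : Monotone (yy N) := by
  intro i j hij
  unfold yy
  exact Nat.pow_le_pow_right hN (Nat.pow_le_pow_right (by have := two_le_GG; omega) hij)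

lemma yy_rpow_ge {r : ℝ} {N : ℕ} (hN : 1 ≤ N) (i j : ℕ)
    (hj : (GG : ℝ) ^ j * (r - 1) ≤ 1 / 4) :
    (yy N i : ℝ) ^ (-(1 / 4) : ℝ) ≤ (yy N (i + j) : ℝ) ^ (-(r - 1)) := by
  have h1 : 1 ≤ yy N i := by
    have := yy_mono hN (Nat.zero_le i)
    rw [yy_zero] at this
    omega
  have h1' : (1 : ℝ) ≤ yy N i := by exact_mod_cast h1
  rw [yy_add, Nat.cast_pow, ← Real.rpow_natCast_mul (by linarith)]
  apply Real.rpow_le_rpow_of_exponent_le h1'
  push_cast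
  linarith

lemma quarter_bounds {y : ℕ} (hy : 10 ^ 12 ≤ y) :
    0 < (y : ℝ) ^ (-(1 / 4) : ℝ) ∧ (y : ℝ) ^ (-(1 / 4) : ℝ) ≤ 1 / 1000 ∧
      1 / (y : ℝ) = ((y : ℝ) ^ (-(1 / 4) : ℝ)) ^ 4 := by
  have hy' : (10 : ℝ) ^ 12 ≤ y := by exact_mod_cast hy
  have hy0 : (0 : ℝ) < y := by linarith [show (0 : ℝ) < 10 ^ 12 by norm_num]
  have h1 : ((y : ℝ) ^ (-(1 / 4) : ℝ)) ^ 4 = 1 / (y : ℝ) := by
    rw [← Real.rpow_natCast, ← Real.rpow_mul hy0.le]
    have e : (-(1 / 4) : ℝ) * ((4 : ℕ) : ℝ) = -1 := by norm_num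
    rw [e, Real.rpow_neg_one, one_div]
  refine ⟨by positivity, ?_, h1.symm⟩
  by_contra hcon
  push Not at hcon
  have h2 : (1 / 1000 : ℝ) ^ 4 < ((y : ℝ) ^ (-(1 / 4) : ℝ)) ^ 4 :=
    pow_lt_pow_left₀ hcon (by norm_num) (by norm_num)
  rw [h1] at h2
  have h3 : 1 / (y : ℝ) ≤ 1 / 10 ^ 12 := one_div_le_one_div_of_le (by norm_num) hy'
  norm_num at h2 h3
  linarith

/-- Properties needed of the triple `(r, t, N)`. -/
structure Good (r t : ℝ) (N : ℕ) : Prop where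
  hr : 1 < r
  hG : (GG : ℝ) ^ 2 * (r - 1) ≤ 1 / 4
  hN : 10 ^ 12 ≤ N
  mass : ∀ i, 0.55 ≤ ∑ p ∈ Wd N i, wt (dl N i) p
  second : ∀ i, ‖SW (wt (dl N i)) (Wd N i) t‖ ≤ 0.3

section

variable {r t : ℝ} {N : ℕ}

lemma Good.hy (h : Good r t N) (i : ℕ) : 10 ^ 12 ≤ yy N i := by
  have h1 := yy_mono (N := N) (by have := h.hN; omega) (Nat.zero_le i)
  rw [yy_zero] at h1
  exact h.hN.trans h1

lemma Good.q1 (h : Good r t N) (i : ℕ) :
    (yy N i : ℝ) ^ (-(1 / 4) : ℝ) ≤ (yy N (i + 1) : ℝ) ^ (-(r - 1)) := by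
  apply yy_rpow_ge (by have := h.hN; omega) i 1
  have h1 := h.hG
  have h2 := h.hr
  have h3 : (1 : ℝ) ≤ GG := by exact_mod_cast (by have := two_le_GG; omega : 1 ≤ GG)
  calc (GG : ℝ) ^ 1 * (r - 1) ≤ (GG : ℝ) ^ 2 * (r - 1) := by
        apply mul_le_mul_of_nonneg_right _ (by linarith)
        exact pow_le_pow_right₀ h3 (by norm_num)
    _ ≤ 1 / 4 := h1

lemma Good.q2 (h : Good r t N) (i : ℕ) :
    (yy N i : ℝ) ^ (-(1 / 4) : ℝ) ≤ (yy N (i + 2) : ℝ) ^ (-(r - 1)) :=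
  yy_rpow_ge (by have := h.hN; omega) i 2 h.hG

lemma Good.dl_pos (h : Good r t N) (i : ℕ) : 0 < dl N i := by
  have h1 := h.hy i
  have := one_le_log (y := yy N i) (by omega)
  unfold dl
  positivity

lemma Good.inradius (h : Good r t N) (i : ℕ) (u : ℂ) :
    ‖u‖ * rho r N i ≤ ∑ k ∈ Ico (yy N i) (yy N (i + 1)), |((starRingEnd ℂ) u * ell r t k 1).re| := by
  have hy := h.hy i
  obtain ⟨q0, q1, q2⟩ := quarter_bounds hy
  have h1 := h.q1 i
  apply zonotope_window h.hr (h.dl_pos i) (by omega) (h.mass i) (h.second i)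
  set q := (yy N i : ℝ) ^ (-(1 / 4) : ℝ) with hq
  set x := (yy N (i + 1) : ℝ) ^ (-(r - 1)) with hx
  have h2 : 5 / (yy N i : ℝ) = 5 * q ^ 4 := by rw [← q2]; ring
  rw [h2]
  have h3 : q ^ 4 ≤ (1 / 1000) ^ 3 * q := by
    have : q ^ 3 ≤ (1 / 1000) ^ 3 := pow_le_pow_left₀ q0.le q1 3
    calc q ^ 4 = q ^ 3 * q := by ring
      _ ≤ (1 / 1000) ^ 3 * q := mul_le_mul_of_nonneg_right this q0.le
  norm_num at h3 ⊢
  linarith

lemma Good.quad (h : Good r t N) (i : ℕ) :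
    2 * ∑ k ∈ Ico (yy N i) (yy N (i + 1)), ‖ell r t k 1‖ ^ 2 ≤ rho r N (i + 1) ^ 2 := by
  have hy := h.hy i
  obtain ⟨q0, q1, q2⟩ := quarter_bounds hy
  have h1 := h.q2 i
  have h2 : ∑ k ∈ Ico (yy N i) (yy N (i + 1)), ‖ell r t k 1‖ ^ 2 ≤ 9 * (2 / (yy N i : ℝ)) := by
    calc ∑ k ∈ Ico (yy N i) (yy N (i + 1)), ‖ell r t k 1‖ ^ 2
        ≤ ∑ k ∈ Ico (yy N i) (yy N (i + 1)), 9 * (1 / (k : ℝ) ^ 2) := by
          apply Finset.sum_le_sum
          intro k hk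
          rw [Finset.mem_Ico] at hk
          exact norm_ell_sq_le t h.hr.le (by omega) 1
      _ = 9 * ∑ k ∈ Ico (yy N i) (yy N (i + 1)), 1 / (k : ℝ) ^ 2 := by rw [Finset.mul_sum]
      _ ≤ 9 * (2 / (yy N i : ℝ)) :=
          mul_le_mul_of_nonneg_left (sum_inv_sq_le (y := yy N i) (by omega) _) (by norm_num)
  unfold rho
  rw [show i + 1 + 1 = i + 2 by ring]
  set q := (yy N i : ℝ) ^ (-(1 / 4) : ℝ) with hq
  set x := (yy N (i + 2) : ℝ) ^ (-(r - 1)) with hx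
  have h3 : 2 * (9 * (2 / (yy N i : ℝ))) = 36 * q ^ 4 := by rw [← q2]; ring
  have h4 : q ^ 4 ≤ (1 / 1000) ^ 2 * q ^ 2 := by
    have : q ^ 2 ≤ (1 / 1000) ^ 2 := pow_le_pow_left₀ q0.le q1 2
    calc q ^ 4 = q ^ 2 * q ^ 2 := by ring
      _ ≤ (1 / 1000) ^ 2 * q ^ 2 := mul_le_mul_of_nonneg_right this (by positivity)
  have h5 : q ^ 2 ≤ x ^ 2 := pow_le_pow_left₀ q0.le h1 2
  have h6 : 0 ≤ q ^ 2 := by positivity
  calc 2 * ∑ k ∈ Ico (yy N i) (yy N (i + 1)), ‖ell r t k 1‖ ^ 2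
      ≤ 2 * (9 * (2 / (yy N i : ℝ))) := by linarith
    _ = 36 * q ^ 4 := h3
    _ ≤ (0.05 * x) ^ 2 := by
        rw [mul_pow]
        norm_num at h4 ⊢
        linarith

lemma Good.small (h : Good r t N) (i : ℕ) : 3 / (yy N i : ℝ) ≤ rho r N (i + 1) := by
  have hy := h.hy i
  obtain ⟨q0, q1, q2⟩ := quarter_bounds hy
  have h1 := h.q2 i
  unfold rho
  rw [show i + 1 + 1 = i + 2 by ring]
  set q := (yy N i : ℝ) ^ (-(1 / 4) : ℝ) with hq
  set x := (yy N (i + 2) : ℝ) ^ (-(r - 1)) with hx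
  have h2 : 3 / (yy N i : ℝ) = 3 * q ^ 4 := by rw [← q2]; ring
  rw [h2]
  have h3 : q ^ 4 ≤ (1 / 1000) ^ 3 * q := by
    have : q ^ 3 ≤ (1 / 1000) ^ 3 := pow_le_pow_left₀ q0.le q1 3
    calc q ^ 4 = q ^ 3 * q := by ring
      _ ≤ (1 / 1000) ^ 3 * q := mul_le_mul_of_nonneg_right this q0.le
  norm_num at h3 ⊢
  linarith

lemma tendsto_yy {N : ℕ} (hN : 2 ≤ N) : Tendsto (fun i => (yy N i : ℝ)) atTop atTop := by
  apply tendsto_atTop_mono (f := fun i : ℕ => (2 : ℝ) ^ i)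
  · intro i
    have h1 := le_yy hN i
    have h2 : 2 ^ i ≤ yy N i := le_trans (Nat.le_mul_of_pos_left _ (by omega)) h1
    exact_mod_cast h2
  · exact tendsto_pow_atTop_atTop_of_one_lt (by norm_num)

lemma tendsto_rho (hr : 1 < r) (hN : 2 ≤ N) : Tendsto (rho r N) atTop (𝓝 0) := by
  have h1 := (tendsto_rpow_neg_atTop (show 0 < r - 1 by linarith)).comp
    ((tendsto_yy hN).comp (tendsto_add_atTop_nat 1))
  have h2 := h1.const_mul 0.05
  rw [mul_zero] at h2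
  exact h2

/-- A ball is covered by signed sums over the windows. -/
theorem Good.ball (h : Good r t N) (i : ℕ) (z : ℂ) (hz : ‖z‖ ≤ rho r N i) (η : ℝ) (hη : 0 < η) :
    ∃ (M : ℕ) (ε : ℕ → ℝ), yy N i ≤ M ∧ (∀ k, ε k = 1 ∨ ε k = -1) ∧
      ‖z - ∑ k ∈ Ico (yy N i) M, (ε k : ℂ) * ell r t k 1‖ ≤ η := by
  have hmono := yy_mono (N := N) (by have := h.hN; omega)
  have hlim := tendsto_rho h.hr (N := N) (by have := h.hN; omega)
  have h1 : ∀ᶠ j in atTop, rho r N j < η := hlim.eventually_lt_const hη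
  obtain ⟨j₀, hj₀⟩ := eventually_atTop.mp h1
  have h2 := windows (fun j => yy N (i + j)) (fun a b hab => hmono (by omega))
    (fun k => ell r t k 1) (fun j => rho r N (i + j)) (fun j => rho_nonneg r N _)
    (fun j u => by
      have := h.inradius (i + j) u
      exact this)
    (fun j => by
      have := h.quad (i + j)
      exact this) z (by simpa using hz) j₀
  obtain ⟨ε, hε, h3⟩ := h2
  refine ⟨yy N (i + j₀), ε, hmono (by omega), hε, ?_⟩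
  simp only [add_zero] at h3
  exact h3.trans (hj₀ (i + j₀) (by omega)).le

/-- A ball is covered by differences. -/
theorem Good.ball_diff (h : Good r t N) (i : ℕ) (z : ℂ) (hz : ‖z‖ ≤ rho r N i) :
    ∃ p ∈ LL (ell r t) (yy N i), ∃ q ∈ LL (ell r t) (yy N i), z = p - q := by
  apply mem_diff (ell_zero r t) (summable_b h.hr) (fun k a => norm_ell_le t h.hr.le k a)
  intro η hη
  obtain ⟨M, ε, _, hε, h2⟩ := h.ball i z hz η hη
  exact ⟨M, ε, hε, h2⟩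

/-- The local terms in the windows are covered. -/
theorem Good.cover_large (h : Good r t N) (k : ℕ) (hk : N ≤ k) (a : ℕ) :
    ∃ p ∈ LL (ell r t) (k + 1), ∃ q ∈ LL (ell r t) (k + 1), ell r t k a = p - q := by
  have hmono := yy_mono (N := N) (by have := h.hN; omega)
  -- find the window
  have hex : ∃ j, k < yy N j := by
    have h1 := tendsto_yy (N := N) (by have := h.hN; omega)
    obtain ⟨j, hj⟩ := (h1.eventually_gt_atTop (k : ℝ)).exists
    exact ⟨j, by exact_mod_cast hj⟩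
  classical
  set j := Nat.find hex with hj
  have hj1 : k < yy N j := Nat.find_spec hex
  have hj0 : j ≠ 0 := by
    intro h0
    rw [h0, yy_zero] at hj1
    omega
  obtain ⟨i, hi⟩ := Nat.exists_eq_succ_of_ne_zero hj0
  have hi1 : yy N i ≤ k := by
    have := Nat.find_min hex (m := i) (by omega)
    omega
  have hy := h.hy i
  have h1 : ‖ell r t k a‖ ≤ rho r N j := by
    rw [hi]
    refine le_trans ?_ (h.small i)
    refine (norm_ell_le' t h.hr.le (by omega) a).trans ?_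
    apply div_le_div_of_nonneg_left (by norm_num)
    · exact_mod_cast (by omega : 0 < yy N i)
    · exact_mod_cast hi1
  obtain ⟨p, hp, q, hq, e⟩ := h.ball_diff j _ h1
  have hsub := LL_subset (ell_zero r t) (show k + 1 ≤ yy N j by omega)
  exact ⟨p, hsub hp, q, hsub hq, e⟩

end

end Pool.Agent.MP_018e62_nt
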