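import Mathlib

/-!
A rounding lemma for signed sums of plane vectors and its iteration.
-/

set_option autoImplicit false

namespace Pool.Agent.MP_018e62_nt

open Finset

lemma re_conj_mul_self (e : ℂ) : ((starRingEnd ℂ) e * e).re = ‖e‖ ^ 2 := by
  rw [← Complex.normSq_eq_norm_sq, Complex.normSq_apply]
  simp

lemma norm_add_sq_aux (e w : ℂ) :
    ‖e + w‖ ^ 2 = ‖e‖ ^ 2 + 2 * ((starRingEnd ℂ) e * w).re + ‖w‖ ^ 2 := by
  simp only [← Complex.normSq_eq_norm_sq, Complex.normSq_apply]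
  simp
  ring

/-- If `z` satisfies the support inequalities of the zonotope of the vectors `w i`, some signed
sum of the `w i` is close to `z`. -/
theorem rounding {ι : Type*} [DecidableEq ι] (W : Finset ι) (w : ι → ℂ) (z : ℂ)
    (h : ∀ u : ℂ, ((starRingEnd ℂ) u * z).re ≤ ∑ i ∈ W, |((starRingEnd ℂ) u * w i).re|) :
    ∃ ε : ι → ℝ, (∀ i, ε i = 1 ∨ ε i = -1) ∧
      ‖z - ∑ i ∈ W, (ε i : ℂ) * w i‖ ^ 2 ≤ 2 * ∑ i ∈ W, ‖w i‖ ^ 2 := by
  classical
  set sg : Finset ι → ι → ℝ := fun S i => if i ∈ S then 1 else -1 with hsg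
  set F : Finset ι → ℂ := fun S => z - ∑ i ∈ W, (sg S i : ℂ) * w i with hF
  obtain ⟨S, hS, hmin⟩ := Finset.exists_min_image W.powerset (fun S => ‖F S‖)
    ⟨∅, Finset.empty_mem_powerset W⟩
  have hsgS : ∀ i, sg S i = 1 ∨ sg S i = -1 := by
    intro i
    simp only [hsg]
    split_ifs
    · exact Or.inl rfl
    · exact Or.inr rfl
  refine ⟨sg S, hsgS, ?_⟩
  set e := F S with he
  -- local optimality
  have hloc : ∀ i ∈ W, -‖w i‖ ^ 2 ≤ sg S i * ((starRingEnd ℂ) e * w i).re := by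
    intro i hi
    -- flip the sign of `i`
    set S' : Finset ι := if i ∈ S then S.erase i else insert i S with hS'
    have hS'mem : S' ∈ W.powerset := by
      rw [Finset.mem_powerset] at hS ⊢
      simp only [hS']
      split_ifs
      · exact (Finset.erase_subset _ _).trans hS
      · exact Finset.insert_subset hi hS
    have hne : ∀ j, j ≠ i → sg S' j = sg S j := by
      intro j hj
      simp only [hsg, hS']
      split_ifs <;> simp_all
    have hii : sg S' i = - sg S i := by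
      simp only [hsg, hS']
      split_ifs <;> simp_all
    have hFS' : F S' = e + ((2 * sg S i : ℝ) : ℂ) * w i := by
      have h1 : ∑ j ∈ W, (sg S' j : ℂ) * w j =
          ∑ j ∈ W, (sg S j : ℂ) * w j - ((2 * sg S i : ℝ) : ℂ) * w i := by
        rw [← Finset.add_sum_erase W _ hi, ← Finset.add_sum_erase W (fun j => (sg S j : ℂ) * w j) hi,
          hii]
        have h2 : ∑ x ∈ W.erase i, (sg S' x : ℂ) * w x = ∑ x ∈ W.erase i, (sg S x : ℂ) * w x := by
          apply Finset.sum_congr rfl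
          intro j hj
          rw [hne j (Finset.ne_of_mem_erase hj)]
        rw [h2]
        push_cast
        ring
      simp only [he, hF]
      rw [h1]
      ring
    have h1 := hmin S' hS'mem
    have h2 : ‖e‖ ^ 2 ≤ ‖F S'‖ ^ 2 := pow_le_pow_left₀ (norm_nonneg _) h1 2
    rw [hFS', norm_add_sq_aux] at h2
    have h3 : ((starRingEnd ℂ) e * (((2 * sg S i : ℝ) : ℂ) * w i)).re =
        2 * sg S i * ((starRingEnd ℂ) e * w i).re := by
      have : (starRingEnd ℂ) e * (((2 * sg S i : ℝ) : ℂ) * w i) =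
          ((2 * sg S i : ℝ) : ℂ) * ((starRingEnd ℂ) e * w i) := by ring
      rw [this, Complex.re_ofReal_mul]
    have h4 : ‖((2 * sg S i : ℝ) : ℂ) * w i‖ ^ 2 = 4 * ‖w i‖ ^ 2 := by
      rw [norm_mul, Complex.norm_real, Real.norm_eq_abs, mul_pow, sq_abs]
      rcases hsgS i with h | h <;> rw [h] <;> ring
    rw [h3, h4] at h2
    linarith
  -- conclusion
  have h1 : ‖e‖ ^ 2 = ((starRingEnd ℂ) e * z).re -
      ∑ i ∈ W, sg S i * ((starRingEnd ℂ) e * w i).re := by
    rw [← re_conj_mul_self]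
    have h2 : (starRingEnd ℂ) e * e = (starRingEnd ℂ) e * z -
        ∑ i ∈ W, (sg S i : ℂ) * ((starRingEnd ℂ) e * w i) := by
      have h3 : (starRingEnd ℂ) e * e = (starRingEnd ℂ) e * (z - ∑ i ∈ W, (sg S i : ℂ) * w i) := rfl
      rw [h3, mul_sub, Finset.mul_sum]
      congr 1
      apply Finset.sum_congr rfl
      intro i _
      ring
    rw [h2, Complex.sub_re, Complex.re_sum]
    congr 1
    apply Finset.sum_congr rfl
    intro i _
    rw [Complex.re_ofReal_mul]
  rw [h1]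
  have h2 := h e
  calc ((starRingEnd ℂ) e * z).re - ∑ i ∈ W, sg S i * ((starRingEnd ℂ) e * w i).re
      ≤ ∑ i ∈ W, |((starRingEnd ℂ) e * w i).re| -
          ∑ i ∈ W, sg S i * ((starRingEnd ℂ) e * w i).re := by linarith
    _ = ∑ i ∈ W, (|((starRingEnd ℂ) e * w i).re| - sg S i * ((starRingEnd ℂ) e * w i).re) := by
        rw [Finset.sum_sub_distrib]
    _ ≤ ∑ i ∈ W, 2 * ‖w i‖ ^ 2 := by
        apply Finset.sum_le_sum
        intro i hi
        have h3 := hloc i hi
        have h4 : 0 ≤ ‖w i‖ ^ 2 := by positivity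
        rcases hsgS i with h | h
        · rw [h] at h3 ⊢
          rcases abs_cases (((starRingEnd ℂ) e * w i).re) with ⟨h5, _⟩ | ⟨h5, _⟩ <;> rw [h5] <;>
            linarith
        · rw [h] at h3 ⊢
          rcases abs_cases (((starRingEnd ℂ) e * w i).re) with ⟨h5, _⟩ | ⟨h5, _⟩ <;> rw [h5] <;>
            linarith
    _ = 2 * ∑ i ∈ W, ‖w i‖ ^ 2 := by rw [Finset.mul_sum]

/-- Iteration of the rounding lemma over consecutive windows. -/
theorem windows (y : ℕ → ℕ) (hy : Monotone y) (w : ℕ → ℂ) (ρ : ℕ → ℝ)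
    (hρ : ∀ i, 0 ≤ ρ i)
    (h1 : ∀ i, ∀ u : ℂ, ‖u‖ * ρ i ≤ ∑ k ∈ Ico (y i) (y (i + 1)), |((starRingEnd ℂ) u * w k).re|)
    (h2 : ∀ i, 2 * ∑ k ∈ Ico (y i) (y (i + 1)), ‖w k‖ ^ 2 ≤ ρ (i + 1) ^ 2)
    (z : ℂ) (hz : ‖z‖ ≤ ρ 0) (i : ℕ) :
    ∃ ε : ℕ → ℝ, (∀ k, ε k = 1 ∨ ε k = -1) ∧
      ‖z - ∑ k ∈ Ico (y 0) (y i), (ε k : ℂ) * w k‖ ≤ ρ i := by
  induction i with
  | zero => exact ⟨fun _ => 1, fun _ => Or.inl rfl, by simpa using hz⟩
  | succ i ih =>
    obtain ⟨ε, hε, hb⟩ := ih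
    set e := z - ∑ k ∈ Ico (y 0) (y i), (ε k : ℂ) * w k with he
    obtain ⟨ε', hε', hb'⟩ := rounding (Ico (y i) (y (i + 1))) w e (by
      intro u
      refine le_trans ?_ (h1 i u)
      calc ((starRingEnd ℂ) u * e).re ≤ ‖(starRingEnd ℂ) u * e‖ := Complex.re_le_norm _
        _ = ‖u‖ * ‖e‖ := by rw [norm_mul, RCLike.norm_conj]
        _ ≤ ‖u‖ * ρ i := by gcongr)
    refine ⟨fun k => if k < y i then ε k else ε' k, ?_, ?_⟩
    · intro k
      simp only
      split_ifs
      · exact hε k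
      · exact hε' k
    · have hsplit : ∑ k ∈ Ico (y 0) (y (i + 1)), (((if k < y i then ε k else ε' k : ℝ)) : ℂ) * w k =
          ∑ k ∈ Ico (y 0) (y i), (ε k : ℂ) * w k +
            ∑ k ∈ Ico (y i) (y (i + 1)), (ε' k : ℂ) * w k := by
        rw [← Finset.sum_Ico_consecutive _ (hy (Nat.zero_le i)) (hy (Nat.le_succ i))]
        congr 1
        · apply Finset.sum_congr rfl
          intro k hk
          rw [mem_Ico] at hk
          rw [if_pos hk.2]
        · apply Finset.sum_congr rfl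
          intro k hk
          rw [mem_Ico] at hk
          rw [if_neg (by omega)]
      rw [hsplit, ← sub_sub]
      have h3 : ‖e - ∑ k ∈ Ico (y i) (y (i + 1)), (ε' k : ℂ) * w k‖ ^ 2 ≤ ρ (i + 1) ^ 2 :=
        hb'.trans (h2 i)
      exact le_of_pow_le_pow_left₀ (by norm_num) (hρ _) h3

end Pool.Agent.MP_018e62_nt
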