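import Mathlib

/-!
Closures of sets of sums `∑ ℓ k (a k)`: a criterion for connectedness.
-/

set_option autoImplicit false

namespace Pool.Agent.MP_018e62_nt

open Finset Filter Topology

/-- The finite sums `∑_{K ≤ k < N} ℓ k (a k)`. -/
def SS (ℓ : ℕ → ℕ → ℂ) (K : ℕ) : Set ℂ :=
  {x | ∃ (N : ℕ) (a : ℕ → ℕ), x = ∑ k ∈ Ico K N, ℓ k (a k)}

/-- The closure of the set of finite sums. -/
def LL (ℓ : ℕ → ℕ → ℂ) (K : ℕ) : Set ℂ := closure (SS ℓ K)

section

variable {ℓ : ℕ → ℕ → ℂ} {b : ℕ → ℝ}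

lemma zero_mem_SS (K : ℕ) : (0 : ℂ) ∈ SS ℓ K := ⟨K, fun _ => 0, by simp⟩

lemma SS_succ_iff (h0 : ∀ k, ℓ k 0 = 0) (K : ℕ) (x : ℂ) :
    x ∈ SS ℓ K ↔ ∃ a : ℕ, ∃ y ∈ SS ℓ (K + 1), x = ℓ K a + y := by
  constructor
  · rintro ⟨N, a, rfl⟩
    by_cases hN : K < N
    · refine ⟨a K, ∑ k ∈ Ico (K + 1) N, ℓ k (a k), ⟨N, a, rfl⟩, ?_⟩
      rw [Finset.sum_eq_sum_Ico_succ_bot hN]
    · refine ⟨0, 0, zero_mem_SS _, ?_⟩
      rw [Ico_eq_empty (by omega), h0]
      simp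
  · rintro ⟨a, y, ⟨N, c, rfl⟩, rfl⟩
    refine ⟨max N (K + 1), fun k => if k = K then a else if k < N then c k else 0, ?_⟩
    rw [Finset.sum_eq_sum_Ico_succ_bot (by omega : K < max N (K + 1))]
    simp only [if_true]
    congr 1
    have hsub : Ico (K + 1) N ⊆ Ico (K + 1) (max N (K + 1)) :=
      Ico_subset_Ico le_rfl (le_max_left _ _)
    rw [← Finset.sum_subset hsub]
    · apply Finset.sum_congr rfl
      intro k hk
      rw [mem_Ico] at hk
      rw [if_neg (by omega), if_pos hk.2]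
    · intro k hk hk'
      rw [mem_Ico] at hk hk'
      rw [if_neg (by omega), if_neg (by omega), h0]

lemma SS_subset (h0 : ∀ k, ℓ k 0 = 0) {K K' : ℕ} (h : K ≤ K') : SS ℓ K' ⊆ SS ℓ K := by
  induction K', h using Nat.le_induction with
  | base => exact subset_rfl
  | succ n hn ih =>
    refine Set.Subset.trans ?_ ih
    intro x hx
    rw [SS_succ_iff h0]
    exact ⟨0, x, hx, by rw [h0, zero_add]⟩

lemma LL_subset (h0 : ∀ k, ℓ k 0 = 0) {K K' : ℕ} (h : K ≤ K') : LL ℓ K' ⊆ LL ℓ K :=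
  closure_mono (SS_subset h0 h)

/-- The tail bound. -/
noncomputable def BB (b : ℕ → ℝ) (K : ℕ) : ℝ := ∑' k, b (k + K)

lemma norm_le_BB (hb : Summable b) (hl : ∀ k a, ‖ℓ k a‖ ≤ b k) {K : ℕ} {x : ℂ}
    (hx : x ∈ SS ℓ K) : ‖x‖ ≤ BB b K := by
  have hb0 : ∀ k, 0 ≤ b k := fun k => (norm_nonneg _).trans (hl k 0)
  obtain ⟨N, a, rfl⟩ := hx
  calc ‖∑ k ∈ Ico K N, ℓ k (a k)‖ ≤ ∑ k ∈ Ico K N, b k := by
        refine (norm_sum_le _ _).trans (Finset.sum_le_sum fun k _ => hl k (a k))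
    _ = ∑ k ∈ Finset.range (N - K), b (K + k) := by rw [Finset.sum_Ico_eq_sum_range]
    _ = ∑ k ∈ Finset.range (N - K), b (k + K) := by
        apply Finset.sum_congr rfl
        intro k _
        rw [add_comm]
    _ ≤ BB b K := by
        unfold BB
        exact ((summable_nat_add_iff K).mpr hb).sum_le_tsum _ (fun k _ => hb0 _)

lemma norm_le_BB' (hb : Summable b) (hl : ∀ k a, ‖ℓ k a‖ ≤ b k) {K : ℕ} {x : ℂ}
    (hx : x ∈ LL ℓ K) : ‖x‖ ≤ BB b K := by
  have : LL ℓ K ⊆ Metric.closedBall 0 (BB b K) := by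
    apply closure_minimal _ Metric.isClosed_closedBall
    intro y hy
    rw [mem_closedBall_zero_iff]
    exact norm_le_BB hb hl hy
  exact mem_closedBall_zero_iff.mp (this hx)

lemma tendsto_BB (b : ℕ → ℝ) : Tendsto (BB b) atTop (𝓝 0) :=
  tendsto_sum_nat_add b

lemma isCompact_LL (hb : Summable b) (hl : ∀ k a, ‖ℓ k a‖ ≤ b k) (K : ℕ) :
    IsCompact (LL ℓ K) := by
  apply Metric.isCompact_of_isClosed_isBounded isClosed_closure
  rw [Metric.isBounded_iff_subset_closedBall 0]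
  exact ⟨BB b K, fun y hy => mem_closedBall_zero_iff.mpr (norm_le_BB' hb hl hy)⟩

lemma add_mem_LL (h0 : ∀ k, ℓ k 0 = 0) {K : ℕ} (a : ℕ) {y : ℂ} (hy : y ∈ LL ℓ (K + 1)) :
    ℓ K a + y ∈ LL ℓ K := by
  have h1 : Continuous (fun y : ℂ => ℓ K a + y) := by fun_prop
  have h2 : Set.MapsTo (fun y : ℂ => ℓ K a + y) (SS ℓ (K + 1)) (SS ℓ K) := by
    intro y hy
    rw [SS_succ_iff h0]
    exact ⟨a, y, hy, rfl⟩
  exact h2.closure h1 hy

/-- Criterion for connectedness of the closure of the set of sums. -/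
theorem isPreconnected_LL (h0 : ∀ k, ℓ k 0 = 0) (hb : Summable b)
    (hl : ∀ k a, ‖ℓ k a‖ ≤ b k) (K0 : ℕ)
    (hcov : ∀ k, K0 ≤ k → ∀ a, ∃ p ∈ LL ℓ (k + 1), ∃ q ∈ LL ℓ (k + 1), ℓ k a = p - q) :
    IsPreconnected (LL ℓ K0) := by
  rw [isPreconnected_closed_iff]
  intro U V hU hV hUV hLU hLV
  by_contra hcon
  rw [Set.not_nonempty_iff_eq_empty] at hcon
  have hA : IsCompact (LL ℓ K0 ∩ U) := (isCompact_LL hb hl K0).inter_right hU
  have hB : IsClosed (LL ℓ K0 ∩ V) := isClosed_closure.inter hV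
  have hdisj : Disjoint (LL ℓ K0 ∩ U) (LL ℓ K0 ∩ V) := by
    rw [Set.disjoint_iff]
    rintro x ⟨⟨h1, h2⟩, _, h3⟩
    have : x ∈ LL ℓ K0 ∩ (U ∩ V) := ⟨h1, h2, h3⟩
    rw [hcon] at this
    exact this
  obtain ⟨r, hr, hdist⟩ := Metric.exists_pos_forall_lt_edist hA hB hdisj
  have key : ∀ j : ℕ, ∃ x : ℂ, (∀ y ∈ LL ℓ (K0 + j), x + y ∈ LL ℓ K0) ∧
      (∃ y ∈ LL ℓ (K0 + j), x + y ∈ U) ∧ (∃ y ∈ LL ℓ (K0 + j), x + y ∈ V) := by
    intro j
    induction j with
    | zero =>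
      refine ⟨0, fun y hy => by simpa using hy, ?_, ?_⟩
      · obtain ⟨y, hy1, hy2⟩ := hLU
        exact ⟨y, by simpa using hy1, by simpa using hy2⟩
      · obtain ⟨y, hy1, hy2⟩ := hLV
        exact ⟨y, by simpa using hy1, by simpa using hy2⟩
    | succ j ih =>
      obtain ⟨x, hx, hxU, hxV⟩ := ih
      by_contra hno
      push Not at hno
      set k := K0 + j with hk
      have hkk : K0 + (j + 1) = k + 1 := by omega
      rw [hkk] at hno
      -- each piece meets at most one of `U`, `V`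
      have hpiece : ∀ a : ℕ, (∃ y ∈ LL ℓ (k + 1), x + ℓ k a + y ∈ U) →
          ∀ y ∈ LL ℓ (k + 1), x + ℓ k a + y ∉ V := by
        intro a hya y hy
        apply hno (x + ℓ k a)
        · intro y hy
          have := hx _ (add_mem_LL h0 a hy)
          rwa [← add_assoc] at this
        · exact hya
        · exact hy
      have hmem : ∀ a : ℕ, ∀ y ∈ LL ℓ (k + 1), x + ℓ k a + y ∈ LL ℓ K0 := by
        intro a y hy
        have := hx _ (add_mem_LL h0 a hy)
        rwa [← add_assoc] at this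
      have hUorV : ∀ a : ℕ, ∀ y ∈ LL ℓ (k + 1), x + ℓ k a + y ∈ U ∨ x + ℓ k a + y ∈ V :=
        fun a y hy => hUV (hmem a y hy)
      -- intersection of the piece `a` with the piece `0`
      have hint : ∀ a : ℕ, ∃ p ∈ LL ℓ (k + 1), ∃ q ∈ LL ℓ (k + 1),
          x + ℓ k 0 + p = x + ℓ k a + q := by
        intro a
        obtain ⟨p, hp, q, hq, hpq⟩ := hcov k (by omega) a
        refine ⟨p, hp, q, hq, ?_⟩
        rw [h0, hpq]
        ring
      -- closedness arguments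
      have hclosed : ∀ T : Set ℂ, IsClosed T → (∀ a : ℕ, ∀ y ∈ LL ℓ (k + 1), x + ℓ k a + y ∈ T) →
          ∀ y ∈ LL ℓ k, x + y ∈ T := by
        intro T hT h y hy
        have hcont : Continuous (fun y : ℂ => x + y) := by fun_prop
        have hmaps : Set.MapsTo (fun y : ℂ => x + y) (SS ℓ k) T := by
          intro z hz
          rw [SS_succ_iff h0] at hz
          obtain ⟨a, y', hy', rfl⟩ := hz
          have := h a y' (subset_closure hy')
          show x + (ℓ k a + y') ∈ T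
          rwa [← add_assoc]
        have := hmaps.closure hcont hy
        rwa [hT.closure_eq] at this
      have h0mem : (0 : ℂ) ∈ LL ℓ (k + 1) := subset_closure (zero_mem_SS _)
      rcases hUorV 0 0 h0mem with hcase | hcase
      · -- everything is in `U`
        have hnV0 : ∀ y ∈ LL ℓ (k + 1), x + ℓ k 0 + y ∉ V := hpiece 0 ⟨0, h0mem, hcase⟩
        have hall : ∀ a : ℕ, ∀ y ∈ LL ℓ (k + 1), x + ℓ k a + y ∈ U := by
          intro a y hy
          obtain ⟨p, hp, q, hq, hpq⟩ := hint a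
          have hpU : x + ℓ k a + q ∈ U := by
            rw [← hpq]
            exact (hUorV 0 p hp).resolve_right (hnV0 p hp)
          exact (hUorV a y hy).resolve_right (hpiece a ⟨q, hq, hpU⟩ y hy)
        obtain ⟨y, hy, hyV⟩ := hxV
        have hyU := hclosed U hU hall y hy
        have : x + y ∈ LL ℓ K0 ∩ (U ∩ V) := ⟨hx y hy, hyU, hyV⟩
        rw [hcon] at this
        exact this
      · have hnU0 : ∀ y ∈ LL ℓ (k + 1), x + ℓ k 0 + y ∉ U := by
          intro y hy hyU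
          exact hpiece 0 ⟨y, hy, hyU⟩ 0 h0mem hcase
        have hall : ∀ a : ℕ, ∀ y ∈ LL ℓ (k + 1), x + ℓ k a + y ∈ V := by
          intro a y hy
          obtain ⟨p, hp, q, hq, hpq⟩ := hint a
          have hpV : x + ℓ k a + q ∈ V := by
            rw [← hpq]
            exact (hUorV 0 p hp).resolve_left (hnU0 p hp)
          rcases hUorV a y hy with h | h
          · exact absurd hpV (hpiece a ⟨y, hy, h⟩ q hq)
          · exact h
        obtain ⟨y, hy, hyU⟩ := hxU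
        have hyV := hclosed V hV hall y hy
        have : x + y ∈ LL ℓ K0 ∩ (U ∩ V) := ⟨hx y hy, hyU, hyV⟩
        rw [hcon] at this
        exact this
  -- the pieces get small
  have hlim : Tendsto (fun j : ℕ => BB b (K0 + j)) atTop (𝓝 0) := by
    have := (tendsto_BB b).comp (tendsto_add_atTop_nat K0)
    refine this.congr (fun j => ?_)
    simp [add_comm]
  have hr0 : (0 : ℝ) < r := by exact_mod_cast hr
  obtain ⟨j, hj⟩ := (hlim.eventually (gt_mem_nhds (show (0 : ℝ) < r / 2 by linarith))).exists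
  obtain ⟨x, hx, ⟨y, hy, hyU⟩, ⟨z, hz, hzV⟩⟩ := key j
  have h1 := hdist (x + y) ⟨hx y hy, hyU⟩ (x + z) ⟨hx z hz, hzV⟩
  rw [edist_dist, dist_eq_norm] at h1
  have h2 : ‖x + y - (x + z)‖ ≤ r := by
    have e : x + y - (x + z) = y - z := by ring
    rw [e]
    refine (norm_sub_le _ _).trans ?_
    have := norm_le_BB' hb hl hy
    have := norm_le_BB' hb hl hz
    linarith
  have h3 : ENNReal.ofReal ‖x + y - (x + z)‖ ≤ r := by
    rw [← ENNReal.ofReal_coe_nnreal]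
    exact ENNReal.ofReal_le_ofReal h2
  exact absurd h1 (not_lt.mpr h3)

/-- A point is a difference of two elements of `LL ℓ K` as soon as it can be approximated by
signed sums of the `ℓ k 1`. -/
theorem mem_diff (h0 : ∀ k, ℓ k 0 = 0) (hb : Summable b) (hl : ∀ k a, ‖ℓ k a‖ ≤ b k) (K : ℕ)
    (z : ℂ) (h : ∀ η : ℝ, 0 < η → ∃ (N : ℕ) (ε : ℕ → ℝ), (∀ k, ε k = 1 ∨ ε k = -1) ∧
      ‖z - ∑ k ∈ Ico K N, (ε k : ℂ) * ℓ k 1‖ ≤ η) :
    ∃ p ∈ LL ℓ K, ∃ q ∈ LL ℓ K, z = p - q := by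
  have hcomp : IsCompact ((fun pq : ℂ × ℂ => pq.1 - pq.2) '' (LL ℓ K ×ˢ LL ℓ K)) :=
    ((isCompact_LL hb hl K).prod (isCompact_LL hb hl K)).image (by fun_prop)
  have hz : z ∈ closure ((fun pq : ℂ × ℂ => pq.1 - pq.2) '' (LL ℓ K ×ˢ LL ℓ K)) := by
    rw [Metric.mem_closure_iff]
    intro η hη
    obtain ⟨N, ε, hε, hN⟩ := h (η / 2) (by linarith)
    refine ⟨_, ⟨(∑ k ∈ Ico K N, ℓ k (if ε k = 1 then 1 else 0),
      ∑ k ∈ Ico K N, ℓ k (if ε k = 1 then 0 else 1)), ⟨subset_closure ⟨N, _, rfl⟩,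
      subset_closure ⟨N, _, rfl⟩⟩, rfl⟩, ?_⟩
    rw [dist_eq_norm]
    simp only
    rw [← Finset.sum_sub_distrib]
    have e : ∑ k ∈ Ico K N, (ℓ k (if ε k = 1 then 1 else 0) - ℓ k (if ε k = 1 then 0 else 1)) =
        ∑ k ∈ Ico K N, (ε k : ℂ) * ℓ k 1 := by
      apply Finset.sum_congr rfl
      intro k _
      rcases hε k with h | h
      · rw [if_pos h, if_pos h, h, h0]
        simp
      · have h' : ε k ≠ 1 := by rw [h]; norm_num
        rw [if_neg h', if_neg h', h, h0]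
        simp
    rw [e]
    linarith
  rw [hcomp.isClosed.closure_eq] at hz
  obtain ⟨⟨p, q⟩, ⟨hp, hq⟩, rfl⟩ := hz
  exact ⟨p, hp, q, hq, rfl⟩

end

end Pool.Agent.MP_018e62_nt
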