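import Pool.Agent.MP_018e62_nt.TheoremE
import Pool.Agent.MP_018e62_nt.Sumset
import Pool.Agent.MP_018e62_nt.Rounding

/-!
Estimates for the logarithms of the local factors.
-/

set_option autoImplicit false

namespace Pool.Agent.MP_018e62_nt

open Finset Filter Topology

/-- The complex number `k ^ c` for `c = -r + i t`. -/
noncomputable def vv (r t : ℝ) (k : ℕ) : ℂ := (((k : ℝ) ^ (-r) : ℝ) : ℂ) * pw k t

/-- `log (1 - v ^ (a + 1)) - log (1 - v)`. -/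
noncomputable def lg (v : ℂ) (a : ℕ) : ℂ := Complex.log (1 - v ^ (a + 1)) - Complex.log (1 - v)

/-- The logarithm of the local factor. -/
noncomputable def ell (r t : ℝ) (k a : ℕ) : ℂ := if k.Prime then lg (vv r t k) a else 0

lemma norm_vv (r t : ℝ) (k : ℕ) : ‖vv r t k‖ = (k : ℝ) ^ (-r) := by
  unfold vv
  rw [norm_mul, norm_pw, mul_one, Complex.norm_real, Real.norm_of_nonneg (by positivity)]

lemma rpow_le_inv {r : ℝ} (hr : 1 ≤ r) {k : ℕ} (hk : 1 ≤ k) : (k : ℝ) ^ (-r) ≤ 1 / (k : ℝ) := by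
  have hk1 : (1 : ℝ) ≤ k := by exact_mod_cast hk
  have h1 : (k : ℝ) ^ (-r) ≤ (k : ℝ) ^ (-1 : ℝ) :=
    Real.rpow_le_rpow_of_exponent_le hk1 (by linarith)
  rwa [Real.rpow_neg_one, ← one_div] at h1

lemma norm_vv_le {r t : ℝ} (hr : 1 ≤ r) {k : ℕ} (hk : 1 ≤ k) : ‖vv r t k‖ ≤ 1 / (k : ℝ) := by
  rw [norm_vv]
  exact rpow_le_inv hr hk

lemma norm_vv_le_half {r t : ℝ} (hr : 1 ≤ r) {k : ℕ} (hk : 2 ≤ k) : ‖vv r t k‖ ≤ 1 / 2 := by
  refine (norm_vv_le hr (by omega)).trans ?_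
  apply one_div_le_one_div_of_le (by norm_num)
  exact_mod_cast hk

lemma norm_log_one_sub_le {z : ℂ} (hz : ‖z‖ ≤ 1 / 2) : ‖Complex.log (1 - z)‖ ≤ 3 / 2 * ‖z‖ := by
  have := Complex.norm_log_one_add_half_le_self (z := -z) (by rwa [norm_neg])
  rwa [norm_neg, ← sub_eq_add_neg] at this

lemma norm_log_one_sub_add_le {z : ℂ} (hz : ‖z‖ ≤ 1 / 2) :
    ‖Complex.log (1 - z) + z‖ ≤ ‖z‖ ^ 2 := by
  have := Complex.norm_log_one_add_sub_self_le (z := -z) (by rw [norm_neg]; linarith)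
  rw [norm_neg, ← sub_eq_add_neg, sub_neg_eq_add] at this
  refine this.trans ?_
  have h1 : (1 - ‖z‖)⁻¹ ≤ 2 := by
    rw [inv_le_comm₀ (by linarith) (by norm_num)]
    linarith
  have h2 : 0 ≤ ‖z‖ ^ 2 := by positivity
  nlinarith

lemma norm_pow_le_self {v : ℂ} (hv : ‖v‖ ≤ 1 / 2) (a : ℕ) : ‖v ^ (a + 1)‖ ≤ ‖v‖ := by
  rw [norm_pow, pow_succ]
  have h1 : ‖v‖ ^ a ≤ 1 := pow_le_one₀ (norm_nonneg _) (by linarith)
  have := norm_nonneg v
  nlinarith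

lemma lg_zero (v : ℂ) : lg v 0 = 0 := by simp [lg]

lemma norm_lg_le {v : ℂ} (hv : ‖v‖ ≤ 1 / 2) (a : ℕ) : ‖lg v a‖ ≤ 3 * ‖v‖ := by
  unfold lg
  have h1 := norm_log_one_sub_le (z := v ^ (a + 1)) ((norm_pow_le_self hv a).trans hv)
  have h2 := norm_log_one_sub_le hv
  have h3 := norm_pow_le_self hv a
  calc ‖Complex.log (1 - v ^ (a + 1)) - Complex.log (1 - v)‖
      ≤ ‖Complex.log (1 - v ^ (a + 1))‖ + ‖Complex.log (1 - v)‖ := norm_sub_le _ _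
    _ ≤ 3 * ‖v‖ := by linarith

lemma norm_lg_sub_le {v : ℂ} (hv : ‖v‖ ≤ 1 / 2) {a : ℕ} (ha : 1 ≤ a) :
    ‖lg v a - v‖ ≤ 5 / 2 * ‖v‖ ^ 2 := by
  unfold lg
  have h3 : ‖v ^ (a + 1)‖ ≤ ‖v‖ ^ 2 := by
    rw [norm_pow]
    exact pow_le_pow_of_le_one (norm_nonneg _) (by linarith) (by omega)
  have h1 := norm_log_one_sub_le (z := v ^ (a + 1)) ((norm_pow_le_self hv a).trans hv)
  have h2 := norm_log_one_sub_add_le hv
  have e : Complex.log (1 - v ^ (a + 1)) - Complex.log (1 - v) - v =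
      Complex.log (1 - v ^ (a + 1)) - (Complex.log (1 - v) + v) := by ring
  rw [e]
  refine (norm_sub_le _ _).trans ?_
  linarith

lemma norm_log_one_sub_lip {z w : ℂ} (hz : ‖z‖ ≤ 1 / 2) (hw : ‖w‖ ≤ 1 / 2) :
    ‖Complex.log (1 - z) - Complex.log (1 - w)‖ ≤ 2 * ‖z - w‖ := by
  have hconv : Convex ℝ (Metric.closedBall (0 : ℂ) (1 / 2)) := convex_closedBall 0 _
  have hderiv : ∀ x ∈ Metric.closedBall (0 : ℂ) (1 / 2),
      HasDerivWithinAt (fun x : ℂ => Complex.log (1 - x)) (-1 / (1 - x))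
        (Metric.closedBall (0 : ℂ) (1 / 2)) x := by
    intro x hx
    rw [mem_closedBall_zero_iff] at hx
    have h1 : 1 - x ∈ Complex.slitPlane := slit_one_sub (by linarith)
    have h2 : HasDerivAt (fun x : ℂ => 1 - x) (-1) x := by
      simpa using (hasDerivAt_id x).const_sub 1
    exact (h2.clog h1).hasDerivWithinAt
  have hbound : ∀ x ∈ Metric.closedBall (0 : ℂ) (1 / 2), ‖(-1 / (1 - x) : ℂ)‖ ≤ 2 := by
    intro x hx
    rw [mem_closedBall_zero_iff] at hx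
    have h1 : 1 / 2 ≤ ‖1 - x‖ := by
      have := norm_sub_norm_le (1 : ℂ) x
      rw [norm_one] at this
      linarith
    rw [norm_div, norm_neg, norm_one, div_le_iff₀ (by linarith)]
    linarith
  have := hconv.norm_image_sub_le_of_norm_hasDerivWithin_le hderiv hbound
    (mem_closedBall_zero_iff.mpr hw) (mem_closedBall_zero_iff.mpr hz)
  simpa using this

lemma norm_pow_sub_pow_le {v x : ℂ} (hv : ‖v‖ ≤ 1 / 2) (hx : ‖x‖ ≤ 1 / 2) (n : ℕ) :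
    ‖v ^ (n + 1) - x ^ (n + 1)‖ ≤ ‖v - x‖ := by
  have h1 : ∀ n : ℕ, ‖v ^ (n + 1) - x ^ (n + 1)‖ ≤ ((n : ℝ) + 1) * (1 / 2) ^ n * ‖v - x‖ := by
    intro n
    induction n with
    | zero => simp
    | succ n ih =>
      have e : v ^ (n + 1 + 1) - x ^ (n + 1 + 1) =
          v ^ (n + 1) * (v - x) + x * (v ^ (n + 1) - x ^ (n + 1)) := by ring
      rw [e]
      refine (norm_add_le _ _).trans ?_
      rw [norm_mul, norm_mul]
      have h2 : ‖v ^ (n + 1)‖ ≤ (1 / 2) ^ (n + 1) := by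
        rw [norm_pow]
        exact pow_le_pow_left₀ (norm_nonneg _) hv _
      have h3 : ‖x‖ * ‖v ^ (n + 1) - x ^ (n + 1)‖ ≤
          1 / 2 * (((n : ℝ) + 1) * (1 / 2) ^ n * ‖v - x‖) :=
        mul_le_mul hx ih (norm_nonneg _) (by norm_num)
      have h4 : ‖v ^ (n + 1)‖ * ‖v - x‖ ≤ (1 / 2) ^ (n + 1) * ‖v - x‖ :=
        mul_le_mul_of_nonneg_right h2 (norm_nonneg _)
      refine (add_le_add h4 h3).trans (le_of_eq ?_)
      push_cast
      ring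
  refine (h1 n).trans ?_
  have h2 : ((n : ℝ) + 1) * (1 / 2) ^ n ≤ 1 := by
    have h3 : ((n : ℝ) + 1) ≤ 2 ^ n := by exact_mod_cast Nat.lt_two_pow_self
    rw [one_div, inv_pow, mul_inv_le_iff₀ (by positivity), one_mul]
    exact h3
  have := norm_nonneg (v - x)
  nlinarith

lemma norm_lg_sub_lg_le {v x : ℂ} (hv : ‖v‖ ≤ 1 / 2) (hx : ‖x‖ ≤ 1 / 2) (a : ℕ) :
    ‖lg v a - lg x a‖ ≤ 4 * ‖v - x‖ := by
  unfold lg
  have h1 := norm_log_one_sub_lip ((norm_pow_le_self hv a).trans hv)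
    ((norm_pow_le_self hx a).trans hx)
  have h2 := norm_log_one_sub_lip hv hx
  have h3 := norm_pow_sub_pow_le hv hx a
  have e : Complex.log (1 - v ^ (a + 1)) - Complex.log (1 - v) -
      (Complex.log (1 - x ^ (a + 1)) - Complex.log (1 - x)) =
      (Complex.log (1 - v ^ (a + 1)) - Complex.log (1 - x ^ (a + 1))) -
      (Complex.log (1 - v) - Complex.log (1 - x)) := by ring
  rw [e]
  refine (norm_sub_le _ _).trans ?_
  linarith

lemma ell_zero (r t : ℝ) (k : ℕ) : ell r t k 0 = 0 := by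
  unfold ell
  split_ifs
  · exact lg_zero _
  · rfl

lemma ell_of_prime {r t : ℝ} {k : ℕ} (hk : k.Prime) (a : ℕ) :
    ell r t k a = lg (vv r t k) a := by
  unfold ell
  rw [if_pos hk]

lemma ell_of_not_prime {r t : ℝ} {k : ℕ} (hk : ¬ k.Prime) (a : ℕ) : ell r t k a = 0 := by
  unfold ell
  rw [if_neg hk]

lemma norm_ell_le {r : ℝ} (t : ℝ) (hr : 1 ≤ r) (k a : ℕ) :
    ‖ell r t k a‖ ≤ 3 * (k : ℝ) ^ (-r) := by
  by_cases hk : k.Prime
  · rw [ell_of_prime hk, ← norm_vv r t k]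
    exact norm_lg_le (norm_vv_le_half hr hk.two_le) a
  · rw [ell_of_not_prime hk, norm_zero]
    positivity

lemma norm_ell_le' {r : ℝ} (t : ℝ) (hr : 1 ≤ r) {k : ℕ} (hk : 1 ≤ k) (a : ℕ) :
    ‖ell r t k a‖ ≤ 3 / (k : ℝ) := by
  refine (norm_ell_le t hr k a).trans ?_
  have := rpow_le_inv hr hk
  rw [← mul_one_div]
  linarith

lemma norm_ell_sub_le {r : ℝ} (t : ℝ) (hr : 1 ≤ r) {k : ℕ} (hk : k.Prime) {a : ℕ} (ha : 1 ≤ a) :
    ‖ell r t k a - vv r t k‖ ≤ 5 / 2 * (1 / (k : ℝ) ^ 2) := by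
  rw [ell_of_prime hk]
  refine (norm_lg_sub_le (norm_vv_le_half hr hk.two_le) ha).trans ?_
  have h1 := norm_vv_le (t := t) hr hk.one_lt.le
  have h2 : ‖vv r t k‖ ^ 2 ≤ (1 / (k : ℝ)) ^ 2 := pow_le_pow_left₀ (norm_nonneg _) h1 2
  rw [div_pow, one_pow] at h2
  linarith

lemma norm_ell_sq_le {r : ℝ} (t : ℝ) (hr : 1 ≤ r) {k : ℕ} (hk : 1 ≤ k) (a : ℕ) :
    ‖ell r t k a‖ ^ 2 ≤ 9 * (1 / (k : ℝ) ^ 2) := by
  have h := pow_le_pow_left₀ (norm_nonneg _) (norm_ell_le' t hr hk a) 2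
  rw [div_pow] at h
  refine h.trans (le_of_eq ?_)
  ring

lemma summable_b {r : ℝ} (hr : 1 < r) : Summable (fun k : ℕ => 3 * (k : ℝ) ^ (-r)) :=
  (Real.summable_nat_rpow.mpr (by linarith)).mul_left 3

end Pool.Agent.MP_018e62_nt
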