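import Pool.Agent.MP_018e62_nt.ZetaLower

/-!
The sum over primes `∑ p ^ (-s)` and its variation to the right of the line `Re s = 1`.
-/

set_option autoImplicit false

namespace Pool.Agent.MP_018e62_nt

open Complex MeasureTheory Set Filter Topology

/-- `∑ -log (1 - p ^ (-s))`. -/
noncomputable def LZ (s : ℂ) : ℂ := ∑' p : Nat.Primes, -Complex.log (1 - (p : ℂ) ^ (-s))

/-- `∑ p ^ (-s)`. -/
noncomputable def PZ (s : ℂ) : ℂ := ∑' p : Nat.Primes, (p : ℂ) ^ (-s)

lemma exp_LZ {s : ℂ} (hs : 1 < s.re) : cexp (LZ s) = riemannZeta s :=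
  riemannZeta_eulerProduct_exp_log hs

lemma prime_pos (p : Nat.Primes) : (0 : ℝ) < p := by exact_mod_cast p.2.pos

lemma two_le_prime (p : Nat.Primes) : (2 : ℝ) ≤ p := by exact_mod_cast p.2.two_le

lemma norm_prime_cpow (p : Nat.Primes) (s : ℂ) : ‖(p : ℂ) ^ (-s)‖ = (p : ℝ) ^ (-s.re) := by
  have := Complex.norm_cpow_eq_rpow_re_of_pos (prime_pos p) (-s)
  simpa using this

lemma summable_prime_cpow {s : ℂ} (hs : 1 < s.re) :
    Summable (fun p : Nat.Primes => (p : ℂ) ^ (-s)) := by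
  apply Summable.of_norm
  simp_rw [norm_prime_cpow]
  exact Nat.Primes.summable_rpow.mpr (by linarith)

lemma summable_log {s : ℂ} (hs : 1 < s.re) :
    Summable (fun p : Nat.Primes => -Complex.log (1 - (p : ℂ) ^ (-s))) := by
  have h := (summable_prime_cpow hs).norm.of_norm.clog_one_sub
  exact h.neg

/-- A real number bounding the variation of the prime power terms. -/
noncomputable def C0 : ℝ := ∑' p : Nat.Primes, Real.log p / (p : ℝ) ^ 2

lemma summable_log_div_sq : Summable (fun p : Nat.Primes => Real.log p / (p : ℝ) ^ 2) := by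
  have h1 : Summable (fun p : Nat.Primes => 2 * (p : ℝ) ^ (-(3 / 2) : ℝ)) :=
    (Nat.Primes.summable_rpow.mpr (by norm_num)).mul_left 2
  refine Summable.of_nonneg_of_le (fun p => ?_) (fun p => ?_) h1
  · exact div_nonneg (Real.log_nonneg (by linarith [two_le_prime p])) (by positivity)
  · have hp := prime_pos p
    have h2 : Real.log p ≤ (p : ℝ) ^ (1 / 2 : ℝ) / (1 / 2) :=
      Real.log_le_rpow_div hp.le (by norm_num)
    calc Real.log p / (p : ℝ) ^ 2 ≤ ((p : ℝ) ^ (1 / 2 : ℝ) / (1 / 2)) / (p : ℝ) ^ 2 := by gcongr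
      _ = 2 * ((p : ℝ) ^ (1 / 2 : ℝ) * (p : ℝ) ^ (-2 : ℝ)) := by
          rw [Real.rpow_neg hp.le]
          norm_num
          ring
      _ = 2 * (p : ℝ) ^ (-(3 / 2) : ℝ) := by
          rw [← Real.rpow_add hp]
          norm_num

lemma C0_nonneg : 0 ≤ C0 :=
  tsum_nonneg fun p => div_nonneg (Real.log_nonneg (by linarith [two_le_prime p])) (by positivity)

lemma cpow_sub_bound (p : Nat.Primes) {a b y : ℝ} (ha : 1 ≤ a) (hb : 1 ≤ b) :
    ‖(p : ℂ) ^ (-(a + y * I : ℂ)) - (p : ℂ) ^ (-(b + y * I : ℂ))‖ ≤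
      |b - a| * (Real.log p / p) := by
  have hp := prime_pos p
  have hp1 : (1 : ℝ) < p := by linarith [two_le_prime p]
  have hp0 : (p : ℂ) ≠ 0 := by exact_mod_cast hp.ne'
  have hlog : 0 ≤ Real.log p := Real.log_nonneg hp1.le
  have e1 : ∀ c : ℝ, (p : ℂ) ^ (-(c + y * I : ℂ)) =
      (p : ℂ) ^ (-(y * I)) * (((p : ℝ) ^ (-c) : ℝ) : ℂ) := by
    intro c
    rw [Complex.ofReal_cpow hp.le]
    simp only [ofReal_natCast]
    rw [← Complex.cpow_add _ _ hp0]
    congr 1
    push_cast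
    ring
  have e2 : ‖(p : ℂ) ^ (-(y * I : ℂ))‖ = 1 := by
    rw [norm_prime_cpow]
    simp
  rw [e1 a, e1 b, ← mul_sub, norm_mul, e2, one_mul, ← Complex.ofReal_sub, Complex.norm_real,
    Real.norm_eq_abs]
  have key : ∀ a b : ℝ, 1 ≤ a → a ≤ b →
      |(p : ℝ) ^ (-a) - (p : ℝ) ^ (-b)| ≤ (b - a) * (Real.log p / p) := by
    intro a b ha hab
    have h1 : (p : ℝ) ^ (-b) = (p : ℝ) ^ (-a) * (p : ℝ) ^ (-(b - a)) := by
      rw [← Real.rpow_add hp]
      congr 1
      ring
    have h2 : (p : ℝ) ^ (-(b - a)) = Real.exp (-(b - a) * Real.log p) := by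
      rw [Real.rpow_def_of_pos hp, mul_comm]
    have h3 : 1 - (p : ℝ) ^ (-(b - a)) ≤ (b - a) * Real.log p := by
      rw [h2]
      have := Real.add_one_le_exp (-(b - a) * Real.log p)
      linarith
    have h4 : (p : ℝ) ^ (-(b - a)) ≤ 1 := Real.rpow_le_one_of_one_le_of_nonpos hp1.le (by linarith)
    have h6 : (p : ℝ) ^ (-a) ≤ (p : ℝ) ^ (-1 : ℝ) :=
      Real.rpow_le_rpow_of_exponent_le hp1.le (by linarith)
    have h7 : 0 ≤ (p : ℝ) ^ (-a) := Real.rpow_nonneg hp.le _
    rw [h1]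
    have h8 : (p : ℝ) ^ (-a) - (p : ℝ) ^ (-a) * (p : ℝ) ^ (-(b - a)) =
        (p : ℝ) ^ (-a) * (1 - (p : ℝ) ^ (-(b - a))) := by ring
    rw [h8, abs_of_nonneg (mul_nonneg h7 (by linarith))]
    calc (p : ℝ) ^ (-a) * (1 - (p : ℝ) ^ (-(b - a)))
        ≤ (p : ℝ) ^ (-1 : ℝ) * ((b - a) * Real.log p) := by
          apply mul_le_mul h6 h3 (by linarith) (Real.rpow_nonneg hp.le _)
      _ = (b - a) * (Real.log p / p) := by
          rw [Real.rpow_neg_one]
          ring
  rcases le_total a b with h | h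
  · rw [abs_of_nonneg (by linarith : 0 ≤ b - a)]
    exact key a b ha h
  · rw [abs_sub_comm, abs_sub_comm b a, abs_of_nonneg (by linarith : 0 ≤ a - b)]
    exact key b a hb h

/-- The function `-log (1 - x) - x` is Lipschitz with constant `2 r` on the disc of
radius `r ≤ 1 / 2`. -/
lemma log_aux {r : ℝ} (hr : r ≤ 1 / 2) {x z : ℂ} (hx : ‖x‖ ≤ r) (hz : ‖z‖ ≤ r) :
    ‖(-Complex.log (1 - x) - x) - (-Complex.log (1 - z) - z)‖ ≤ 2 * r * ‖x - z‖ := by
  have hr0 : 0 ≤ r := (norm_nonneg x).trans hx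
  have hconv : Convex ℝ (Metric.closedBall (0 : ℂ) r) := convex_closedBall 0 r
  have hderiv : ∀ w ∈ Metric.closedBall (0 : ℂ) r,
      HasDerivWithinAt (fun w : ℂ => -Complex.log (1 - w) - w) (w / (1 - w))
        (Metric.closedBall (0 : ℂ) r) w := by
    intro w hw
    rw [mem_closedBall_zero_iff] at hw
    have hw1 : ‖w‖ < 1 := by linarith
    have hslit : 1 - w ∈ Complex.slitPlane := by
      have := Complex.mem_slitPlane_of_norm_lt_one (z := -w) (by rwa [norm_neg])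
      rwa [← sub_eq_add_neg] at this
    have hne : 1 - w ≠ 0 := Complex.slitPlane_ne_zero hslit
    have h1 : HasDerivAt (fun w : ℂ => 1 - w) (-1) w := by
      simpa using (hasDerivAt_id w).const_sub 1
    have h2 := (h1.clog hslit).neg.sub (hasDerivAt_id w)
    have h3 : -(-1 / (1 - w)) - 1 = w / (1 - w) := by
      field_simp
      ring
    rw [h3] at h2
    exact h2.hasDerivWithinAt
  have hbound : ∀ w ∈ Metric.closedBall (0 : ℂ) r, ‖w / (1 - w)‖ ≤ 2 * r := by
    intro w hw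
    rw [mem_closedBall_zero_iff] at hw
    have h1 : 1 / 2 ≤ ‖1 - w‖ := by
      have := norm_sub_norm_le (1 : ℂ) w
      rw [norm_one] at this
      linarith
    rw [norm_div, div_le_iff₀ (by linarith)]
    nlinarith
  have := hconv.norm_image_sub_le_of_norm_hasDerivWithin_le hderiv hbound
    (mem_closedBall_zero_iff.mpr hz) (mem_closedBall_zero_iff.mpr hx)
  exact this

lemma norm_prime_cpow_le (p : Nat.Primes) {s : ℂ} (hs : 1 ≤ s.re) :
    ‖(p : ℂ) ^ (-s)‖ ≤ 1 / p := by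
  rw [norm_prime_cpow, one_div, ← Real.rpow_neg_one]
  exact Real.rpow_le_rpow_of_exponent_le (by linarith [two_le_prime p]) (by linarith)

lemma PZ_variation {a b y : ℝ} (ha : 1 < a) (hb : 1 < b) :
    ‖(PZ (a + y * I) - PZ (b + y * I)) - (LZ (a + y * I) - LZ (b + y * I))‖ ≤
      2 * C0 * |b - a| := by
  have ha' : 1 < (a + y * I : ℂ).re := by simpa using ha
  have hb' : 1 < (b + y * I : ℂ).re := by simpa using hb
  have e : (LZ (a + y * I) - LZ (b + y * I)) - (PZ (a + y * I) - PZ (b + y * I)) =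
      ∑' p : Nat.Primes, ((-Complex.log (1 - (p : ℂ) ^ (-(a + y * I : ℂ))) -
          (p : ℂ) ^ (-(a + y * I : ℂ))) -
        (-Complex.log (1 - (p : ℂ) ^ (-(b + y * I : ℂ))) - (p : ℂ) ^ (-(b + y * I : ℂ)))) := by
    rw [Summable.tsum_sub ((summable_log ha').sub (summable_prime_cpow ha'))
      ((summable_log hb').sub (summable_prime_cpow hb')),
      Summable.tsum_sub (summable_log ha') (summable_prime_cpow ha'),
      Summable.tsum_sub (summable_log hb') (summable_prime_cpow hb')]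
    unfold LZ PZ
    ring
  rw [← norm_neg]
  have e2 : -((PZ (a + y * I) - PZ (b + y * I)) - (LZ (a + y * I) - LZ (b + y * I))) =
      (LZ (a + y * I) - LZ (b + y * I)) - (PZ (a + y * I) - PZ (b + y * I)) := by ring
  rw [e2, e]
  have hterm : ∀ p : Nat.Primes,
      ‖((-Complex.log (1 - (p : ℂ) ^ (-(a + y * I : ℂ))) -
          (p : ℂ) ^ (-(a + y * I : ℂ))) -
        (-Complex.log (1 - (p : ℂ) ^ (-(b + y * I : ℂ))) - (p : ℂ) ^ (-(b + y * I : ℂ))))‖ ≤
      2 * |b - a| * (Real.log p / (p : ℝ) ^ 2) := by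
    intro p
    have hp := prime_pos p
    have h1 := log_aux (r := 1 / p) (by
      rw [div_le_div_iff₀ hp (by norm_num)]
      linarith [two_le_prime p]) (norm_prime_cpow_le p ha'.le) (norm_prime_cpow_le p hb'.le)
    have h2 := cpow_sub_bound p (y := y) ha.le hb.le
    calc _ ≤ 2 * (1 / p) * ‖(p : ℂ) ^ (-(a + y * I : ℂ)) - (p : ℂ) ^ (-(b + y * I : ℂ))‖ := h1
      _ ≤ 2 * (1 / p) * (|b - a| * (Real.log p / p)) := by gcongr
      _ = 2 * |b - a| * (Real.log p / (p : ℝ) ^ 2) := by ring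
  calc _ ≤ ∑' p : Nat.Primes, 2 * |b - a| * (Real.log p / (p : ℝ) ^ 2) :=
        tsum_of_norm_bounded (summable_log_div_sq.mul_left _).hasSum hterm
    _ = 2 * C0 * |b - a| := by
        rw [tsum_mul_left]
        unfold C0
        ring

lemma slit_one_sub {w : ℂ} (hw : ‖w‖ < 1) : 1 - w ∈ Complex.slitPlane := by
  have := Complex.mem_slitPlane_of_norm_lt_one (z := -w) (by rwa [norm_neg])
  rwa [← sub_eq_add_neg] at this

lemma continuousOn_LZ (y : ℝ) {d : ℝ} (hd : 1 < d) :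
    ContinuousOn (fun x : ℝ => LZ (x + y * I)) (Ici d) := by
  unfold LZ
  refine continuousOn_tsum (u := fun p : Nat.Primes => 3 / 2 * (p : ℝ) ^ (-d)) (fun p => ?_)
    ((Nat.Primes.summable_rpow.mpr (by linarith)).mul_left _) (fun p x hx => ?_)
  · intro x hx
    have hx1 : 1 < x := lt_of_lt_of_le hd hx
    have hp0 : (p : ℂ) ≠ 0 := by exact_mod_cast (prime_pos p).ne'
    have h1 : ContinuousAt (fun x : ℝ => (p : ℂ) ^ (-(x + y * I : ℂ))) x := by
      apply ContinuousAt.const_cpow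
      · fun_prop
      · exact Or.inl hp0
    have h2 : ‖(p : ℂ) ^ (-(x + y * I : ℂ))‖ < 1 := by
      refine lt_of_le_of_lt (norm_prime_cpow_le p (by simp; linarith)) ?_
      rw [div_lt_one (prime_pos p)]
      linarith [two_le_prime p]
    exact ((continuousAt_const.sub h1).clog (slit_one_sub h2)).neg.continuousWithinAt
  · have hx1 : d ≤ x := hx
    have h1 : ‖(p : ℂ) ^ (-(x + y * I : ℂ))‖ ≤ 1 / 2 := by
      refine (norm_prime_cpow_le p (by simp; linarith)).trans ?_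
      rw [div_le_div_iff₀ (prime_pos p) (by norm_num)]
      linarith [two_le_prime p]
    have h2 := Complex.norm_log_one_add_half_le_self (z := -(p : ℂ) ^ (-(x + y * I : ℂ)))
      (by rwa [norm_neg])
    rw [← sub_eq_add_neg, norm_neg] at h2
    rw [norm_neg]
    refine h2.trans ?_
    rw [norm_prime_cpow]
    have : (-(x + y * I : ℂ).re) = -x := by simp
    rw [this]
    gcongr
    linarith [two_le_prime p]

/-- If `f` is continuous on `[a, b]`, `f b = 0` and `exp ∘ f` stays close to `1`, then `f a` is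
small. -/
lemma path_lemma {f : ℝ → ℂ} {a b η : ℝ} (hab : a ≤ b) (hf : ContinuousOn f (Icc a b))
    (hfb : f b = 0) (hη : η ≤ 1 / 2) (h : ∀ x ∈ Icc a b, ‖cexp (f x) - 1‖ ≤ η) :
    ‖f a‖ ≤ 3 / 2 * η := by
  have him : ∀ x ∈ Icc a b, |(f x).im| < Real.pi / 2 := by
    by_contra hcon
    push Not at hcon
    obtain ⟨x, hx, hxim⟩ := hcon
    have hcont : ContinuousOn (fun z => |(f z).im|) (Icc x b) :=
      (Complex.continuous_im.comp_continuousOn
        (hf.mono (Icc_subset_Icc_left hx.1))).abs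
    have hb0 : |(f b).im| ≤ Real.pi / 2 := by
      rw [hfb]
      simp
      positivity
    obtain ⟨z, hz, hzim⟩ := intermediate_value_Icc' hx.2 hcont ⟨hb0, hxim⟩
    have hz' : z ∈ Icc a b := ⟨hx.1.trans hz.1, hz.2⟩
    have h1 := h z hz'
    have h2 : (cexp (f z)).re = 0 := by
      rw [Complex.exp_re]
      have : Real.cos (f z).im = 0 := by
        rw [← Real.cos_abs]
        simp only at hzim
        rw [hzim, Real.cos_pi_div_two]
      rw [this, mul_zero]
    have h3 : 1 ≤ ‖cexp (f z) - 1‖ := by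
      have := Complex.abs_re_le_norm (cexp (f z) - 1)
      rw [Complex.sub_re, h2, Complex.one_re] at this
      simpa using this
    linarith
  have ha : a ∈ Icc a b := ⟨le_rfl, hab⟩
  have h1 := him a ha
  rw [abs_lt] at h1
  have h2 : Complex.log (cexp (f a)) = f a :=
    Complex.log_exp (by linarith [Real.pi_pos]) (by linarith [Real.pi_pos])
  have h3 := h a ha
  have h4 := Complex.norm_log_one_add_half_le_self (z := cexp (f a) - 1) (h3.trans hη)
  have h5 : 1 + (cexp (f a) - 1) = cexp (f a) := by ring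
  rw [h5, h2] at h4
  linarith

/-- Variation of `PZ` on horizontal segments: polynomial bound. -/
lemma PZ_bound : ∃ C : ℝ, 1 ≤ C ∧ ∀ y δ : ℝ, 1 ≤ |y| → 0 < δ → C * |y| ^ 5 * δ ≤ 1 →
    ‖PZ ((1 + δ : ℝ) + y * I) - PZ ((1 + 2 * δ : ℝ) + y * I)‖ ≤ C * |y| ^ 5 * δ := by
  refine ⟨2 * 10 ^ 10 + 2 * C0, by nlinarith [C0_nonneg], ?_⟩
  intro y δ hy hδ hδ1
  have hC0 := C0_nonneg
  have hy5 : (1 : ℝ) ≤ |y| ^ 5 := one_le_pow₀ hy
  have hy0 : 0 < |y| := by linarith
  set η : ℝ := 10 ^ 10 * |y| ^ 5 * δ with hη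
  have hη2 : η ≤ 1 / 2 := by
    have : 2 * C0 * (|y| ^ 5 * δ) ≥ 0 := by positivity
    nlinarith
  have hδ' : δ ≤ 1 / 2 := by
    have : δ ≤ η := by
      rw [hη]
      nlinarith
    linarith
  -- zeta at the right end point
  have hlow : 18 * (1 / 10 ^ 10) / |y| ^ 4 ≤ ‖riemannZeta ((1 + 2 * δ : ℝ) + y * I)‖ :=
    zeta_lower (by linarith) (by linarith) hy
  have hlowpos : 0 < 18 * (1 / 10 ^ 10) / |y| ^ 4 := by positivity
  have hne : riemannZeta ((1 + 2 * δ : ℝ) + y * I) ≠ 0 := by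
    intro h0
    rw [h0, norm_zero] at hlow
    linarith
  have hcont : ContinuousOn (fun x : ℝ => LZ (x + y * I) - LZ ((1 + 2 * δ : ℝ) + y * I))
      (Icc (1 + δ) (1 + 2 * δ)) :=
    ((continuousOn_LZ y (d := 1 + δ) (by linarith)).mono Icc_subset_Ici_self).sub
      continuousOn_const
  have hclose : ∀ x ∈ Icc (1 + δ) (1 + 2 * δ),
      ‖cexp (LZ (x + y * I) - LZ ((1 + 2 * δ : ℝ) + y * I)) - 1‖ ≤ η := by
    intro x hx
    have hx1 : 1 < x := by linarith [hx.1]
    rw [Complex.exp_sub, exp_LZ (by simpa using hx1), exp_LZ (by simp; linarith)]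
    have e : riemannZeta (x + y * I) / riemannZeta ((1 + 2 * δ : ℝ) + y * I) - 1 =
        (riemannZeta (x + y * I) - riemannZeta ((1 + 2 * δ : ℝ) + y * I)) /
          riemannZeta ((1 + 2 * δ : ℝ) + y * I) := by
      field_simp
    rw [e, norm_div]
    have h1 := norm_zeta_sub_le (a := x) (b := 1 + 2 * δ) (y := y) hx1 (by linarith)
      (by linarith) hy
    have h2 : |1 + 2 * δ - x| ≤ δ := by
      rw [abs_le]
      constructor <;> linarith [hx.1, hx.2]
    calc ‖riemannZeta (x + y * I) - riemannZeta ((1 + 2 * δ : ℝ) + y * I)‖ /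
          ‖riemannZeta ((1 + 2 * δ : ℝ) + y * I)‖
        ≤ (18 * |y| * δ) / (18 * (1 / 10 ^ 10) / |y| ^ 4) := by
          gcongr
          refine h1.trans ?_
          gcongr
      _ = η := by
          rw [hη]
          field_simp
  have hpath := path_lemma (by linarith) hcont (by simp) hη2 hclose
  have hvar := PZ_variation (a := 1 + δ) (b := 1 + 2 * δ) (y := y) (by linarith) (by linarith)
  have hab : |(1 + 2 * δ) - (1 + δ)| = δ := by
    rw [show (1 + 2 * δ) - (1 + δ) = δ by ring, abs_of_pos hδ]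
  rw [hab] at hvar
  set A := PZ ((1 + δ : ℝ) + y * I) - PZ ((1 + 2 * δ : ℝ) + y * I) with hA
  set B := LZ ((1 + δ : ℝ) + y * I) - LZ ((1 + 2 * δ : ℝ) + y * I) with hB
  have h3 : ‖A‖ ≤ ‖A - B‖ + ‖B‖ := by
    have := norm_add_le (A - B) B
    simpa using this
  have h4 : δ ≤ |y| ^ 5 * δ := by nlinarith
  calc ‖A‖ ≤ ‖A - B‖ + ‖B‖ := h3
    _ ≤ 2 * C0 * δ + 3 / 2 * η := add_le_add hvar hpath
    _ ≤ (2 * 10 ^ 10 + 2 * C0) * |y| ^ 5 * δ := by
        rw [hη]
        have : 2 * C0 * δ ≤ 2 * C0 * (|y| ^ 5 * δ) := by gcongr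
        nlinarith [show 0 ≤ |y| ^ 5 * δ by positivity]

end Pool.Agent.MP_018e62_nt
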