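import Pool.Agent.MP_018e62_nt.Windows

/-!
The total mass of the smooth weights tends to `log 2`.
-/

set_option autoImplicit false

namespace Pool.Agent.MP_018e62_nt

open Finset Filter Topology

lemma zeta_residue_real : Tendsto (fun δ : ℝ => (δ : ℂ) * riemannZeta ((1 + δ : ℝ) : ℂ))
    (𝓝[>] 0) (𝓝 1) := by
  have h1 : Tendsto (fun δ : ℝ => (((1 + δ : ℝ)) : ℂ)) (𝓝[>] 0) (𝓝[≠] 1) := by
    rw [tendsto_nhdsWithin_iff]
    constructor
    · have : Tendsto (fun δ : ℝ => (((1 + δ : ℝ)) : ℂ)) (𝓝 0) (𝓝 (((1 + 0 : ℝ)) : ℂ)) := by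
        apply Continuous.tendsto
        fun_prop
      simp only [add_zero, Complex.ofReal_one] at this
      exact this.mono_left nhdsWithin_le_nhds
    · filter_upwards [self_mem_nhdsWithin] with δ hδ
      have hδ' : (0 : ℝ) < δ := hδ
      intro h
      have h2 := congrArg Complex.re h
      simp at h2
      linarith
  have h2 := riemannZeta_residue_one.comp h1
  refine h2.congr fun δ => ?_
  simp only [Function.comp]
  push_cast
  ring

lemma zeta_ratio : Tendsto (fun δ : ℝ => ‖riemannZeta ((1 + δ : ℝ) : ℂ)‖ /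
    ‖riemannZeta ((1 + 2 * δ : ℝ) : ℂ)‖) (𝓝[>] 0) (𝓝 2) := by
  have h1 := zeta_residue_real.norm
  have h0 : Tendsto (fun δ : ℝ => 2 * δ) (𝓝[>] 0) (𝓝[>] 0) := by
    rw [tendsto_nhdsWithin_iff]
    constructor
    · have : Tendsto (fun δ : ℝ => 2 * δ) (𝓝 0) (𝓝 (2 * 0)) := by
        apply Continuous.tendsto
        fun_prop
      rw [mul_zero] at this
      exact this.mono_left nhdsWithin_le_nhds
    · filter_upwards [self_mem_nhdsWithin] with δ hδ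
      have hδ' : (0 : ℝ) < δ := hδ
      show (0 : ℝ) < 2 * δ
      linarith
  have h2 := (zeta_residue_real.comp h0).norm
  have h3 := (h1.div h2 (by simp)).const_mul 2
  simp only [norm_one, div_one, mul_one] at h3
  refine h3.congr' ?_
  filter_upwards [self_mem_nhdsWithin] with δ hδ
  have hδ' : (0 : ℝ) < δ := hδ
  have e1 : ∀ x : ℝ, 0 < x → ‖(x : ℂ) * riemannZeta ((1 + x : ℝ) : ℂ)‖ =
      x * ‖riemannZeta ((1 + x : ℝ) : ℂ)‖ := by
    intro x hx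
    rw [norm_mul, Complex.norm_real, Real.norm_eq_abs, abs_of_pos hx]
  have hne : riemannZeta ((1 + 2 * δ : ℝ) : ℂ) ≠ 0 := by
    apply riemannZeta_ne_zero_of_one_lt_re
    simp
    linarith
  have hne' : ‖riemannZeta ((1 + 2 * δ : ℝ) : ℂ)‖ ≠ 0 := norm_ne_zero_iff.mpr hne
  rw [Pi.div_apply]
  simp only [Function.comp]
  rw [e1 δ hδ', e1 (2 * δ) (by linarith)]
  field_simp

lemma summable_wt {δ : ℝ} (hδ : 0 < δ) : Summable (fun p : Nat.Primes => wt δ p) := by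
  have h1 : Summable (fun p : Nat.Primes => (p : ℝ) ^ (-(1 + δ))) :=
    Nat.Primes.summable_rpow.mpr (by linarith)
  refine Summable.of_nonneg_of_le (fun p => wt_nonneg hδ p.2.one_lt.le) (fun p => wt_le_rpow) h1

lemma tsum_wt_eq {δ : ℝ} (hδ : 0 < δ) :
    ((∑' p : Nat.Primes, wt δ p : ℝ) : ℂ) =
      PZ ((1 + δ : ℝ) + (0 : ℝ) * Complex.I) - PZ ((1 + 2 * δ : ℝ) + (0 : ℝ) * Complex.I) := by
  rw [(PZ_diff_eq hδ 0).1, Complex.ofReal_tsum]
  apply tsum_congr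
  intro p
  simp

lemma mass_bound {δ : ℝ} (hδ : 0 < δ) :
    |(∑' p : Nat.Primes, wt δ p) - Real.log (‖riemannZeta ((1 + δ : ℝ) : ℂ)‖ /
    ‖riemannZeta ((1 + 2 * δ : ℝ) : ℂ)‖)| ≤ 2 * C0 * δ := by
  have h1 := PZ_variation (a := 1 + δ) (b := 1 + 2 * δ) (y := 0) (by linarith) (by linarith)
  rw [← tsum_wt_eq hδ] at h1
  have h2 : (LZ ((1 + δ : ℝ) + (0 : ℝ) * Complex.I) -
      LZ ((1 + 2 * δ : ℝ) + (0 : ℝ) * Complex.I)).re =
      Real.log (‖riemannZeta ((1 + δ : ℝ) : ℂ)‖ / ‖riemannZeta ((1 + 2 * δ : ℝ) : ℂ)‖) := by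
    have e1 : Complex.exp (LZ ((1 + δ : ℝ) + (0 : ℝ) * Complex.I)) =
        riemannZeta ((1 + δ : ℝ) : ℂ) := by
      have := exp_LZ (s := ((1 + δ : ℝ) + (0 : ℝ) * Complex.I)) (by simp; linarith)
      simpa using this
    have e2 : Complex.exp (LZ ((1 + 2 * δ : ℝ) + (0 : ℝ) * Complex.I)) =
        riemannZeta ((1 + 2 * δ : ℝ) : ℂ) := by
      have := exp_LZ (s := ((1 + 2 * δ : ℝ) + (0 : ℝ) * Complex.I)) (by simp; linarith)
      simpa using this
    rw [← e1, ← e2, Complex.norm_exp, Complex.norm_exp, ← Real.exp_sub, Real.log_exp,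
      Complex.sub_re]
  rw [← h2]
  have h3 := (Complex.abs_re_le_norm _).trans h1
  rw [Complex.sub_re, Complex.ofReal_re] at h3
  have e : |1 + 2 * δ - (1 + δ)| = δ := by
    rw [show 1 + 2 * δ - (1 + δ) = δ by ring, abs_of_pos hδ]
  rw [e] at h3
  exact h3

/-- The total mass of the weights tends to `log 2`. -/
lemma tendsto_mass : Tendsto (fun δ : ℝ => ∑' p : Nat.Primes, wt δ p) (𝓝[>] 0)
    (𝓝 (Real.log 2)) := by
  have h1 : Tendsto (fun δ : ℝ => Real.log (‖riemannZeta ((1 + δ : ℝ) : ℂ)‖ /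
    ‖riemannZeta ((1 + 2 * δ : ℝ) : ℂ)‖)) (𝓝[>] 0) (𝓝 (Real.log 2)) :=
    zeta_ratio.log (by norm_num)
  have h2 : Tendsto (fun δ : ℝ => 2 * C0 * δ) (𝓝[>] 0) (𝓝 0) := by
    have : Tendsto (fun δ : ℝ => 2 * C0 * δ) (𝓝 0) (𝓝 (2 * C0 * 0)) := by
      apply Continuous.tendsto
      fun_prop
    rw [mul_zero] at this
    exact this.mono_left nhdsWithin_le_nhds
  have h3 : Tendsto (fun δ : ℝ => (∑' p : Nat.Primes, wt δ p) -
      Real.log (‖riemannZeta ((1 + δ : ℝ) : ℂ)‖ / ‖riemannZeta ((1 + 2 * δ : ℝ) : ℂ)‖))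
      (𝓝[>] 0) (𝓝 0) := by
    refine squeeze_zero_norm' ?_ h2
    filter_upwards [self_mem_nhdsWithin] with δ hδ
    exact mass_bound hδ
  have h4 := h3.add h1
  simp only [sub_add_cancel, zero_add] at h4
  exact h4

lemma exists_mass : ∃ δ₀ : ℝ, 0 < δ₀ ∧ ∀ δ : ℝ, 0 < δ → δ < δ₀ →
    0.65 ≤ ∑' p : Nat.Primes, wt δ p ∧ ∑' p : Nat.Primes, wt δ p ≤ 0.75 := by
  have h1 : ∀ᶠ δ : ℝ in 𝓝[>] 0, (∑' p : Nat.Primes, wt δ p) ∈ Set.Icc (0.65 : ℝ) 0.75 := by
    apply tendsto_mass.eventually_mem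
    apply Icc_mem_nhds
    · have := Real.log_two_gt_d9
      norm_num at this ⊢
      linarith
    · have := Real.log_two_lt_d9
      norm_num at this ⊢
      linarith
  rw [eventually_nhdsWithin_iff, Metric.eventually_nhds_iff] at h1
  obtain ⟨δ₀, hδ₀, h⟩ := h1
  refine ⟨δ₀, hδ₀, fun δ hδ hδ' => ?_⟩
  have := h (y := δ) (by rw [Real.dist_eq, sub_zero, abs_of_pos hδ]; exact hδ') hδ
  exact this

end Pool.Agent.MP_018e62_nt
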