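import Mathlib

/-!
Gaussian mean values of exponential sums.
-/

set_option autoImplicit false

namespace Pool.Agent.MP_018e62_nt

open Finset MeasureTheory ProbabilityTheory

/-- The Gaussian measure on the line with mean `T ^ 2` and variance `T ^ 2`. -/
noncomputable def gT (T : ℝ) : Measure ℝ := gaussianReal (T ^ 2) (T ^ 2).toNNReal

instance (T : ℝ) : IsProbabilityMeasure (gT T) := by unfold gT; infer_instance

/-- The kernel `exp (-T² λ² / 2)`. -/
noncomputable def gk (T x : ℝ) : ℝ := Real.exp (-(T ^ 2 * x ^ 2 / 2))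

lemma gk_nonneg (T x : ℝ) : 0 ≤ gk T x := (Real.exp_pos _).le

lemma gk_neg (T x : ℝ) : gk T (-x) = gk T x := by unfold gk; rw [neg_sq]

lemma gk_symm (T x y : ℝ) : gk T (x - y) = gk T (y - x) := by
  rw [← gk_neg, neg_sub]

lemma norm_charFun_gT (T x : ℝ) : ‖charFun (gT T) x‖ = gk T x := by
  unfold gT gk
  rw [charFun_gaussianReal, Complex.norm_exp]
  congr 1
  have h : (((T ^ 2).toNNReal : ℝ) : ℂ) = ((T ^ 2 : ℝ) : ℂ) := by
    rw [Real.coe_toNNReal _ (sq_nonneg T)]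
  simp only [Complex.sub_re, h]
  have h1 : ((x : ℂ) * ((T ^ 2 : ℝ) : ℂ) * Complex.I).re = 0 := by
    have : (x : ℂ) * ((T ^ 2 : ℝ) : ℂ) * Complex.I = ((x * T ^ 2 : ℝ) : ℂ) * Complex.I := by
      push_cast
      ring
    rw [this, Complex.re_ofReal_mul, Complex.I_re, mul_zero]
  have h2 : (((T ^ 2 : ℝ) : ℂ) * (x : ℂ) ^ 2 / 2).re = T ^ 2 * x ^ 2 / 2 := by
    have : ((T ^ 2 : ℝ) : ℂ) * (x : ℂ) ^ 2 / 2 = ((T ^ 2 * x ^ 2 / 2 : ℝ) : ℂ) := by
      push_cast
      ring
    rw [this, Complex.ofReal_re]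
  rw [h1, h2]
  ring

lemma charFun_zero_gT (T : ℝ) : charFun (gT T) 0 = 1 := by
  simp

/-- Gaussian mean value theorem. -/
theorem mean_value {ι : Type*} [DecidableEq ι] (T : ℝ) (s : Finset ι) (c : ι → ℂ) (l : ι → ℝ) :
    |(∫ t, ‖∑ i ∈ s, c i * Complex.exp (l i * t * Complex.I)‖ ^ 2 ∂(gT T)) -
      ∑ i ∈ s, ‖c i‖ ^ 2| ≤
    ∑ i ∈ s, ‖c i‖ ^ 2 * ∑ j ∈ s.erase i, gk T (l i - l j) := by
  have hint : ∀ x : ℝ, Integrable (fun t : ℝ => Complex.exp (x * t * Complex.I)) (gT T) := by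
    intro x
    apply Integrable.of_bound (C := 1)
    · exact (by fun_prop : Continuous fun t : ℝ => Complex.exp (x * t * Complex.I)).aestronglyMeasurable
    · refine Filter.Eventually.of_forall (fun t => ?_)
      have : ((x : ℂ) * t * Complex.I) = ((x * t : ℝ) : ℂ) * Complex.I := by push_cast; ring
      rw [this, Complex.norm_exp_ofReal_mul_I]
  have hval : ∀ x : ℝ, ∫ t, Complex.exp (x * t * Complex.I) ∂(gT T) = charFun (gT T) x := by
    intro x
    rw [charFun_apply_real]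
  -- expand the square
  have hexp : ∀ t : ℝ, ((‖∑ i ∈ s, c i * Complex.exp (l i * t * Complex.I)‖ ^ 2 : ℝ) : ℂ) =
      ∑ i ∈ s, ∑ j ∈ s, c i * (starRingEnd ℂ) (c j) *
        Complex.exp (((l i - l j : ℝ) : ℂ) * t * Complex.I) := by
    intro t
    rw [← Complex.normSq_eq_norm_sq, ← Complex.mul_conj, map_sum, Finset.sum_mul_sum]
    apply Finset.sum_congr rfl
    intro i _
    apply Finset.sum_congr rfl
    intro j _
    rw [map_mul, ← Complex.exp_conj]
    have e1 : (starRingEnd ℂ) ((l j : ℂ) * t * Complex.I) = -((l j : ℂ) * t * Complex.I) := by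
      simp
    rw [e1]
    have e2 : Complex.exp (((l i - l j : ℝ) : ℂ) * t * Complex.I) =
        Complex.exp ((l i : ℂ) * t * Complex.I) * Complex.exp (-((l j : ℂ) * t * Complex.I)) := by
      rw [← Complex.exp_add]
      congr 1
      push_cast
      ring
    rw [e2]
    ring
  have hI : ((∫ t, ‖∑ i ∈ s, c i * Complex.exp (l i * t * Complex.I)‖ ^ 2 ∂(gT T) : ℝ) : ℂ) =
      ∑ i ∈ s, ∑ j ∈ s, c i * (starRingEnd ℂ) (c j) * charFun (gT T) (l i - l j) := by
    rw [← integral_complex_ofReal]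
    simp_rw [hexp]
    rw [integral_finsetSum]
    · apply Finset.sum_congr rfl
      intro i _
      rw [integral_finsetSum]
      · apply Finset.sum_congr rfl
        intro j _
        rw [integral_const_mul, hval]
      · intro j _
        exact (hint _).const_mul _
    · intro i _
      apply integrable_finsetSum
      intro j _
      exact (hint _).const_mul _
  have hdiag : ∀ i ∈ s, ∑ j ∈ s, c i * (starRingEnd ℂ) (c j) * charFun (gT T) (l i - l j) =
      ((‖c i‖ ^ 2 : ℝ) : ℂ) +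
        ∑ j ∈ s.erase i, c i * (starRingEnd ℂ) (c j) * charFun (gT T) (l i - l j) := by
    intro i hi
    rw [← Finset.add_sum_erase s _ hi]
    congr 1
    rw [sub_self, charFun_zero_gT, mul_one, Complex.mul_conj, Complex.normSq_eq_norm_sq]
  have hE : (((∫ t, ‖∑ i ∈ s, c i * Complex.exp (l i * t * Complex.I)‖ ^ 2 ∂(gT T)) -
      ∑ i ∈ s, ‖c i‖ ^ 2 : ℝ) : ℂ) =
      ∑ i ∈ s, ∑ j ∈ s.erase i, c i * (starRingEnd ℂ) (c j) * charFun (gT T) (l i - l j) := by
    rw [Complex.ofReal_sub, hI, Finset.sum_congr rfl hdiag, Finset.sum_add_distrib]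
    push_cast
    ring
  rw [← Real.norm_eq_abs, ← Complex.norm_real, hE]
  have hterm : ∀ i ∈ s, ∀ j ∈ s.erase i,
      ‖c i * (starRingEnd ℂ) (c j) * charFun (gT T) (l i - l j)‖ ≤
        (‖c i‖ ^ 2 + ‖c j‖ ^ 2) / 2 * gk T (l i - l j) := by
    intro i _ j _
    rw [norm_mul, norm_mul, norm_charFun_gT, RCLike.norm_conj]
    apply mul_le_mul_of_nonneg_right _ (gk_nonneg _ _)
    nlinarith [sq_nonneg (‖c i‖ - ‖c j‖)]
  have hswap : ∑ i ∈ s, ∑ j ∈ s.erase i, ‖c j‖ ^ 2 * gk T (l i - l j) =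
      ∑ i ∈ s, ∑ j ∈ s.erase i, ‖c i‖ ^ 2 * gk T (l i - l j) := by
    rw [Finset.sum_comm' (t' := s) (s' := fun j => s.erase j)]
    · apply Finset.sum_congr rfl
      intro i _
      apply Finset.sum_congr rfl
      intro j _
      rw [gk_symm]
    · intro i j
      simp only [Finset.mem_erase]
      constructor
      · rintro ⟨h1, h2, h3⟩
        exact ⟨⟨fun h => h2 h.symm, h1⟩, h3⟩
      · rintro ⟨⟨h1, h2⟩, h3⟩
        exact ⟨h2, fun h => h1 h.symm, h3⟩
  calc ‖∑ i ∈ s, ∑ j ∈ s.erase i, c i * (starRingEnd ℂ) (c j) * charFun (gT T) (l i - l j)‖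
      ≤ ∑ i ∈ s, ∑ j ∈ s.erase i, (‖c i‖ ^ 2 + ‖c j‖ ^ 2) / 2 * gk T (l i - l j) := by
        refine (norm_sum_le _ _).trans (Finset.sum_le_sum fun i hi => ?_)
        exact (norm_sum_le _ _).trans (Finset.sum_le_sum fun j hj => hterm i hi j hj)
    _ = (∑ i ∈ s, ∑ j ∈ s.erase i, ‖c i‖ ^ 2 * gk T (l i - l j) +
          ∑ i ∈ s, ∑ j ∈ s.erase i, ‖c j‖ ^ 2 * gk T (l i - l j)) / 2 := by
        rw [← Finset.sum_add_distrib, Finset.sum_div]
        apply Finset.sum_congr rfl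
        intro i _
        rw [← Finset.sum_add_distrib, Finset.sum_div]
        apply Finset.sum_congr rfl
        intro j _
        ring
    _ = ∑ i ∈ s, ∑ j ∈ s.erase i, ‖c i‖ ^ 2 * gk T (l i - l j) := by
        rw [hswap]
        ring
    _ = ∑ i ∈ s, ‖c i‖ ^ 2 * ∑ j ∈ s.erase i, gk T (l i - l j) := by
        apply Finset.sum_congr rfl
        intro i _
        rw [Finset.mul_sum]

end Pool.Agent.MP_018e62_nt
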