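import Pool.Agent.MP_018e62_nt.Count

/-!
The choice of the parameters.
-/

set_option autoImplicit false

namespace Pool.Agent.MP_018e62_nt

open Finset Filter Topology

lemma exists_prime_sum_ge (Y : ℕ) (C : ℝ) :
    ∃ n : ℕ, C ≤ ∑ p ∈ (Ico Y n).filter Nat.Prime, 1 / (p : ℝ) := by
  by_contra hcon
  push Not at hcon
  apply Nat.Primes.not_summable_one_div
  have h1 : Summable (Set.indicator {p : ℕ | p.Prime} (fun n : ℕ => (1 : ℝ) / n)) := by
    apply summable_of_sum_range_le (c := ∑ p ∈ (Finset.range Y).filter Nat.Prime, 1 / (p : ℝ) + |C|)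
    · intro n
      apply Set.indicator_nonneg
      intro x _
      positivity
    · intro n
      have e1 : ∀ s : Finset ℕ, ∑ i ∈ s, Set.indicator {p : ℕ | p.Prime}
          (fun n : ℕ => (1 : ℝ) / n) i = ∑ p ∈ s.filter Nat.Prime, 1 / (p : ℝ) := by
        intro s
        rw [Finset.sum_filter]
        apply Finset.sum_congr rfl
        intro i _
        simp [Set.indicator_apply]
      rw [e1]
      have hsub : (Finset.range n).filter Nat.Prime ⊆
          (Finset.range Y).filter Nat.Prime ∪ (Ico Y n).filter Nat.Prime := by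
        intro p hp
        rw [Finset.mem_filter, Finset.mem_range] at hp
        rw [Finset.mem_union, Finset.mem_filter, Finset.mem_filter, Finset.mem_range,
          Finset.mem_Ico]
        by_cases h : p < Y
        · exact Or.inl ⟨h, hp.2⟩
        · exact Or.inr ⟨⟨by omega, hp.1⟩, hp.2⟩
      calc ∑ p ∈ (Finset.range n).filter Nat.Prime, 1 / (p : ℝ)
          ≤ ∑ p ∈ (Finset.range Y).filter Nat.Prime ∪ (Ico Y n).filter Nat.Prime, 1 / (p : ℝ) := by
            apply Finset.sum_le_sum_of_subset_of_nonneg hsub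
            intro p _ _
            positivity
        _ ≤ ∑ p ∈ (Finset.range Y).filter Nat.Prime, 1 / (p : ℝ) +
            ∑ p ∈ (Ico Y n).filter Nat.Prime, 1 / (p : ℝ) := by
            rw [← Finset.sum_union_inter]
            have : 0 ≤ ∑ p ∈ (Finset.range Y).filter Nat.Prime ∩ (Ico Y n).filter Nat.Prime,
                1 / (p : ℝ) := Finset.sum_nonneg fun p _ => by positivity
            linarith
        _ ≤ _ := by
            have := hcon n
            have := le_abs_self C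
            linarith
  exact (summable_subtype_iff_indicator (f := fun n : ℕ => (1 : ℝ) / n)
    (s := {p : ℕ | p.Prime})).mpr h1

/-- The end of the first class. -/
lemma exists_class {Y : ℕ} (hY : 1 ≤ Y) {c : ℝ} (hc : 0 < c) :
    ∃ Y' : ℕ, Y ≤ Y' ∧ c ≤ ∑ p ∈ (Ico Y Y').filter Nat.Prime, 1 / (p : ℝ) ∧
      ∑ p ∈ (Ico Y Y').filter Nat.Prime, 1 / (p : ℝ) ≤ c + 1 / (Y : ℝ) := by
  classical
  have hex := exists_prime_sum_ge Y c
  set n := Nat.find hex with hn
  have h1 : c ≤ ∑ p ∈ (Ico Y n).filter Nat.Prime, 1 / (p : ℝ) := Nat.find_spec hex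
  have hYn : Y < n := by
    by_contra hcon
    push Not at hcon
    rw [Finset.Ico_eq_empty (by omega)] at h1
    simp at h1
    linarith
  obtain ⟨k, hk⟩ : ∃ k, n = k + 1 := ⟨n - 1, by omega⟩
  have h2 : ∑ p ∈ (Ico Y k).filter Nat.Prime, 1 / (p : ℝ) < c := by
    have := Nat.find_min hex (m := k) (by omega)
    push Not at this
    exact this
  refine ⟨n, hYn.le, h1, ?_⟩
  have hYk : Y ≤ k := by omega
  rw [hk, Finset.sum_filter, Finset.sum_Ico_succ_top hYk, ← Finset.sum_filter]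
  have h3 : (if Nat.Prime k then 1 / (k : ℝ) else 0) ≤ 1 / (Y : ℝ) := by
    have hY0 : (0 : ℝ) < Y := by exact_mod_cast hY
    have hYk' : (Y : ℝ) ≤ k := by exact_mod_cast hYk
    split_ifs
    · exact one_div_le_one_div_of_le hY0 hYk'
    · positivity
  linarith

lemma tendsto_rpow_sum (s : Finset ℕ) (hs : ∀ p ∈ s, p.Prime) :
    Tendsto (fun δ : ℝ => ∑ p ∈ s, (p : ℝ) ^ (-(1 + δ))) (𝓝[>] 0)
      (𝓝 (∑ p ∈ s, 1 / (p : ℝ))) := by
  apply tendsto_finsetSum
  intro p hp
  have hp0 : (0 : ℝ) < p := by exact_mod_cast (hs p hp).pos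
  have h1 : Tendsto (fun δ : ℝ => (p : ℝ) ^ (-(1 + δ))) (𝓝 0) (𝓝 ((p : ℝ) ^ (-(1 + 0 : ℝ)))) := by
    apply Continuous.tendsto
    exact Continuous.rpow continuous_const (by fun_prop) (fun x => Or.inl hp0.ne')
  rw [add_zero, Real.rpow_neg_one, ← one_div] at h1
  exact h1.mono_left nhdsWithin_le_nhds

theorem exists_setup {m : ℕ} (hm : 1 ≤ m) : ∃ (r t : ℝ) (N Y Y' : ℕ) (ε : ℝ),
    Setup ((1 / 2) ^ (2 * m - 1)) r t N Y Y' ε ∧
      0.98 * (1 / 2 : ℝ) ^ (2 * m) ≤ ((2 : ℝ) ^ (-r)) ^ (2 * m) := by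
  set τ : ℝ := (1 / 2) ^ (2 * m - 1) with hτ
  have hτ0 : 0 < τ := by positivity
  have hτ1 : τ ≤ 1 / 2 := by
    calc τ ≤ (1 / 2) ^ 1 := pow_le_pow_of_le_one (by norm_num) (by norm_num) (by omega)
      _ = 1 / 2 := pow_one _
  obtain ⟨N₁, hN₁3, hN₁⟩ := exists_t_windows
  -- the constant
  set κ : ℝ := 28 / τ with hκ
  have hκ1 : 1 ≤ κ := by
    rw [hκ, le_div_iff₀ hτ0]
    linarith
  have hκexp : Real.exp (-κ) ≤ τ / 28 := by
    rw [Real.exp_neg]
    have h1 : κ ≤ Real.exp κ := by linarith [Real.add_one_le_exp κ]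
    rw [inv_le_comm₀ (Real.exp_pos _) (by positivity), inv_div]
    exact h1
  set ρs : ℝ := 0.05 * Real.exp (-(GG * (κ + 1))) with hρs
  have hρs0 : 0 < ρs := by positivity
  -- choice of Y
  obtain ⟨Y, hYge⟩ := exists_nat_ge (3 + 36 / ρs ^ 2 + 3 / ρs + 500 / τ)
  have hY3 : 3 ≤ Y := by
    have h1 : (3 : ℝ) ≤ Y := by
      have : 0 ≤ 36 / ρs ^ 2 + 3 / ρs + 500 / τ := by positivity
      linarith
    exact_mod_cast h1
  have hY0 : (0 : ℝ) < Y := by
    have : 0 < Y := by omega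
    exact_mod_cast this
  have hYa : 36 / (Y : ℝ) ≤ ρs ^ 2 := by
    have h1 : 36 / ρs ^ 2 ≤ Y := by
      have : 0 ≤ 3 / ρs + 500 / τ := by positivity
      linarith
    rw [div_le_iff₀ (by positivity)] at h1
    rw [div_le_iff₀ hY0]
    linarith
  have hYb : 3 / (Y : ℝ) ≤ ρs := by
    have h1 : 3 / ρs ≤ Y := by
      have : 0 ≤ 36 / ρs ^ 2 + 500 / τ := by positivity
      linarith
    rw [div_le_iff₀ (by positivity)] at h1
    rw [div_le_iff₀ hY0]
    linarith
  have hYc : 500 / (Y : ℝ) ≤ τ := by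
    have h1 : 500 / τ ≤ Y := by
      have : 0 ≤ 36 / ρs ^ 2 + 3 / ρs := by positivity
      linarith
    rw [div_le_iff₀ (by positivity)] at h1
    rw [div_le_iff₀ hY0]
    linarith
  have hYd : 1 / (Y : ℝ) ≤ 0.002 * τ := by
    have e : 500 / (Y : ℝ) = 500 * (1 / (Y : ℝ)) := by ring
    rw [e] at hYc
    norm_num at hYc ⊢
    linarith
  have hYe : 5 / (Y : ℝ) ≤ 0.01 * τ := by
    have e : 5 / (Y : ℝ) = 5 * (1 / (Y : ℝ)) := by ring
    rw [e]
    norm_num at hYd ⊢
    linarith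
  -- choice of Y'
  obtain ⟨Y', hYY', hc1, hc2⟩ := exists_class (Y := Y) (by omega) (c := 1.15 * τ) (by positivity)
  -- choice of P
  obtain ⟨P, hP⟩ := exists_prime_sum_ge Y' 10
  have hY'P : Y' ≤ P := by
    by_contra hcon
    push Not at hcon
    rw [Finset.Ico_eq_empty (by omega)] at hP
    simp at hP
    linarith
  -- the conditions on δ
  have ev1 : ∀ᶠ δ : ℝ in 𝓝[>] 0, (∑ p ∈ (Ico Y Y').filter Nat.Prime, (p : ℝ) ^ (-(1 + δ))) ∈
      Set.Icc (1.1 * τ) (1.2 * τ) := by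
    apply (tendsto_rpow_sum _ fun p hp => (Finset.mem_filter.mp hp).2).eventually_mem
    apply Icc_mem_nhds
    · norm_num at hc1 ⊢
      linarith
    · norm_num at hc2 hYd ⊢
      linarith
  have ev2 : ∀ᶠ δ : ℝ in 𝓝[>] 0, 9 < ∑ p ∈ (Ico Y' P).filter Nat.Prime, (p : ℝ) ^ (-(1 + δ)) := by
    apply (tendsto_rpow_sum _ fun p hp => (Finset.mem_filter.mp hp).2).eventually_const_lt
    linarith
  have ev3 : ∀ᶠ δ : ℝ in 𝓝[>] 0, δ < 1 / (4 * (GG : ℝ) ^ 2) := by
    apply (tendsto_id.mono_left nhdsWithin_le_nhds).eventually_lt_const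
    have h1 : (0 : ℝ) < GG := by rw [GG_cast]; norm_num
    positivity
  have ev4 : ∀ᶠ δ : ℝ in 𝓝[>] 0, (max (max N₁ P) (10 ^ 12) : ℕ) ≤ Real.exp (κ / δ) := by
    have h1 : Tendsto (fun δ : ℝ => κ / δ) (𝓝[>] 0) atTop := by
      have := tendsto_inv_nhdsGT_zero (𝕜 := ℝ)
      simp only [div_eq_mul_inv]
      exact this.const_mul_atTop (by linarith)
    exact (Real.tendsto_exp_atTop.comp h1).eventually_ge_atTop _
  have ev5 : ∀ᶠ δ : ℝ in 𝓝[>] 0,
      0.98 * (1 / 2 : ℝ) ^ (2 * m) < ((2 : ℝ) ^ (-(1 + δ))) ^ (2 * m) := by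
    have h1 : Tendsto (fun δ : ℝ => ((2 : ℝ) ^ (-(1 + δ))) ^ (2 * m)) (𝓝 0)
        (𝓝 (((2 : ℝ) ^ (-(1 + 0 : ℝ))) ^ (2 * m))) := by
      apply Continuous.tendsto
      apply Continuous.pow
      exact Continuous.rpow continuous_const (by fun_prop) (fun x => Or.inl (by norm_num))
    rw [add_zero, Real.rpow_neg_one, ← one_div] at h1
    apply (h1.mono_left nhdsWithin_le_nhds).eventually_const_lt
    have h2 : (0 : ℝ) < (1 / 2) ^ (2 * m) := by positivity
    linarith
  have ev6 : ∀ᶠ δ : ℝ in 𝓝[>] 0, δ < 1 / 2 :=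
    (tendsto_id.mono_left nhdsWithin_le_nhds).eventually_lt_const (by norm_num)
  obtain ⟨δ, h1, h2, h3, h4, h5, h6, hδ0⟩ :=
    (ev1.and (ev2.and (ev3.and (ev4.and (ev5.and (ev6.and self_mem_nhdsWithin)))))).exists
  have hδ : 0 < δ := hδ0
  set b : ℕ := ⌈Real.exp (κ / δ)⌉₊ with hb
  have hb1 : Real.exp (κ / δ) ≤ b := Nat.le_ceil _
  have hb2 : (b : ℝ) < Real.exp (κ / δ) + 1 := Nat.ceil_lt_add_one (Real.exp_pos _).le
  have hbmax : max (max N₁ P) (10 ^ 12) ≤ b := by
    have := h4.trans hb1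
    exact_mod_cast this
  have hb0 : (0 : ℝ) < b := lt_of_lt_of_le (Real.exp_pos _) hb1
  have hlogb : κ / δ ≤ Real.log b := by
    rw [Real.le_log_iff_exp_le hb0]
    exact hb1
  set N : ℕ := b + 1 with hN
  have hN0 : (0 : ℝ) < N := by positivity
  -- the radius
  have hrho : ρs ≤ rho (1 + δ) N 0 := by
    unfold rho
    rw [hρs]
    apply mul_le_mul_of_nonneg_left _ (by norm_num)
    have e1 : yy N (0 + 1) = N ^ GG := by
      rw [yy_succ, yy_zero]
    rw [e1, Nat.cast_pow, Real.rpow_def_of_pos (by positivity), Real.log_pow]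
    apply Real.exp_le_exp.mpr
    have h7 : Real.log N ≤ (κ + 1) / δ := by
      rw [Real.log_le_iff_le_exp hN0]
      have e2 : Real.exp ((κ + 1) / δ) = Real.exp (κ / δ) * Real.exp (1 / δ) := by
        rw [← Real.exp_add, ← add_div]
      have e3 : 3 ≤ Real.exp (1 / δ) := by
        have h8 : 2 ≤ 1 / δ := by
          rw [le_div_iff₀ hδ]
          linarith
        linarith [Real.add_one_le_exp (1 / δ)]
      have e4 : 1 ≤ Real.exp (κ / δ) := Real.one_le_exp (by positivity)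
      have e5 := mul_le_mul_of_nonneg_left e3 (Real.exp_pos (κ / δ)).le
      have e6 : (N : ℝ) = b + 1 := by
        rw [hN]
        push_cast
        rfl
      rw [e2, e6]
      linarith
    have h8 : δ * Real.log N ≤ κ + 1 := by
      calc δ * Real.log N ≤ δ * ((κ + 1) / δ) := mul_le_mul_of_nonneg_left h7 hδ.le
        _ = κ + 1 := by field_simp
    have h9 : (0 : ℝ) ≤ GG := Nat.cast_nonneg _
    have h10 : (GG : ℝ) * (δ * Real.log N) ≤ GG * (κ + 1) := mul_le_mul_of_nonneg_left h8 h9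
    have e5 : (GG : ℝ) * Real.log N * -(1 + δ - 1) = -(GG * (δ * Real.log N)) := by ring
    rw [e5]
    linarith
  -- choice of ε and t
  set ε : ℝ := 0.01 * τ / (4 * N) with hε
  have hε0 : 0 < ε := by positivity
  obtain ⟨t, ht1, ht2⟩ := hN₁ N (by
    have : N₁ ≤ max (max N₁ P) (10 ^ 12) := by simp
    omega) (th Y Y') (norm_th Y Y') ε hε0
  refine ⟨1 + δ, t, N, Y, Y', ε, ⟨⟨by linarith, ?_, ?_, fun i => (ht2 i).1, fun i => (ht2 i).2⟩,
    hτ0, hτ1, hY3, hYY', ?_, hε0, ?_, ht1, h1.1, h1.2, ?_, ?_, ?_, hYb.trans hrho, hYe⟩, h5.le⟩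
  · have h7 : (0 : ℝ) < (GG : ℝ) ^ 2 := by rw [GG_cast]; norm_num
    rw [lt_div_iff₀ (by positivity)] at h3
    have e : (1 : ℝ) + δ - 1 = δ := by ring
    rw [e]
    linarith
  · have : 10 ^ 12 ≤ max (max N₁ P) (10 ^ 12) := le_max_right _ _
    omega
  · have : P ≤ max (max N₁ P) (10 ^ 12) := le_trans (le_max_right _ _) (le_max_left _ _)
    omega
  · rw [hε]
    apply le_of_eq
    field_simp
  · refine h2.le.trans ?_
    apply Finset.sum_le_sum_of_subset_of_nonneg
    · apply Finset.filter_subset_filter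
      apply Finset.Ico_subset_Ico_right
      have : P ≤ max (max N₁ P) (10 ^ 12) := le_trans (le_max_right _ _) (le_max_left _ _)
      omega
    · intro p _ _
      positivity
  · intro Z
    have hb4 : 2 ≤ b := by
      have : 10 ^ 12 ≤ max (max N₁ P) (10 ^ 12) := le_max_right _ _
      omega
    have e : Ico N Z = Ioc b (Z - 1) := by
      ext k
      rw [Finset.mem_Ico, Finset.mem_Ioc]
      omega
    rw [e]
    refine (sum_prime_rpow_le hδ b (Z - 1) hb4).trans ?_
    have hpow : (b : ℝ) ^ (-δ) ≤ τ / 28 := by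
      rw [Real.rpow_def_of_pos hb0]
      refine le_trans (Real.exp_le_exp.mpr ?_) hκexp
      have : κ / δ * δ ≤ Real.log b * δ := mul_le_mul_of_nonneg_right hlogb hδ.le
      have e2 : κ / δ * δ = κ := by field_simp
      rw [e2] at this
      linarith
    have hlogb' : 1 / δ ≤ Real.log b := by
      refine le_trans ?_ hlogb
      apply div_le_div_of_nonneg_right hκ1 hδ.le
    have h40 := log_four_nonneg
    have h4' := log_four_le
    calc Real.log 4 * (1 + 1 / δ) * (b : ℝ) ^ (-δ) / Real.log b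
        ≤ 1.387 * (1 + 1 / δ) * (τ / 28) / (1 / δ) := by
          gcongr
      _ = 1.387 * (δ + 1) * (τ / 28) := by
          field_simp
      _ ≤ 0.1 * τ := by
          have h7 : δ * τ ≤ 1 / 2 * τ := mul_le_mul_of_nonneg_right h6.le hτ0.le
          norm_num
          linarith
  · refine hYa.trans ?_
    exact pow_le_pow_left₀ hρs0.le hrho 2

end Pool.Agent.MP_018e62_nt
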