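import Mathlib

/-!
Elementary (Chebyshev type) bounds for sums over primes.
-/

set_option autoImplicit false

namespace Pool.Agent.MP_018e62_nt

open Finset

/-- `log k` if `k` is prime and `0` otherwise. -/
noncomputable def lp (k : ℕ) : ℝ := if k.Prime then Real.log k else 0

lemma lp_nonneg (k : ℕ) : 0 ≤ lp k := by
  unfold lp
  split_ifs
  · exact Real.log_natCast_nonneg k
  · exact le_rfl

lemma sum_lp_le (n : ℕ) : ∑ k ∈ Ioc 0 n, lp k ≤ Real.log 4 * n := by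
  have h := Chebyshev.theta_le_log4_mul_x (x := n) (Nat.cast_nonneg n)
  unfold Chebyshev.theta at h
  rw [Nat.floor_natCast, Finset.sum_filter] at h
  exact h

/-- Summation by parts. -/
lemma sbp (a w : ℕ → ℝ) (C : ℝ) (ha : ∀ k, 0 ≤ a k)
    (hA : ∀ n : ℕ, ∑ k ∈ Ioc 0 n, a k ≤ C * n) (Y : ℕ)
    (hw : ∀ k, Y < k → w (k + 1) ≤ w k) (hw0 : ∀ k, Y < k → 0 ≤ w k) (Z : ℕ) (hYZ : Y ≤ Z) :
    ∑ k ∈ Ioc Y Z, a k * w k ≤ C * (Y * w (Y + 1) + ∑ k ∈ Ioc Y Z, w k) := by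
  have hC : 0 ≤ C := by
    have h1 := hA 1
    have h2 : 0 ≤ ∑ k ∈ Ioc 0 1, a k := sum_nonneg fun k _ => ha k
    simpa using h2.trans h1
  rcases Nat.eq_or_lt_of_le hYZ with h | h
  · subst h
    simp only [Ioc_self, sum_empty, add_zero]
    have := hw0 (Y + 1) (Nat.lt_succ_self Y)
    positivity
  · have key : ∀ Z, Y + 1 ≤ Z → ∑ k ∈ Ioc Y Z, a k * w k ≤
        (∑ k ∈ Ioc 0 Z, a k - C * Z) * w Z + C * (Y * w (Y + 1) + ∑ k ∈ Ioc Y Z, w k) := by
      intro Z hZ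
      induction Z, hZ using Nat.le_induction with
      | base =>
        have e : Ioc Y (Y + 1) = {Y + 1} := by
          ext k
          simp only [mem_Ioc, mem_singleton]
          omega
        rw [e, sum_singleton, sum_singleton]
        have h1 : a (Y + 1) ≤ ∑ k ∈ Ioc 0 (Y + 1), a k :=
          single_le_sum (f := a) (fun k _ => ha k) (by simp)
        have h2 := hw0 (Y + 1) (Nat.lt_succ_self Y)
        push_cast
        nlinarith
      | succ Z hZ ih =>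
        have e : Ioc Y (Z + 1) = insert (Z + 1) (Ioc Y Z) := by
          ext k
          simp only [mem_Ioc, mem_insert]
          omega
        have e0 : Ioc 0 (Z + 1) = insert (Z + 1) (Ioc 0 Z) := by
          ext k
          simp only [mem_Ioc, mem_insert]
          omega
        have hn : Z + 1 ∉ Ioc Y Z := by simp
        have hn0 : Z + 1 ∉ Ioc 0 Z := by simp
        rw [e, sum_insert hn, sum_insert hn, e0, sum_insert hn0]
        have h1 := hw Z (by omega)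
        have h2 := hA Z
        have h3 : (∑ k ∈ Ioc 0 Z, a k - C * Z) * w Z ≤ (∑ k ∈ Ioc 0 Z, a k - C * Z) * w (Z + 1) :=
          mul_le_mul_of_nonpos_left h1 (by linarith)
        push_cast
        nlinarith
    have h1 := key Z h
    have h2 := hA Z
    have h3 : (∑ k ∈ Ioc 0 Z, a k - C * Z) * w Z ≤ 0 :=
      mul_nonpos_of_nonpos_of_nonneg (by linarith) (hw0 Z h)
    linarith

lemma sum_inv_le (n : ℕ) : ∑ k ∈ Ioc 0 n, (1 / (k : ℝ)) ≤ 1 + Real.log n := by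
  have h := harmonic_le_one_add_log n
  rw [harmonic_eq_sum_Icc] at h
  push_cast at h
  have e : Ioc 0 n = Icc 1 n := by
    ext k
    simp only [mem_Ioc, mem_Icc]
    omega
  rw [e]
  simpa [one_div] using h

/-- `∑_{p ≤ n} log p / p ≤ log 4 (1 + log n)`. -/
lemma sum_lp_div_le (n : ℕ) : ∑ k ∈ Ioc 0 n, lp k / k ≤ Real.log 4 * (1 + Real.log n) := by
  have h := sbp lp (fun k => 1 / (k : ℝ)) (Real.log 4) lp_nonneg sum_lp_le 0 (by
    intro k hk
    have : (0 : ℝ) < k := by exact_mod_cast hk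
    apply one_div_le_one_div_of_le this
    push_cast
    linarith) (by intro k _; positivity) n (Nat.zero_le n)
  have h4 : 0 ≤ Real.log 4 := Real.log_nonneg (by norm_num)
  calc ∑ k ∈ Ioc 0 n, lp k / k = ∑ k ∈ Ioc 0 n, lp k * (1 / (k : ℝ)) := by
        apply sum_congr rfl
        intro k _
        ring
    _ ≤ Real.log 4 * (((0 : ℕ) : ℝ) * (1 / ((0 + 1 : ℕ) : ℝ)) + ∑ k ∈ Ioc 0 n, (1 / (k : ℝ))) := h
    _ ≤ Real.log 4 * (1 + Real.log n) := by
        apply mul_le_mul_of_nonneg_left _ h4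
        have := sum_inv_le n
        simpa using this

lemma rpow_step {δ : ℝ} (hδ : 0 < δ) (k : ℕ) (hk : 1 ≤ k) :
    ((k + 1 : ℕ) : ℝ) ^ (-(1 + δ)) ≤ ((k : ℝ) ^ (-δ) - ((k + 1 : ℕ) : ℝ) ^ (-δ)) / δ := by
  have hk0 : (0 : ℝ) < k := by exact_mod_cast hk
  have hK : (0 : ℝ) < ((k + 1 : ℕ) : ℝ) := by positivity
  set K : ℝ := ((k + 1 : ℕ) : ℝ) with hKdef
  have hKk : (k : ℝ) = K * (1 - 1 / K) := by
    have : K = k + 1 := by rw [hKdef]; push_cast; ring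
    field_simp
    linarith
  have hK1 : 1 / K < 1 := by
    rw [div_lt_one hK, hKdef]
    push_cast
    linarith
  have h1 : (k : ℝ) ^ (-δ) = K ^ (-δ) * (1 - 1 / K) ^ (-δ) := by
    rw [hKk, Real.mul_rpow hK.le (by linarith)]
  have h2 : 1 + δ * (1 / K) ≤ (1 - 1 / K) ^ (-δ) := by
    rw [Real.rpow_def_of_pos (by linarith)]
    have h3 := Real.log_le_sub_one_of_pos (x := 1 - 1 / K) (by linarith)
    have h4 := Real.add_one_le_exp (Real.log (1 - 1 / K) * -δ)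
    nlinarith
  have h5 : K ^ (-(1 + δ)) = K ^ (-δ) * (1 / K) := by
    rw [one_div, ← Real.rpow_neg_one K, ← Real.rpow_add hK]
    congr 1
    ring
  rw [le_div_iff₀ hδ, h1, h5]
  have h6 : 0 ≤ K ^ (-δ) := Real.rpow_nonneg hK.le _
  nlinarith

lemma sum_rpow_le {δ : ℝ} (hδ : 0 < δ) (Y Z : ℕ) (hY : 1 ≤ Y) (hYZ : Y ≤ Z) :
    ∑ k ∈ Ioc Y Z, (k : ℝ) ^ (-(1 + δ)) ≤ ((Y : ℝ) ^ (-δ) - (Z : ℝ) ^ (-δ)) / δ := by
  induction Z, hYZ using Nat.le_induction with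
  | base => simp
  | succ Z hZ ih =>
    have e : Ioc Y (Z + 1) = insert (Z + 1) (Ioc Y Z) := by
      ext k
      simp only [mem_Ioc, mem_insert]
      omega
    rw [e, sum_insert (by simp)]
    have := rpow_step hδ Z (by omega)
    have e2 : ((Y : ℝ) ^ (-δ) - ((Z + 1 : ℕ) : ℝ) ^ (-δ)) / δ =
      ((Z : ℝ) ^ (-δ) - ((Z + 1 : ℕ) : ℝ) ^ (-δ)) / δ + ((Y : ℝ) ^ (-δ) - (Z : ℝ) ^ (-δ)) / δ := by
      ring
    rw [e2]
    exact add_le_add this ih

/-- Tail bound `∑_{Y < p ≤ Z} p ^ (-1-δ) ≤ log 4 (1 + 1/δ) Y ^ (-δ) / log Y`. -/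
lemma sum_prime_rpow_le {δ : ℝ} (hδ : 0 < δ) (Y Z : ℕ) (hY : 2 ≤ Y) :
    ∑ k ∈ (Ioc Y Z).filter Nat.Prime, (k : ℝ) ^ (-(1 + δ)) ≤
      Real.log 4 * (1 + 1 / δ) * (Y : ℝ) ^ (-δ) / Real.log Y := by
  have hY0 : (0 : ℝ) < Y := by positivity
  have hlogY : 0 < Real.log Y := Real.log_pos (by exact_mod_cast (by omega : 1 < Y))
  have h4 : 0 ≤ Real.log 4 := Real.log_nonneg (by norm_num)
  rcases le_total Y Z with hYZ | hYZ
  swap
  · rw [Ioc_eq_empty (by omega), filter_empty, sum_empty]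
    positivity
  have h := sbp lp (fun k => (k : ℝ) ^ (-(1 + δ))) (Real.log 4) lp_nonneg sum_lp_le Y (by
    intro k hk
    have : (0 : ℝ) < k := by exact_mod_cast (by omega : 0 < k)
    apply Real.rpow_le_rpow_of_nonpos this
    · push_cast; linarith
    · linarith) (by intro k _; positivity) Z hYZ
  have h1 : ∑ k ∈ (Ioc Y Z).filter Nat.Prime, (k : ℝ) ^ (-(1 + δ)) ≤
      (∑ k ∈ Ioc Y Z, lp k * (k : ℝ) ^ (-(1 + δ))) / Real.log Y := by
    rw [le_div_iff₀ hlogY, sum_mul, sum_filter]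
    apply sum_le_sum
    intro k hk
    rw [mem_Ioc] at hk
    have hk0 : (0 : ℝ) ≤ (k : ℝ) ^ (-(1 + δ)) := by positivity
    unfold lp
    split_ifs with hp
    · rw [mul_comm]
      apply mul_le_mul_of_nonneg_right _ hk0
      apply Real.log_le_log hY0
      exact_mod_cast hk.1.le
    · simp
  refine h1.trans ?_
  apply div_le_div_of_nonneg_right _ hlogY.le
  refine h.trans ?_
  rw [mul_assoc]
  apply mul_le_mul_of_nonneg_left _ h4
  have h2 : (Y : ℝ) * ((Y + 1 : ℕ) : ℝ) ^ (-(1 + δ)) ≤ (Y : ℝ) ^ (-δ) := by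
    have h3 : ((Y + 1 : ℕ) : ℝ) ^ (-(1 + δ)) ≤ (Y : ℝ) ^ (-(1 + δ)) := by
      apply Real.rpow_le_rpow_of_nonpos hY0
      · push_cast; linarith
      · linarith
    calc (Y : ℝ) * ((Y + 1 : ℕ) : ℝ) ^ (-(1 + δ)) ≤ (Y : ℝ) * (Y : ℝ) ^ (-(1 + δ)) := by gcongr
      _ = (Y : ℝ) ^ (-δ) := by
          nth_rewrite 1 [← Real.rpow_one (Y : ℝ)]
          rw [← Real.rpow_add hY0]
          congr 1
          ring
  have h3 := sum_rpow_le hδ Y Z (by omega) hYZ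
  have h5 : ((Y : ℝ) ^ (-δ) - (Z : ℝ) ^ (-δ)) / δ ≤ (Y : ℝ) ^ (-δ) / δ := by
    apply div_le_div_of_nonneg_right _ hδ.le
    have : 0 ≤ (Z : ℝ) ^ (-δ) := by positivity
    linarith
  calc (Y : ℝ) * ((Y + 1 : ℕ) : ℝ) ^ (-(1 + δ)) + ∑ k ∈ Ioc Y Z, (k : ℝ) ^ (-(1 + δ))
      ≤ (Y : ℝ) ^ (-δ) + (Y : ℝ) ^ (-δ) / δ := add_le_add h2 (h3.trans h5)
    _ = (1 + 1 / δ) * (Y : ℝ) ^ (-δ) := by ring

end Pool.Agent.MP_018e62_nt
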