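import Pool.Agent.MP_018e62_nt.MeanValue
import Pool.Agent.MP_018e62_nt.PrimeSums

/-!
Bounds for sums of the Gaussian kernel over the logarithms of the integers.
-/

set_option autoImplicit false

namespace Pool.Agent.MP_018e62_nt

open Finset MeasureTheory ProbabilityTheory

lemma sum_ge_part {z T : ℝ} (hz : 0 < z) (hT : 2 ≤ T) (W : Finset ℕ) (hW : ∀ q ∈ W, z ≤ (q : ℝ)) :
    ∑ q ∈ W, Real.exp (-(T * (Real.log q - Real.log z))) ≤ 1 + z / (T - 1) := by
  set Y := ⌈z⌉₊ with hY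
  have hY1 : 1 ≤ Y := Nat.one_le_ceil_iff.mpr hz
  have hY0 : (0 : ℝ) < Y := by exact_mod_cast hY1
  have hzY : z ≤ Y := Nat.le_ceil z
  obtain ⟨Z, hZ⟩ : ∃ Z : ℕ, ∀ q ∈ W, q ≤ Z := ⟨W.sup id, fun q hq => Finset.le_sup (f := id) hq⟩
  have hterm : ∀ q : ℕ, 1 ≤ q → Real.exp (-(T * (Real.log q - Real.log z))) =
      z ^ T * (q : ℝ) ^ (-(1 + (T - 1))) := by
    intro q hq
    have hq0 : (0 : ℝ) < q := by exact_mod_cast hq
    rw [Real.rpow_def_of_pos hz, Real.rpow_def_of_pos hq0, ← Real.exp_add]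
    congr 1
    ring
  have hsub : W ⊆ insert Y (Ioc Y (max Y Z)) := by
    intro q hq
    rw [mem_insert, mem_Ioc]
    have h1 : Y ≤ q := Nat.ceil_le.mpr (hW q hq)
    have h2 := hZ q hq
    rcases Nat.eq_or_lt_of_le h1 with h | h
    · exact Or.inl h.symm
    · exact Or.inr ⟨h, h2.trans (le_max_right _ _)⟩
  have hzT : 0 ≤ z ^ T := by positivity
  calc ∑ q ∈ W, Real.exp (-(T * (Real.log q - Real.log z)))
      ≤ ∑ q ∈ insert Y (Ioc Y (max Y Z)), Real.exp (-(T * (Real.log q - Real.log z))) :=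
        sum_le_sum_of_subset_of_nonneg hsub (fun _ _ _ => (Real.exp_pos _).le)
    _ = Real.exp (-(T * (Real.log Y - Real.log z))) +
          ∑ q ∈ Ioc Y (max Y Z), Real.exp (-(T * (Real.log q - Real.log z))) := by
        rw [sum_insert (by simp)]
    _ ≤ 1 + z ^ T * ((Y : ℝ) ^ (-(T - 1)) / (T - 1)) := by
        refine add_le_add ?_ ?_
        · rw [Real.exp_le_one_iff]
          have := Real.log_le_log hz hzY
          nlinarith
        · rw [sum_congr rfl (g := fun q : ℕ => z ^ T * (q : ℝ) ^ (-(1 + (T - 1))))]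
          · rw [← mul_sum]
            apply mul_le_mul_of_nonneg_left _ hzT
            refine (sum_rpow_le (by linarith) Y (max Y Z) hY1 (le_max_left _ _)).trans ?_
            apply div_le_div_of_nonneg_right _ (by linarith)
            have : 0 ≤ (((max Y Z : ℕ)) : ℝ) ^ (-(T - 1)) := by positivity
            linarith
          · intro q hq
            rw [mem_Ioc] at hq
            exact hterm q (by omega)
    _ ≤ 1 + z / (T - 1) := by
        have h1 : z ^ T * (Y : ℝ) ^ (-(T - 1)) ≤ z := by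
          have h2 : (Y : ℝ) ^ (-(T - 1)) ≤ z ^ (-(T - 1)) :=
            Real.rpow_le_rpow_of_nonpos hz hzY (by linarith)
          calc z ^ T * (Y : ℝ) ^ (-(T - 1)) ≤ z ^ T * z ^ (-(T - 1)) := by gcongr
            _ = z := by
                rw [← Real.rpow_add hz]
                have : T + -(T - 1) = 1 := by ring
                rw [this, Real.rpow_one]
        have h3 : z ^ T * ((Y : ℝ) ^ (-(T - 1)) / (T - 1)) =
            (z ^ T * (Y : ℝ) ^ (-(T - 1))) / (T - 1) := by ring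
        rw [h3]
        have : 0 ≤ T - 1 := by linarith
        gcongr

lemma rpow_step' {T : ℝ} (hT : 0 ≤ T) (k : ℕ) (hk : 1 ≤ k) :
    (k : ℝ) ^ T ≤ (((k + 1 : ℕ) : ℝ) ^ (T + 1) - (k : ℝ) ^ (T + 1)) / (T + 1) := by
  have hk0 : (0 : ℝ) < k := by exact_mod_cast hk
  rw [le_div_iff₀ (by linarith)]
  have h1 : ((k + 1 : ℕ) : ℝ) = k * (1 + 1 / k) := by
    push_cast
    field_simp
  have h2 : 1 + (T + 1) * (1 / (k : ℝ)) ≤ (1 + 1 / (k : ℝ)) ^ (T + 1) :=
    one_add_mul_self_le_rpow_one_add (by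
      have : 0 ≤ 1 / (k : ℝ) := by positivity
      linarith) (by linarith)
  have h3 : (k : ℝ) ^ (T + 1) = (k : ℝ) ^ T * k := by
    rw [Real.rpow_add hk0, Real.rpow_one]
  rw [h1, Real.mul_rpow hk0.le (by positivity), h3]
  have h4 : 0 ≤ (k : ℝ) ^ T := by positivity
  have h5 : (k : ℝ) ^ T * k * (1 + (T + 1) * (1 / (k : ℝ))) ≤
      (k : ℝ) ^ T * k * (1 + 1 / (k : ℝ)) ^ (T + 1) := by gcongr
  have h6 : (k : ℝ) ^ T * k * (1 + (T + 1) * (1 / (k : ℝ))) =
      (k : ℝ) ^ T * k + (k : ℝ) ^ T * (T + 1) := by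
    field_simp
  linarith

lemma sum_rpow_le' {T : ℝ} (hT : 0 ≤ T) (X : ℕ) :
    ∑ k ∈ Ico 1 X, (k : ℝ) ^ T ≤ (X : ℝ) ^ (T + 1) / (T + 1) := by
  rcases Nat.lt_or_ge X 1 with h | h
  · rw [Ico_eq_empty (by omega), sum_empty]
    positivity
  induction X, h using Nat.le_induction with
  | base => simp; positivity
  | succ n hn ih =>
    rw [Finset.sum_Ico_succ_top hn]
    have := rpow_step' hT n hn
    have e : ((n + 1 : ℕ) : ℝ) ^ (T + 1) / (T + 1) = (n : ℝ) ^ (T + 1) / (T + 1) +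
      (((n + 1 : ℕ) : ℝ) ^ (T + 1) - (n : ℝ) ^ (T + 1)) / (T + 1) := by ring
    rw [e]
    exact add_le_add ih this

lemma sum_lt_part {z T : ℝ} (hz : 0 < z) (hT : 2 ≤ T) (W : Finset ℕ)
    (hW : ∀ q ∈ W, 1 ≤ q ∧ (q : ℝ) < z) :
    ∑ q ∈ W, Real.exp (-(T * (Real.log z - Real.log q))) ≤ 1 + z / (T - 1) := by
  rcases W.eq_empty_or_nonempty with hWe | ⟨q0, hq0⟩
  · rw [hWe, sum_empty]
    have : 0 ≤ T - 1 := by linarith
    positivity
  have hz1 : 1 < z := by
    have := hW q0 hq0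
    have h1 : (1 : ℝ) ≤ q0 := by exact_mod_cast this.1
    linarith [this.2]
  set Y := ⌈z⌉₊ with hY
  have hY2 : 2 ≤ Y := by
    have : 1 < Y := Nat.lt_ceil.mpr (by simpa using hz1)
    omega
  set X := Y - 1 with hX
  have hXz : (X : ℝ) < z := by
    have : X < Y := by omega
    exact Nat.lt_ceil.mp this
  have hX0 : (0 : ℝ) < X := by
    have : 0 < X := by omega
    exact_mod_cast this
  have hterm : ∀ q : ℕ, 1 ≤ q → Real.exp (-(T * (Real.log z - Real.log q))) =
      z ^ (-T) * (q : ℝ) ^ T := by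
    intro q hq
    have hq0 : (0 : ℝ) < q := by exact_mod_cast hq
    rw [Real.rpow_def_of_pos hz, Real.rpow_def_of_pos hq0, ← Real.exp_add]
    congr 1
    ring
  have hsub : W ⊆ insert X (Ico 1 X) := by
    intro q hq
    rw [mem_insert, mem_Ico]
    have h1 : q < Y := Nat.lt_ceil.mpr (hW q hq).2
    have h2 := (hW q hq).1
    omega
  have hzT : 0 ≤ z ^ (-T) := by positivity
  calc ∑ q ∈ W, Real.exp (-(T * (Real.log z - Real.log q)))
      ≤ ∑ q ∈ insert X (Ico 1 X), Real.exp (-(T * (Real.log z - Real.log q))) :=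
        sum_le_sum_of_subset_of_nonneg hsub (fun _ _ _ => (Real.exp_pos _).le)
    _ = Real.exp (-(T * (Real.log z - Real.log X))) +
          ∑ q ∈ Ico 1 X, Real.exp (-(T * (Real.log z - Real.log q))) := by
        rw [sum_insert (by simp)]
    _ ≤ 1 + z ^ (-T) * ((X : ℝ) ^ (T + 1) / (T + 1)) := by
        refine add_le_add ?_ ?_
        · rw [Real.exp_le_one_iff]
          have := Real.log_le_log hX0 hXz.le
          nlinarith
        · rw [sum_congr rfl (g := fun q : ℕ => z ^ (-T) * (q : ℝ) ^ T)]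
          · rw [← mul_sum]
            apply mul_le_mul_of_nonneg_left _ hzT
            exact sum_rpow_le' (by linarith) X
          · intro q hq
            rw [mem_Ico] at hq
            exact hterm q hq.1
    _ ≤ 1 + z / (T - 1) := by
        have h1 : z ^ (-T) * (X : ℝ) ^ (T + 1) ≤ z := by
          calc z ^ (-T) * (X : ℝ) ^ (T + 1) ≤ z ^ (-T) * z ^ (T + 1) := by gcongr
            _ = z := by
                rw [← Real.rpow_add hz]
                have : -T + (T + 1) = 1 := by ring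
                rw [this, Real.rpow_one]
        have h3 : z ^ (-T) * ((X : ℝ) ^ (T + 1) / (T + 1)) =
            (z ^ (-T) * (X : ℝ) ^ (T + 1)) / (T + 1) := by ring
        rw [h3]
        have h4 : (z ^ (-T) * (X : ℝ) ^ (T + 1)) / (T + 1) ≤ z / (T + 1) := by gcongr
        have h5 : z / (T + 1) ≤ z / (T - 1) := by
          apply div_le_div_of_nonneg_left hz.le (by linarith) (by linarith)
        linarith

lemma sum_exp_le {z T : ℝ} (hz : 0 < z) (hT : 2 ≤ T) (W : Finset ℕ) (hW : ∀ q ∈ W, 1 ≤ q) :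
    ∑ q ∈ W, Real.exp (-(T * |Real.log z - Real.log q|)) ≤ 2 + 2 * (z / (T - 1)) := by
  rw [← Finset.sum_filter_add_sum_filter_not W (fun q : ℕ => z ≤ (q : ℝ))]
  have h1 := sum_ge_part hz hT (W.filter (fun q : ℕ => z ≤ (q : ℝ))) (by
    intro q hq
    exact (mem_filter.mp hq).2)
  have h2 := sum_lt_part hz hT (W.filter (fun q : ℕ => ¬ z ≤ (q : ℝ))) (by
    intro q hq
    rw [mem_filter, not_le] at hq
    exact ⟨hW q hq.1, hq.2⟩)
  have e1 : ∑ q ∈ W.filter (fun q : ℕ => z ≤ (q : ℝ)), Real.exp (-(T * |Real.log z - Real.log q|)) =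
      ∑ q ∈ W.filter (fun q : ℕ => z ≤ (q : ℝ)), Real.exp (-(T * (Real.log q - Real.log z))) := by
    apply sum_congr rfl
    intro q hq
    rw [mem_filter] at hq
    have := Real.log_le_log hz hq.2
    rw [abs_of_nonpos (by linarith)]
    congr 2
    ring
  have e2 : ∑ q ∈ W.filter (fun q : ℕ => ¬ z ≤ (q : ℝ)),
      Real.exp (-(T * |Real.log z - Real.log q|)) =
      ∑ q ∈ W.filter (fun q : ℕ => ¬ z ≤ (q : ℝ)),
        Real.exp (-(T * (Real.log z - Real.log q))) := by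
    apply sum_congr rfl
    intro q hq
    rw [mem_filter, not_le] at hq
    have hq0 : (0 : ℝ) < q := by exact_mod_cast hW q hq.1
    have := Real.log_le_log hq0 hq.2.le
    rw [abs_of_nonneg (by linarith)]
  rw [e1, e2]
  linarith

lemma gk_le_exp {T : ℝ} (x : ℝ) : gk T (2 * x) ≤ 2 * Real.exp (-(T * |x|)) := by
  unfold gk
  have h1 : -(T ^ 2 * (2 * x) ^ 2 / 2) ≤ Real.log 2 + -(T * |x|) := by
    have h2 : x ^ 2 = |x| ^ 2 := (sq_abs x).symm
    have h3 : 0.6931471803 < Real.log 2 := Real.log_two_gt_d9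
    have h4 : (2 * x) ^ 2 = 4 * |x| ^ 2 := by rw [← h2]; ring
    rw [h4]
    nlinarith [sq_nonneg (T * |x| - 1 / 4)]
  calc Real.exp (-(T ^ 2 * (2 * x) ^ 2 / 2)) ≤ Real.exp (Real.log 2 + -(T * |x|)) :=
        Real.exp_le_exp.mpr h1
    _ = 2 * Real.exp (-(T * |x|)) := by
        rw [Real.exp_add, Real.exp_log (by norm_num)]

/-- Sum of the kernel over `2 log q`. -/
lemma sum_gk_le {T : ℝ} (hT : 2 ≤ T) (x : ℝ) (W : Finset ℕ) (hW : ∀ q ∈ W, 1 ≤ q) :
    ∑ q ∈ W, gk T (x - 2 * Real.log q) ≤ 4 + 4 * (Real.exp (x / 2) / (T - 1)) := by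
  have h := sum_exp_le (z := Real.exp (x / 2)) (Real.exp_pos _) hT W hW
  calc ∑ q ∈ W, gk T (x - 2 * Real.log q)
      ≤ ∑ q ∈ W, 2 * Real.exp (-(T * |Real.log (Real.exp (x / 2)) - Real.log q|)) := by
        apply sum_le_sum
        intro q _
        rw [Real.log_exp]
        have : x - 2 * Real.log q = 2 * (x / 2 - Real.log q) := by ring
        rw [this]
        exact gk_le_exp _
    _ = 2 * ∑ q ∈ W, Real.exp (-(T * |Real.log (Real.exp (x / 2)) - Real.log q|)) := by
        rw [mul_sum]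
    _ ≤ 2 * (2 + 2 * (Real.exp (x / 2) / (T - 1))) := by gcongr
    _ = 4 + 4 * (Real.exp (x / 2) / (T - 1)) := by ring

end Pool.Agent.MP_018e62_nt
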