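import Pool.Agent.MP_018e62_nt.Mass
import Pool.Agent.MP_018e62_nt.ExistsT

/-!
Existence of `t` with prescribed arguments at the small primes and small second moments in all
windows.
-/

set_option autoImplicit false

namespace Pool.Agent.MP_018e62_nt

open Finset Filter Topology

/-- The exponent of the window growth. -/
def GG : ℕ := 720

lemma GG_cast : ((GG : ℕ) : ℝ) = 720 := by unfold GG; norm_num

lemma two_le_GG : 2 ≤ GG := by unfold GG; norm_num

lemma one_le_log {y : ℕ} (hy : 3 ≤ y) : 1 ≤ Real.log y := by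
  have h1 : Real.exp 1 < 3 := Real.exp_one_lt_three
  have h3 : (3 : ℝ) ≤ y := by exact_mod_cast hy
  rw [Real.le_log_iff_exp_le (by linarith)]
  linarith

lemma log_four_le : Real.log 4 ≤ 1.387 := by
  have h : Real.log 4 = 2 * Real.log 2 := by
    rw [show (4 : ℝ) = 2 ^ 2 by norm_num, Real.log_pow]
    norm_num
  have h2 := Real.log_two_lt_d9
  rw [h]
  norm_num at h2 ⊢
  linarith

lemma log_four_nonneg : 0 ≤ Real.log 4 := Real.log_nonneg (by norm_num)

lemma outside {y : ℕ} (hy : 3 ≤ y) (Z : ℕ) :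
    ∑ p ∈ (Finset.range y).filter Nat.Prime, wt (1 / (60 * Real.log y)) p +
      ∑ p ∈ (Ico (y ^ GG) Z).filter Nat.Prime, wt (1 / (60 * Real.log y)) p ≤ 0.1 := by
  have hL := one_le_log hy
  set L := Real.log y with hLdef
  have hL0 : 0 < L := by linarith
  have hδ : 0 < 1 / (60 * L) := by positivity
  have h4 := log_four_le
  have h40 := log_four_nonneg
  have hy0 : (0 : ℝ) < y := by positivity
  have h1 : ∑ p ∈ (Finset.range y).filter Nat.Prime, wt (1 / (60 * L)) p ≤ 0.05 := by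
    refine (sum_wt_small hδ y).trans ?_
    rw [← hLdef]
    calc 1 / (60 * L) * (Real.log 4 * (1 + L)) ≤ 1 / (60 * L) * (1.387 * (2 * L)) := by
          gcongr
          linarith
      _ ≤ 0.05 := by
          rw [show 1 / (60 * L) * (1.387 * (2 * L)) = 1.387 / 30 by field_simp; norm_num]
          norm_num
  have hB4 : 4 ≤ y ^ GG := by
    calc 4 ≤ 3 ^ 2 := by norm_num
      _ ≤ y ^ 2 := Nat.pow_le_pow_left hy 2
      _ ≤ y ^ GG := Nat.pow_le_pow_right (by omega) two_le_GG
  have h2 : ∑ p ∈ (Ico (y ^ GG) Z).filter Nat.Prime, wt (1 / (60 * L)) p ≤ 0.05 := by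
    refine (sum_wt_large hδ hB4 Z).trans ?_
    set b : ℝ := ((y ^ GG - 1 : ℕ) : ℝ) with hb
    have hb1 : (y : ℝ) ^ GG / 2 ≤ b := by
      rw [hb, Nat.cast_sub (by omega)]
      have : (4 : ℝ) ≤ (y : ℝ) ^ GG := by exact_mod_cast hB4
      push_cast
      linarith
    have hyG : (0 : ℝ) < (y : ℝ) ^ GG := by positivity
    have hb0 : 0 < b := by linarith
    have hlogb : 719 * L ≤ Real.log b := by
      have e1 : Real.log ((y : ℝ) ^ GG / 2) = 720 * L - Real.log 2 := by
        rw [Real.log_div hyG.ne' (by norm_num), Real.log_pow, GG_cast]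
      have e2 := Real.log_le_log (by positivity) hb1
      have e3 : Real.log 2 ≤ 1 := by
        have := Real.log_two_lt_d9
        norm_num at this
        linarith
      rw [e1] at e2
      linarith
    have hpow : b ^ (-(1 / (60 * L))) ≤ 60 / 779 := by
      rw [Real.rpow_def_of_pos hb0]
      have e1 : Real.log b * -(1 / (60 * L)) ≤ -(719 / 60) := by
        have : 719 * L * (1 / (60 * L)) ≤ Real.log b * (1 / (60 * L)) :=
          mul_le_mul_of_nonneg_right hlogb hδ.le
        have e : 719 * L * (1 / (60 * L)) = 719 / 60 := by field_simp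
        rw [e] at this
        linarith
      calc Real.exp (Real.log b * -(1 / (60 * L))) ≤ Real.exp (-(719 / 60)) :=
            Real.exp_le_exp.mpr e1
        _ = 1 / Real.exp (719 / 60) := by rw [Real.exp_neg, one_div]
        _ ≤ 1 / (719 / 60 + 1) := by
            apply one_div_le_one_div_of_le (by norm_num)
            exact Real.add_one_le_exp _
        _ = 60 / 779 := by norm_num
    have hpow0 : 0 ≤ b ^ (-(1 / (60 * L))) := by positivity
    have hinv : 1 + 1 / (1 / (60 * L)) ≤ 61 * L := by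
      rw [one_div_one_div]
      linarith
    calc Real.log 4 * (1 + 1 / (1 / (60 * L))) * b ^ (-(1 / (60 * L))) / Real.log b
        ≤ 1.387 * (61 * L) * (60 / 779) / (719 * L) := by
          gcongr
      _ = 1.387 * 61 * (60 / 779) / 719 := by field_simp
      _ ≤ 0.05 := by norm_num
  linarith

/-- Comparison of the window sum with the full sum. -/
lemma window_compare {y : ℕ} (hy : 3 ≤ y) (t : ℝ) :
    ‖∑' p : Nat.Primes, (wt (1 / (60 * Real.log y)) p : ℂ) *
      Complex.exp (((-(-(2 * t)) * Real.log p : ℝ) : ℂ) * Complex.I) -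
      SW (wt (1 / (60 * Real.log y))) ((Ico y (y ^ GG)).filter Nat.Prime) t‖ ≤ 0.1 := by
  have hL := one_le_log hy
  have hδ : 0 < 1 / (60 * Real.log y) := by positivity
  have h1 := prime_tsum_sub (fun p : ℕ => (wt (1 / (60 * Real.log y)) p : ℂ) *
      Complex.exp (((-(-(2 * t)) * Real.log p : ℝ) : ℂ) * Complex.I))
      (PZ_diff_eq hδ (-(2 * t))).2 y (y ^ GG)
      (by
        calc y = y ^ 1 := (pow_one y).symm
          _ ≤ y ^ GG := Nat.pow_le_pow_right (by omega) (by have := two_le_GG; omega)) 0.1 (by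
    intro Z hZ
    have e : ∀ p : ℕ, p.Prime → ‖(wt (1 / (60 * Real.log y)) p : ℂ) *
      Complex.exp (((-(-(2 * t)) * Real.log p : ℝ) : ℂ) * Complex.I)‖ =
      wt (1 / (60 * Real.log y)) p := by
      intro p hp
      rw [norm_mul, Complex.norm_exp_ofReal_mul_I, mul_one, Complex.norm_real,
        Real.norm_of_nonneg (wt_nonneg hδ hp.one_lt.le)]
    refine le_trans (le_of_eq ?_) (outside hy Z)
    congr 1
    · exact Finset.sum_congr rfl fun p hp => e p (Finset.mem_filter.mp hp).2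
    · exact Finset.sum_congr rfl fun p hp => e p (Finset.mem_filter.mp hp).2)
  refine le_trans (le_of_eq ?_) h1
  congr 1
  congr 1
  unfold SW
  apply Finset.sum_congr rfl
  intro p _
  congr 2
  push_cast
  ring

/-- The windows. -/
def yy (N i : ℕ) : ℕ := N ^ (GG ^ i)

lemma yy_succ (N i : ℕ) : yy N (i + 1) = (yy N i) ^ GG := by
  unfold yy
  rw [pow_succ, pow_mul]

lemma yy_zero (N : ℕ) : yy N 0 = N := by simp [yy]

lemma le_yy {N : ℕ} (hN : 2 ≤ N) (i : ℕ) : N * 2 ^ i ≤ yy N i := by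
  unfold yy
  have h1 : i + 1 ≤ GG ^ i := by
    calc i + 1 ≤ 2 ^ i := Nat.lt_two_pow_self
      _ ≤ GG ^ i := Nat.pow_le_pow_left two_le_GG i
  calc N * 2 ^ i ≤ N * N ^ i := Nat.mul_le_mul_left _ (Nat.pow_le_pow_left hN i)
    _ = N ^ (i + 1) := by rw [pow_succ]; ring
    _ ≤ N ^ (GG ^ i) := Nat.pow_le_pow_right (by omega) h1

lemma log_yy (N i : ℕ) : Real.log (yy N i) = (GG : ℝ) ^ i * Real.log N := by
  unfold yy
  push_cast
  rw [Real.log_pow]
  push_cast
  rfl

/-- The exponents of the weights. -/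
noncomputable def dl (N i : ℕ) : ℝ := 1 / (60 * Real.log (yy N i))

/-- The primes in the windows. -/
def Wd (N i : ℕ) : Finset ℕ := (Ico (yy N i) (yy N (i + 1))).filter Nat.Prime

lemma sum_inv_sq_le {y : ℕ} (hy : 1 ≤ y) (Z : ℕ) :
    ∑ k ∈ Ico y Z, 1 / (k : ℝ) ^ 2 ≤ 2 / (y : ℝ) := by
  have h := sum_Ioo_inv_sq_le (α := ℝ) (y - 1) Z
  have e : Ioo (y - 1) Z = Ico y Z := by
    ext k
    rw [mem_Ioo, mem_Ico]
    omega
  rw [e] at h
  have e2 : ((y - 1 : ℕ) : ℝ) + 1 = y := by
    rw [Nat.cast_sub hy]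
    push_cast
    ring
  rw [e2] at h
  simpa [one_div] using h

lemma eventually_two_pow_sqrt (C : ℝ) (hC : 0 < C) :
    ∀ᶠ n : ℕ in atTop, C * (n : ℝ) ^ 10 ≤ 2 ^ (Nat.sqrt n) := by
  have h1 := tendsto_pow_const_div_const_pow_of_one_lt 20 (show (1 : ℝ) < 2 by norm_num)
  have h2 : Tendsto (fun n : ℕ => Nat.sqrt n + 1) atTop atTop := by
    apply tendsto_atTop_mono (f := fun n => Nat.sqrt n) (fun n => by omega)
    refine tendsto_atTop.mpr fun b => ?_
    filter_upwards [eventually_ge_atTop (b ^ 2)] with n hn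
    rw [Nat.le_sqrt']
    exact hn
  have h3 := h1.comp h2
  have h4 : ∀ᶠ n : ℕ in atTop, ((fun n : ℕ => (n : ℝ) ^ 20 / 2 ^ n) ∘
      fun n => Nat.sqrt n + 1) n < 1 / (2 * C) :=
    h3.eventually_lt_const (by positivity)
  filter_upwards [h4] with n hn
  simp only [Function.comp] at hn
  have h5 : (n : ℝ) ≤ ((Nat.sqrt n + 1 : ℕ) : ℝ) ^ 2 := by
    have := Nat.lt_succ_sqrt' n
    exact_mod_cast this.le
  have h6 : (n : ℝ) ^ 10 ≤ ((Nat.sqrt n + 1 : ℕ) : ℝ) ^ 20 := by
    calc (n : ℝ) ^ 10 ≤ (((Nat.sqrt n + 1 : ℕ) : ℝ) ^ 2) ^ 10 :=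
          pow_le_pow_left₀ (Nat.cast_nonneg n) h5 10
      _ = ((Nat.sqrt n + 1 : ℕ) : ℝ) ^ 20 := by rw [← pow_mul]
  rw [div_lt_div_iff₀ (by positivity) (by positivity), pow_succ (2 : ℝ)] at hn
  have h7 : 0 < (2 : ℝ) ^ Nat.sqrt n := by positivity
  calc C * (n : ℝ) ^ 10 ≤ C * ((Nat.sqrt n + 1 : ℕ) : ℝ) ^ 20 :=
        mul_le_mul_of_nonneg_left h6 hC.le
    _ ≤ 2 ^ (Nat.sqrt n) := by nlinarith

lemma tendsto_sqrt_div : Tendsto (fun n : ℕ => ((Nat.sqrt n : ℕ) : ℝ) / n) atTop (𝓝 0) := by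
  have h1 : Tendsto (fun n : ℕ => 1 / Real.sqrt n) atTop (𝓝 0) := by
    have : Tendsto (fun n : ℕ => Real.sqrt n) atTop atTop :=
      Real.tendsto_sqrt_atTop.comp tendsto_natCast_atTop_atTop
    simp only [one_div]
    exact tendsto_inv_atTop_zero.comp this
  refine squeeze_zero' ?_ ?_ h1
  · exact Eventually.of_forall fun n => by positivity
  · filter_upwards [eventually_ge_atTop 1] with n hn
    have hn0 : (0 : ℝ) < n := by exact_mod_cast hn
    have h2 : ((Nat.sqrt n : ℕ) : ℝ) ≤ Real.sqrt n := by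
      apply Real.le_sqrt_of_sq_le
      exact_mod_cast Nat.sqrt_le' n
    have h3 : 0 < Real.sqrt n := Real.sqrt_pos.mpr hn0
    rw [div_le_div_iff₀ hn0 h3, one_mul]
    calc ((Nat.sqrt n : ℕ) : ℝ) * Real.sqrt n ≤ Real.sqrt n * Real.sqrt n := by gcongr
      _ = n := Real.mul_self_sqrt hn0.le

/-- Existence of `t` with prescribed arguments at the small primes and control of the second
moments in all windows. -/
theorem exists_t_windows : ∃ N₁ : ℕ, 3 ≤ N₁ ∧ ∀ N : ℕ, N₁ ≤ N → ∀ θ : ℕ → ℂ,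
    (∀ p, ‖θ p‖ = 1) → ∀ ε : ℝ, 0 < ε → ∃ t : ℝ,
      (∀ p, p < N → p.Prime → ‖pw p t - θ p‖ < ε) ∧
      ∀ i, 0.55 ≤ ∑ p ∈ Wd N i, wt (dl N i) p ∧ ‖SW (wt (dl N i)) (Wd N i) t‖ ≤ 0.3 := by
  obtain ⟨δ₀, hδ₀, hmass⟩ := exists_mass
  obtain ⟨C, hC1, hC⟩ := PZ_bound
  obtain ⟨N₂, hN₂⟩ := exists_nat_ge (Real.exp (1 / (60 * δ₀)))
  refine ⟨max 200 (N₂ + 1), by omega, ?_⟩
  intro N hN θ hθ ε hε
  have hN200 : 200 ≤ N := by omega
  have hNN₂ : N₂ < N := by omega
  have hN3 : 3 ≤ N := by omega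
  have hlogN := one_le_log hN3
  have hyN : ∀ i, N ≤ yy N i := fun i =>
    le_trans (Nat.le_mul_of_pos_right N (by positivity)) (le_yy (by omega) i)
  have hy3 : ∀ i, 3 ≤ yy N i := fun i => hN3.trans (hyN i)
  have hdl0 : ∀ i, 0 < dl N i := by
    intro i
    have := one_le_log (hy3 i)
    unfold dl
    positivity
  have hdlδ : ∀ i, dl N i < δ₀ := by
    intro i
    have h1 : 1 / (60 * δ₀) < Real.log (yy N i) := by
      rw [Real.lt_log_iff_exp_lt (by have := hy3 i; positivity)]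
      calc Real.exp (1 / (60 * δ₀)) ≤ N₂ := hN₂
        _ < N := by exact_mod_cast hNN₂
        _ ≤ yy N i := by exact_mod_cast hyN i
    unfold dl
    have h2 : 0 < Real.log (yy N i) := lt_trans (by positivity) h1
    rw [div_lt_iff₀ (by positivity)] at h1 ⊢
    nlinarith
  have hWdef : ∀ i, Wd N i = (Ico (yy N i) ((yy N i) ^ GG)).filter Nat.Prime := by
    intro i
    unfold Wd
    rw [yy_succ]
  -- mass bounds
  have hm : ∀ i, 0.55 ≤ ∑ p ∈ Wd N i, wt (dl N i) p ∧ ∑ p ∈ Wd N i, wt (dl N i) p ≤ 1 := by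
    intro i
    have h1 := window_compare (hy3 i) 0
    rw [← hWdef i] at h1
    change ‖∑' p : Nat.Primes, (wt (dl N i) p : ℂ) *
      Complex.exp (((-(-(2 * 0)) * Real.log p : ℝ) : ℂ) * Complex.I) -
      SW (wt (dl N i)) (Wd N i) 0‖ ≤ 0.1 at h1
    have e1 : ∑' p : Nat.Primes, (wt (dl N i) p : ℂ) *
      Complex.exp (((-(-(2 * 0)) * Real.log p : ℝ) : ℂ) * Complex.I) =
      ((∑' p : Nat.Primes, wt (dl N i) p : ℝ) : ℂ) := by
      rw [Complex.ofReal_tsum]
      apply tsum_congr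
      intro p
      simp
    have e2 : SW (wt (dl N i)) (Wd N i) 0 = ((∑ p ∈ Wd N i, wt (dl N i) p : ℝ) : ℂ) := by
      unfold SW
      push_cast
      apply Finset.sum_congr rfl
      intro p _
      simp
    rw [e1, e2, ← Complex.ofReal_sub, Complex.norm_real, Real.norm_eq_abs, abs_le] at h1
    have h2 := hmass (dl N i) (hdl0 i) (hdlδ i)
    constructor
    · norm_num at h1 h2 ⊢
      linarith [h1.1, h1.2, h2.1, h2.2]
    · norm_num at h1 h2 ⊢
      linarith [h1.1, h1.2, h2.1, h2.2]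
  -- apply the averaging theorem
  have hev := exists_t (θ := θ) (Q := (Finset.range N).filter Nat.Prime) (fun p _ => hθ p)
    (fun p hp => (Finset.mem_filter.mp hp).2) hε (κ := 0.3) (by norm_num) (Wd N) (by
      intro i p hp
      have hp' := Finset.mem_filter.mp hp
      refine ⟨hp'.2, fun hq => ?_⟩
      have h1 := Finset.mem_range.mp (Finset.mem_filter.mp hq).1
      have h2 := (Finset.mem_Ico.mp hp'.1).1
      have h3 := hyN i
      omega) (fun i => wt (dl N i))
    (fun i p hp => wt_nonneg (hdl0 i) (Finset.mem_filter.mp hp).2.one_lt.le)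
    (fun i p hp => wt_le_inv (hdl0 i) (Finset.mem_filter.mp hp).2.one_lt.le)
    (fun i => (hm i).2) (fun i => 2 / (N : ℝ) * (1 / 2) ^ i)
    (summable_geometric_two.mul_left _) (by
      intro i
      calc ∑ p ∈ Wd N i, wt (dl N i) p ^ 2 ≤ ∑ p ∈ Wd N i, 1 / (p : ℝ) ^ 2 := by
            apply Finset.sum_le_sum
            intro p hp
            have hp1 := (Finset.mem_filter.mp hp).2.one_lt.le
            have h1 := wt_nonneg (hdl0 i) hp1
            have h2 := wt_le_inv (hdl0 i) hp1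
            calc wt (dl N i) p ^ 2 ≤ (1 / (p : ℝ)) ^ 2 := pow_le_pow_left₀ h1 h2 2
              _ = 1 / (p : ℝ) ^ 2 := by rw [div_pow, one_pow]
        _ ≤ ∑ p ∈ Ico (yy N i) (yy N (i + 1)), 1 / (p : ℝ) ^ 2 := by
            apply Finset.sum_le_sum_of_subset_of_nonneg (Finset.filter_subset _ _)
            intro p _ _
            positivity
        _ ≤ 2 / (yy N i : ℝ) := sum_inv_sq_le (y := yy N i) (by have := hy3 i; omega) _
        _ ≤ 2 / ((N : ℝ) * 2 ^ i) := by
            have hle : (N : ℝ) * 2 ^ i ≤ (yy N i : ℝ) := by exact_mod_cast le_yy (by omega) i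
            apply div_le_div_of_nonneg_left (by norm_num) (by positivity) hle
        _ = 2 / (N : ℝ) * (1 / 2) ^ i := by
            rw [one_div, inv_pow]
            field_simp) (by
      rw [tsum_mul_left, tsum_geometric_two]
      have hN' : (200 : ℝ) ≤ N := by exact_mod_cast hN200
      rw [div_mul_eq_mul_div, div_le_iff₀ (by linarith)]
      norm_num
      linarith)
    (fun n => Nat.sqrt n) tendsto_sqrt_div
  have hev2 := eventually_two_pow_sqrt (41 * C) (by linarith)
  obtain ⟨n, ⟨t, ht1, ht2, ht3, ht4⟩, hn2, hn1⟩ :=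
    (hev.and (hev2.and (eventually_ge_atTop 1))).exists
  have hn1' : (1 : ℝ) ≤ n := by exact_mod_cast hn1
  refine ⟨t, fun p hp hpp => ht3 p ?_, fun i => ⟨(hm i).1, ?_⟩⟩
  · rw [Finset.mem_filter, Finset.mem_range]
    exact ⟨hp, hpp⟩
  · by_cases hi : i < Nat.sqrt n
    · exact (ht4 i hi).le
    · push Not at hi
      have h1 := window_compare (hy3 i) t
      rw [← hWdef i] at h1
      change ‖∑' p : Nat.Primes, (wt (dl N i) p : ℂ) *
        Complex.exp (((-(-(2 * t)) * Real.log p : ℝ) : ℂ) * Complex.I) -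
        SW (wt (dl N i)) (Wd N i) t‖ ≤ 0.1 at h1
      rw [← (PZ_diff_eq (hdl0 i) (-(2 * t))).1] at h1
      have ht0 : 0 < t := by nlinarith
      have habs : |(-(2 * t))| = 2 * t := by rw [abs_neg, abs_of_pos (by linarith)]
      have ht5 : |(-(2 * t))| ^ 5 ≤ 243 * (n : ℝ) ^ 10 := by
        rw [habs]
        calc (2 * t) ^ 5 ≤ (3 * (n : ℝ) ^ 2) ^ 5 := by
              apply pow_le_pow_left₀ (by linarith)
              linarith
          _ = 243 * (n : ℝ) ^ 10 := by ring
      have hdli : dl N i ≤ 1 / (60 * 2 ^ i) := by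
        unfold dl
        apply one_div_le_one_div_of_le (by positivity)
        rw [log_yy]
        have h2 : (2 : ℝ) ^ i ≤ (GG : ℝ) ^ i := by
          apply pow_le_pow_left₀ (by norm_num)
          exact_mod_cast two_le_GG
        have h3 : (0 : ℝ) ≤ (GG : ℝ) ^ i := by positivity
        nlinarith
      have h2i : (2 : ℝ) ^ (Nat.sqrt n) ≤ 2 ^ i := pow_le_pow_right₀ (by norm_num) hi
      have hsmall : C * |(-(2 * t))| ^ 5 * dl N i ≤ 0.1 := by
        have h2 : C * |(-(2 * t))| ^ 5 * dl N i ≤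
            C * (243 * (n : ℝ) ^ 10) * (1 / (60 * 2 ^ i)) := by
          gcongr
          exact (hdl0 i).le
        refine h2.trans ?_
        rw [mul_one_div, div_le_iff₀ (by positivity)]
        norm_num
        have h3 : 41 * C * (n : ℝ) ^ 10 ≤ 2 ^ i := hn2.trans h2i
        have h4 : 0 ≤ C * (n : ℝ) ^ 10 := by positivity
        nlinarith
      have h5 := hC (-(2 * t)) (dl N i) (by rw [habs]; nlinarith) (hdl0 i)
        (hsmall.trans (by norm_num))
      have h6 : ‖SW (wt (dl N i)) (Wd N i) t‖ ≤ 0.1 + 0.1 := by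
        have e : SW (wt (dl N i)) (Wd N i) t =
            (PZ ((1 + dl N i : ℝ) + ((-(2 * t) : ℝ) : ℂ) * Complex.I) -
              PZ ((1 + 2 * dl N i : ℝ) + ((-(2 * t) : ℝ) : ℂ) * Complex.I)) -
            ((PZ ((1 + dl N i : ℝ) + ((-(2 * t) : ℝ) : ℂ) * Complex.I) -
              PZ ((1 + 2 * dl N i : ℝ) + ((-(2 * t) : ℝ) : ℂ) * Complex.I)) -
              SW (wt (dl N i)) (Wd N i) t) := by ring
        rw [e]
        exact (norm_sub_le _ _).trans (add_le_add (h5.trans hsmall) h1)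
      refine h6.trans ?_
      norm_num

end Pool.Agent.MP_018e62_nt
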