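import Pool.Agent.MP_018e62_nt.Design

/-!
The local factors at the prime two.
-/

set_option autoImplicit false

namespace Pool.Agent.MP_018e62_nt

open Finset Filter Topology

lemma abs_arctan (s : ℝ) : |Real.arctan s| = Real.arctan |s| := by
  rcases le_total 0 s with h | h
  · rw [abs_of_nonneg h, abs_of_nonneg (Real.arctan_nonneg.mpr h)]
  · rw [abs_of_nonpos h, abs_of_nonpos (Real.arctan_le_zero.mpr h), Real.arctan_neg]

lemma arctan_le_self' {s : ℝ} (hs : 0 ≤ s) (hs2 : s ≤ 1 / 2) : Real.arctan s ≤ s := by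
  rcases eq_or_lt_of_le hs with h | h
  · rw [← h, Real.arctan_zero]
  · have h1 := Real.lt_tan h (by linarith [Real.pi_gt_three])
    have h2 := Real.arctan_lt_arctan_iff.mpr h1
    rw [Real.arctan_tan (by linarith [Real.pi_gt_three]) (by linarith [Real.pi_gt_three])] at h2
    exact h2.le

lemma arctan_ge {s : ℝ} (hs : 0 ≤ s) (hs2 : s ≤ 1 / 2) : 0.8 * s ≤ Real.arctan s := by
  have hmono : MonotoneOn (fun x : ℝ => Real.arctan x - 0.8 * x) (Set.Icc 0 (1 / 2)) := by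
    apply monotoneOn_of_deriv_nonneg (convex_Icc _ _)
    · fun_prop
    · exact (Real.differentiable_arctan.sub
        (differentiable_id.const_mul (0.8 : ℝ))).differentiableOn
    · intro x hx
      rw [interior_Icc] at hx
      have h1 : HasDerivAt (fun x : ℝ => Real.arctan x - 0.8 * x) (1 / (1 + x ^ 2) - 0.8 * 1) x :=
        (Real.hasDerivAt_arctan x).sub ((hasDerivAt_id x).const_mul 0.8)
      rw [h1.deriv]
      have h2 : x ^ 2 ≤ 1 / 4 := by
        have := hx.1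
        have := hx.2
        nlinarith
      have h3 : (0.8 : ℝ) ≤ 1 / (1 + x ^ 2) := by
        rw [le_div_iff₀ (by positivity)]
        norm_num
        linarith
      linarith
  have h := hmono (Set.left_mem_Icc.mpr (by norm_num)) ⟨hs, hs2⟩ hs
  simp only [Real.arctan_zero, mul_zero, sub_zero] at h
  linarith

lemma im_log_one_sub_mul_I (s : ℝ) : (Complex.log (1 - s * Complex.I)).im = -Real.arctan s := by
  rw [Complex.log_im, Complex.arg_of_re_nonneg (by simp), ← Real.arctan_neg, Real.arctan_eq_arcsin]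
  congr 1
  congr 1
  · simp
  · rw [Complex.norm_def, Complex.normSq_apply]
    congr 1
    simp
    ring

/-- The model value of the imaginary part. -/
lemma lg_I_odd {x : ℝ} (hx0 : 0 ≤ x) (hx1 : x ≤ 1 / 2) {a : ℕ} (ha : Odd a) :
    (lg ((x : ℂ) * Complex.I) a).im = Real.arctan x := by
  obtain ⟨j, hj⟩ := ha
  unfold lg
  have e : ((x : ℂ) * Complex.I) ^ (a + 1) = (((-(x ^ 2)) ^ (j + 1) : ℝ) : ℂ) := by
    rw [hj, show 2 * j + 1 + 1 = 2 * (j + 1) by ring, pow_mul, mul_pow, Complex.I_sq]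
    push_cast
    ring
  have hx2 : x ^ 2 ≤ 1 / 4 := by nlinarith
  have hx2' : 0 ≤ x ^ 2 := sq_nonneg x
  have h1 : |(-(x ^ 2)) ^ (j + 1)| ≤ 1 / 4 := by
    rw [abs_pow, abs_neg, abs_of_nonneg hx2', pow_succ]
    have : (x ^ 2) ^ j ≤ 1 := pow_le_one₀ hx2' (by linarith)
    nlinarith
  have h2 := (abs_le.mp h1).2
  have e1 : Complex.log (1 - (((-(x ^ 2)) ^ (j + 1) : ℝ) : ℂ)) =
      ((Real.log (1 - (-(x ^ 2)) ^ (j + 1)) : ℝ) : ℂ) := by
    rw [Complex.ofReal_log (by linarith)]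
    push_cast
    rfl
  rw [e, e1, Complex.sub_im, Complex.ofReal_im, im_log_one_sub_mul_I]
  ring

lemma lg_I_even (x : ℝ) (j : ℕ) :
    (lg ((x : ℂ) * Complex.I) (2 * j)).im = Real.arctan x - Real.arctan ((-(x ^ 2)) ^ j * x) := by
  unfold lg
  have e : ((x : ℂ) * Complex.I) ^ (2 * j + 1) =
      (((-(x ^ 2)) ^ j * x : ℝ) : ℂ) * Complex.I := by
    rw [pow_succ, pow_mul, mul_pow, Complex.I_sq]
    push_cast
    ring
  rw [e, Complex.sub_im, im_log_one_sub_mul_I, im_log_one_sub_mul_I]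
  ring

lemma abs_s (x : ℝ) (hx0 : 0 ≤ x) (j : ℕ) : |(-(x ^ 2)) ^ j * x| = x ^ (2 * j + 1) := by
  rw [abs_mul, abs_pow, abs_neg, abs_of_nonneg (sq_nonneg x), abs_of_nonneg hx0, ← pow_mul,
    ← pow_succ]

/-- The values close to the accumulation level. -/
lemma lg_I_close {x : ℝ} (hx0 : 0 ≤ x) (hx1 : x ≤ 1 / 2) {m a : ℕ} (hm : 1 ≤ m)
    (ha : Odd a ∨ 2 * m - 2 ≤ a) :
    |(lg ((x : ℂ) * Complex.I) a).im - (lg ((x : ℂ) * Complex.I) 1).im| ≤
      (1 / 2) ^ (2 * m - 1) := by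
  rw [lg_I_odd hx0 hx1 (a := 1) (by decide)]
  rcases Nat.even_or_odd a with h | h
  · obtain ⟨j, hj⟩ := h
    have hj' : a = 2 * j := by omega
    have h2 : 2 * m - 2 ≤ a := by
      rcases ha with h3 | h3
      · exfalso
        obtain ⟨k, hk⟩ := h3
        omega
      · exact h3
    rw [hj', lg_I_even]
    have e : Real.arctan x - Real.arctan ((-(x ^ 2)) ^ j * x) - Real.arctan x =
        -Real.arctan ((-(x ^ 2)) ^ j * x) := by ring
    rw [e, abs_neg, abs_arctan, abs_s x hx0]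
    have h3 : x ^ (2 * j + 1) ≤ (1 / 2) ^ (2 * j + 1) := pow_le_pow_left₀ hx0 hx1 _
    have h4 : (1 / 2 : ℝ) ^ (2 * j + 1) ≤ (1 / 2) ^ (2 * m - 1) :=
      pow_le_pow_of_le_one (by norm_num) (by norm_num) (by omega)
    have h5 : (1 / 2 : ℝ) ^ (2 * j + 1) ≤ 1 / 2 := by
      calc (1 / 2 : ℝ) ^ (2 * j + 1) ≤ (1 / 2) ^ 1 :=
            pow_le_pow_of_le_one (by norm_num) (by norm_num) (by omega)
        _ = 1 / 2 := pow_one _
    exact (arctan_le_self' (by positivity) (h3.trans h5)).trans (h3.trans h4)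
  · rw [lg_I_odd hx0 hx1 h, sub_self, abs_zero]
    positivity

/-- The separation of the isolated levels. -/
lemma lg_I_far {x : ℝ} (hx0 : 0 ≤ x) (hx1 : x ≤ 1 / 2) {m i a : ℕ} (hi : i + 1 < m)
    (ha : a ≠ 2 * i) :
    0.55 * x ^ (2 * m - 3) ≤
      |(lg ((x : ℂ) * Complex.I) (2 * i)).im - (lg ((x : ℂ) * Complex.I) a).im| := by
  have hx2 : x ^ 2 ≤ 1 / 4 := by nlinarith
  have hpow : ∀ j : ℕ, x ^ (2 * j + 1) ≤ 1 / 2 := by
    intro j
    calc x ^ (2 * j + 1) ≤ x ^ 1 := pow_le_pow_of_le_one hx0 (by linarith) (by omega)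
      _ ≤ 1 / 2 := by rw [pow_one]; exact hx1
  have hup : ∀ j : ℕ, |Real.arctan ((-(x ^ 2)) ^ j * x)| ≤ x ^ (2 * j + 1) := by
    intro j
    rw [abs_arctan, abs_s x hx0]
    exact arctan_le_self' (by positivity) (hpow j)
  have hlo : ∀ j : ℕ, 0.8 * x ^ (2 * j + 1) ≤ |Real.arctan ((-(x ^ 2)) ^ j * x)| := by
    intro j
    rw [abs_arctan, abs_s x hx0]
    exact arctan_ge (by positivity) (hpow j)
  have hgap : ∀ j k : ℕ, j < k → 0.55 * x ^ (2 * j + 1) ≤
      0.8 * x ^ (2 * j + 1) - x ^ (2 * k + 1) := by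
    intro j k hjk
    have h1 : x ^ (2 * k + 1) ≤ x ^ (2 * j + 3) :=
      pow_le_pow_of_le_one hx0 (by linarith) (by omega)
    have h2 : x ^ (2 * j + 3) = x ^ (2 * j + 1) * x ^ 2 := by ring
    have h3 : x ^ (2 * j + 1) * x ^ 2 ≤ x ^ (2 * j + 1) * (1 / 4) :=
      mul_le_mul_of_nonneg_left hx2 (by positivity)
    norm_num
    linarith
  have hdown : ∀ j : ℕ, 2 * j + 1 ≤ 2 * m - 3 → x ^ (2 * m - 3) ≤ x ^ (2 * j + 1) := fun j hj =>
    pow_le_pow_of_le_one hx0 (by linarith) hj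
  rw [lg_I_even]
  rcases Nat.even_or_odd a with h | h
  · obtain ⟨j, hj⟩ := h
    have hj' : a = 2 * j := by omega
    have hij : i ≠ j := by omega
    rw [hj', lg_I_even]
    have e : Real.arctan x - Real.arctan ((-(x ^ 2)) ^ i * x) -
        (Real.arctan x - Real.arctan ((-(x ^ 2)) ^ j * x)) =
        Real.arctan ((-(x ^ 2)) ^ j * x) - Real.arctan ((-(x ^ 2)) ^ i * x) := by ring
    rw [e]
    rcases Nat.lt_or_gt_of_ne hij with h1 | h1
    · have h2 := abs_sub_abs_le_abs_sub (Real.arctan ((-(x ^ 2)) ^ i * x))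
        (Real.arctan ((-(x ^ 2)) ^ j * x))
      rw [abs_sub_comm] at h2
      have h3 := hgap i j h1
      have h4 := hdown i (by omega)
      have h5 := hlo i
      have h6 := hup j
      norm_num at h3 h5 ⊢
      linarith
    · have h2 := abs_sub_abs_le_abs_sub (Real.arctan ((-(x ^ 2)) ^ j * x))
        (Real.arctan ((-(x ^ 2)) ^ i * x))
      have h3 := hgap j i h1
      have h4 := hdown j (by omega)
      have h5 := hlo j
      have h6 := hup i
      norm_num at h3 h5 ⊢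
      linarith
  · rw [lg_I_odd hx0 hx1 h]
    have e : Real.arctan x - Real.arctan ((-(x ^ 2)) ^ i * x) - Real.arctan x =
        -Real.arctan ((-(x ^ 2)) ^ i * x) := by ring
    rw [e, abs_neg]
    have h4 := hdown i (by omega)
    have h5 := hlo i
    have h6 : 0 ≤ x ^ (2 * m - 3) := by positivity
    norm_num at h5 ⊢
    linarith

section

variable {τ r t : ℝ} {N Y Y' : ℕ} {ε : ℝ}

lemma Setup.two_approx (h : Setup τ r t N Y Y' ε) (a : ℕ) :
    |(ell r t 2 a).im - (lg ((((2 : ℝ) ^ (-r) : ℝ) : ℂ) * Complex.I) a).im| ≤ 4 * ε := by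
  have hr := h.good.hr
  have h1 := h.vv_sub (k := 2) (by have := h.N_ge; omega) Nat.prime_two
  have e : th Y Y' 2 = Complex.I := by
    unfold th
    rw [if_pos (Or.inl rfl)]
  rw [e] at h1
  have hx1 : (2 : ℝ) ^ (-r) ≤ 1 / 2 := by
    have := norm_vv_le_half (t := t) hr.le (le_refl 2)
    rw [norm_vv] at this
    exact_mod_cast this
  rw [ell_of_prime Nat.prime_two]
  have h2 := norm_lg_sub_lg_le (v := vv r t 2) (x := (((2 : ℝ) ^ (-r) : ℝ) : ℂ) * Complex.I)
    (norm_vv_le_half hr.le (le_refl 2))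
    (by
      rw [norm_mul, Complex.norm_I, mul_one, Complex.norm_real, Real.norm_of_nonneg (by positivity)]
      exact hx1) a
  have h3 := (Complex.abs_im_le_norm _).trans h2
  rw [Complex.sub_im] at h3
  refine h3.trans ?_
  have h4 : ‖vv r t 2 - (((2 : ℝ) ^ (-r) : ℝ) : ℂ) * Complex.I‖ ≤ ε := by
    exact_mod_cast h1
  linarith

lemma Setup.eps_small (h : Setup τ r t N Y Y' ε) : 8 * ε ≤ 0.02 * τ := by
  have h2 := h.hεN
  have h3 := h.N_ge
  have h4 : (1 : ℝ) ≤ N := by exact_mod_cast (by omega : 1 ≤ N)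
  have h5 : 4 * ε ≤ 4 * N * ε := by
    have := h.hε
    nlinarith
  norm_num at h2 ⊢
  linarith

lemma Setup.two_close (h : Setup τ r t N Y Y' ε) {m : ℕ} (hm : 1 ≤ m)
    (hτ : τ = (1 / 2) ^ (2 * m - 1)) {a : ℕ} (ha : Odd a ∨ 2 * m - 2 ≤ a) :
    ∃ p ∈ LL (ell r t) 3, ∃ q ∈ LL (ell r t) 3, ell r t 2 a - ell r t 2 1 = p - q := by
  have hr := h.good.hr
  have hτ0 := h.hτ0
  have hx1 : (2 : ℝ) ^ (-r) ≤ 1 / 2 := by
    have := norm_vv_le_half (t := t) hr.le (le_refl 2)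
    rw [norm_vv] at this
    exact_mod_cast this
  have h1 := lg_I_close (x := (2 : ℝ) ^ (-r)) (by positivity) hx1 hm ha
  have h2 := h.two_approx a
  have h3 := h.two_approx 1
  have h4 := h.eps_small
  rw [← hτ] at h1
  have him : |(ell r t 2 a - ell r t 2 1).im| ≤ 1.05 * τ := by
    rw [Complex.sub_im]
    rw [abs_le] at h1 h2 h3 ⊢
    norm_num at h4 ⊢
    constructor <;> linarith [h1.1, h1.2, h2.1, h2.2, h3.1, h3.2]
  have hre : |(ell r t 2 a - ell r t 2 1).re| ≤ 3 := by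
    refine (Complex.abs_re_le_norm _).trans ((norm_sub_le _ _).trans ?_)
    have e1 := norm_ell_le' t hr.le (show 1 ≤ 2 by norm_num) a
    have e2 := norm_ell_le' t hr.le (show 1 ≤ 2 by norm_num) 1
    norm_num at e1 e2
    linarith
  obtain ⟨p, hp, q, hq, e⟩ := h.rectangle _ hre him
  have hsub := LL_subset (ell_zero r t) h.hY
  exact ⟨p, hsub hp, q, hsub hq, e⟩

lemma Setup.two_far (h : Setup τ r t N Y Y' ε) {m : ℕ}
    (hτ : τ = (1 / 2) ^ (2 * m - 1))
    (hx : 0.98 * (1 / 2 : ℝ) ^ (2 * m) ≤ ((2 : ℝ) ^ (-r)) ^ (2 * m)) {i a : ℕ} (hi : i + 1 < m)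
    (ha : a ≠ 2 * i) :
    2.1 * τ ≤ |(ell r t 2 (2 * i)).im - (ell r t 2 a).im| := by
  have hr := h.good.hr
  have hτ0 := h.hτ0
  set x : ℝ := (2 : ℝ) ^ (-r) with hxdef
  have hx1 : x ≤ 1 / 2 := by
    have := norm_vv_le_half (t := t) hr.le (le_refl 2)
    rw [norm_vv] at this
    exact_mod_cast this
  have hx0 : 0 ≤ x := by positivity
  have h1 := lg_I_far hx0 hx1 hi ha
  have h2 := h.two_approx (2 * i)
  have h3 := h.two_approx a
  have h4 := h.eps_small
  rw [← hxdef] at h2 h3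
  have h5 : 0.98 * (4 * τ) ≤ x ^ (2 * m - 3) := by
    have e1 : x ^ (2 * m) = x ^ (2 * m - 3) * x ^ 3 := by
      rw [← pow_add]
      congr 1
      omega
    have e2 : (4 * τ) * (1 / 2) ^ 3 = (1 / 2 : ℝ) ^ (2 * m) := by
      rw [hτ, show 2 * m = (2 * m - 1) + 1 by omega, pow_succ]
      simp only [Nat.add_sub_cancel]
      ring
    have h6 : x ^ 3 ≤ (1 / 2) ^ 3 := pow_le_pow_left₀ hx0 hx1 3
    have h7 : x ^ (2 * m - 3) * x ^ 3 ≤ x ^ (2 * m - 3) * (1 / 2) ^ 3 :=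
      mul_le_mul_of_nonneg_left h6 (by positivity)
    rw [e1, ← e2] at hx
    have h8 := hx.trans h7
    norm_num at h8 ⊢
    linarith
  have h9 : |(lg ((x : ℂ) * Complex.I) (2 * i)).im - (lg ((x : ℂ) * Complex.I) a).im| ≤
      |(ell r t 2 (2 * i)).im - (ell r t 2 a).im| + 8 * ε := by
    have e : (lg ((x : ℂ) * Complex.I) (2 * i)).im - (lg ((x : ℂ) * Complex.I) a).im =
        ((ell r t 2 (2 * i)).im - (ell r t 2 a).im) -
        ((ell r t 2 (2 * i)).im - (lg ((x : ℂ) * Complex.I) (2 * i)).im) +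
        ((ell r t 2 a).im - (lg ((x : ℂ) * Complex.I) a).im) := by ring
    rw [e]
    refine (abs_add_le _ _).trans ?_
    have := abs_sub ((ell r t 2 (2 * i)).im - (ell r t 2 a).im)
      ((ell r t 2 (2 * i)).im - (lg ((x : ℂ) * Complex.I) (2 * i)).im)
    linarith
  norm_num at h1 h4 h5 ⊢
  linarith

end

end Pool.Agent.MP_018e62_nt
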