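import Pool.Agent.MP_018e62_nt.LogZeta
import Pool.Agent.MP_018e62_nt.PrimeSums

/-!
Sums over windows of primes with smooth weights.
-/

set_option autoImplicit false

namespace Pool.Agent.MP_018e62_nt

open Finset Filter Topology

/-- Comparison of the full sum over the primes with the sum over a window. -/
lemma prime_tsum_sub (h : ℕ → ℂ) (hs : Summable (fun p : Nat.Primes => h p)) (A B : ℕ)
    (hAB : A ≤ B) (c : ℝ)
    (hout : ∀ Z, B ≤ Z → ∑ p ∈ (Finset.range A).filter Nat.Prime, ‖h p‖ +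
      ∑ p ∈ (Ico B Z).filter Nat.Prime, ‖h p‖ ≤ c) :
    ‖∑' p : Nat.Primes, h p - ∑ p ∈ (Ico A B).filter Nat.Prime, h p‖ ≤ c := by
  have h1 : HasSum (fun p : Nat.Primes => h p) (∑' p : Nat.Primes, h p) := hs.hasSum
  have h2 : HasSum (Set.indicator {p : ℕ | p.Prime} h) (∑' p : Nat.Primes, h p) := by
    have := (hasSum_subtype_iff_indicator (f := h) (s := {p : ℕ | p.Prime})
      (a := ∑' p : Nat.Primes, h p)).mp h1
    exact this
  have h3 := h2.tendsto_sum_nat
  have h4 : Tendsto (fun n : ℕ => ‖∑ i ∈ Finset.range n, Set.indicator {p : ℕ | p.Prime} h i -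
      ∑ p ∈ (Ico A B).filter Nat.Prime, h p‖) atTop
      (𝓝 ‖∑' p : Nat.Primes, h p - ∑ p ∈ (Ico A B).filter Nat.Prime, h p‖) :=
    (h3.sub_const _).norm
  refine le_of_tendsto h4 ?_
  filter_upwards [eventually_ge_atTop B] with Z hZ
  have e1 : ∀ s : Finset ℕ, ∑ i ∈ s, Set.indicator {p : ℕ | p.Prime} h i =
      ∑ p ∈ s.filter Nat.Prime, h p := by
    intro s
    rw [Finset.sum_filter]
    apply Finset.sum_congr rfl
    intro i _
    simp [Set.indicator_apply]
  have e2 : ∑ i ∈ Finset.range Z, Set.indicator {p : ℕ | p.Prime} h i =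
      ∑ i ∈ Finset.range A, Set.indicator {p : ℕ | p.Prime} h i +
      ∑ i ∈ Ico A B, Set.indicator {p : ℕ | p.Prime} h i +
      ∑ i ∈ Ico B Z, Set.indicator {p : ℕ | p.Prime} h i := by
    rw [Finset.sum_range_add_sum_Ico _ hAB, Finset.sum_range_add_sum_Ico _ hZ]
  rw [e2, e1, e1, e1]
  have e3 : ∑ p ∈ (Finset.range A).filter Nat.Prime, h p + ∑ p ∈ (Ico A B).filter Nat.Prime, h p +
      ∑ p ∈ (Ico B Z).filter Nat.Prime, h p - ∑ p ∈ (Ico A B).filter Nat.Prime, h p =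
      ∑ p ∈ (Finset.range A).filter Nat.Prime, h p + ∑ p ∈ (Ico B Z).filter Nat.Prime, h p := by
    ring
  rw [e3]
  exact (norm_add_le _ _).trans ((add_le_add (norm_sum_le _ _) (norm_sum_le _ _)).trans
    (hout Z hZ))

/-- The smooth weight `p ^ (-1-δ) - p ^ (-1-2δ)`. -/
noncomputable def wt (δ : ℝ) (p : ℕ) : ℝ := (p : ℝ) ^ (-(1 + δ)) - (p : ℝ) ^ (-(1 + 2 * δ))

lemma wt_nonneg {δ : ℝ} (hδ : 0 < δ) {p : ℕ} (hp : 1 ≤ p) : 0 ≤ wt δ p := by
  unfold wt
  have hp1 : (1 : ℝ) ≤ p := by exact_mod_cast hp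
  have := Real.rpow_le_rpow_of_exponent_le hp1 (show -(1 + 2 * δ) ≤ -(1 + δ) by linarith)
  linarith

lemma wt_le_inv {δ : ℝ} (hδ : 0 < δ) {p : ℕ} (hp : 1 ≤ p) : wt δ p ≤ 1 / p := by
  unfold wt
  have hp1 : (1 : ℝ) ≤ p := by exact_mod_cast hp
  have h1 : (p : ℝ) ^ (-(1 + δ)) ≤ (p : ℝ) ^ (-1 : ℝ) :=
    Real.rpow_le_rpow_of_exponent_le hp1 (by linarith)
  have h2 : 0 ≤ (p : ℝ) ^ (-(1 + 2 * δ)) := by positivity
  rw [Real.rpow_neg_one] at h1
  rw [one_div]
  linarith

lemma wt_le_rpow {δ : ℝ} {p : ℕ} : wt δ p ≤ (p : ℝ) ^ (-(1 + δ)) := by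
  unfold wt
  have h2 : 0 ≤ (p : ℝ) ^ (-(1 + 2 * δ)) := by positivity
  linarith

lemma wt_le_log {δ : ℝ} (hδ : 0 < δ) {p : ℕ} (hp : 1 ≤ p) :
    wt δ p ≤ δ * (Real.log p / p) := by
  unfold wt
  have hp1 : (1 : ℝ) ≤ p := by exact_mod_cast hp
  have hp0 : (0 : ℝ) < p := by linarith
  have hlog : 0 ≤ Real.log p := Real.log_nonneg hp1
  have h1 : (p : ℝ) ^ (-(1 + 2 * δ)) = (p : ℝ) ^ (-(1 + δ)) * (p : ℝ) ^ (-δ) := by
    rw [← Real.rpow_add hp0]
    congr 1
    ring
  have h2 : (p : ℝ) ^ (-δ) = Real.exp (-δ * Real.log p) := by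
    rw [Real.rpow_def_of_pos hp0, mul_comm]
  have h3 : 1 - (p : ℝ) ^ (-δ) ≤ δ * Real.log p := by
    rw [h2]
    have := Real.add_one_le_exp (-δ * Real.log p)
    linarith
  have h4 : (p : ℝ) ^ (-δ) ≤ 1 := Real.rpow_le_one_of_one_le_of_nonpos hp1 (by linarith)
  have h6 : (p : ℝ) ^ (-(1 + δ)) ≤ (p : ℝ) ^ (-1 : ℝ) :=
    Real.rpow_le_rpow_of_exponent_le hp1 (by linarith)
  have h7 : 0 ≤ (p : ℝ) ^ (-(1 + δ)) := by positivity
  rw [h1]
  calc (p : ℝ) ^ (-(1 + δ)) - (p : ℝ) ^ (-(1 + δ)) * (p : ℝ) ^ (-δ)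
      = (p : ℝ) ^ (-(1 + δ)) * (1 - (p : ℝ) ^ (-δ)) := by ring
    _ ≤ (p : ℝ) ^ (-1 : ℝ) * (δ * Real.log p) := by
        apply mul_le_mul h6 h3 (by linarith) (by positivity)
    _ = δ * (Real.log p / p) := by
        rw [Real.rpow_neg_one]
        ring

/-- The sum of the weights over the small primes. -/
lemma sum_wt_small {δ : ℝ} (hδ : 0 < δ) (A : ℕ) :
    ∑ p ∈ (Finset.range A).filter Nat.Prime, wt δ p ≤ δ * (Real.log 4 * (1 + Real.log A)) := by
  calc ∑ p ∈ (Finset.range A).filter Nat.Prime, wt δ p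
      ≤ ∑ p ∈ (Finset.range A).filter Nat.Prime, δ * (Real.log p / p) := by
        apply Finset.sum_le_sum
        intro p hp
        rw [Finset.mem_filter] at hp
        exact wt_le_log hδ hp.2.one_lt.le
    _ = δ * ∑ p ∈ (Finset.range A).filter Nat.Prime, (Real.log p / p) := by rw [Finset.mul_sum]
    _ ≤ δ * ∑ k ∈ Ioc 0 A, lp k / k := by
        apply mul_le_mul_of_nonneg_left _ hδ.le
        rw [Finset.sum_filter]
        have hsub : (Finset.range A).erase 0 ⊆ Ioc 0 A := by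
          intro k hk
          rw [Finset.mem_erase, Finset.mem_range] at hk
          rw [Finset.mem_Ioc]
          omega
        calc ∑ k ∈ Finset.range A, (if k.Prime then Real.log k / k else 0)
            = ∑ k ∈ (Finset.range A).erase 0, (if k.Prime then Real.log k / k else 0) := by
              by_cases hA : 0 ∈ Finset.range A
              · rw [← Finset.add_sum_erase _ _ hA]
                simp [Nat.not_prime_zero]
              · rw [Finset.erase_eq_of_notMem hA]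
          _ ≤ ∑ k ∈ Ioc 0 A, (if k.Prime then Real.log k / k else 0) := by
              apply Finset.sum_le_sum_of_subset_of_nonneg hsub
              intro k _ _
              split_ifs
              · exact div_nonneg (Real.log_natCast_nonneg k) (Nat.cast_nonneg k)
              · exact le_rfl
          _ = ∑ k ∈ Ioc 0 A, lp k / k := by
              apply Finset.sum_congr rfl
              intro k _
              unfold lp
              split_ifs
              · rfl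
              · simp
    _ ≤ δ * (Real.log 4 * (1 + Real.log A)) := by
        apply mul_le_mul_of_nonneg_left (sum_lp_div_le A) hδ.le

/-- The sum of the weights over the large primes. -/
lemma sum_wt_large {δ : ℝ} (hδ : 0 < δ) {B : ℕ} (hB : 4 ≤ B) (Z : ℕ) :
    ∑ p ∈ (Ico B Z).filter Nat.Prime, wt δ p ≤
      Real.log 4 * (1 + 1 / δ) * ((B - 1 : ℕ) : ℝ) ^ (-δ) / Real.log ((B - 1 : ℕ) : ℝ) := by
  refine le_trans ?_ (sum_prime_rpow_le hδ (B - 1) (Z - 1) (by omega))
  have e : Ico B Z = Ioc (B - 1) (Z - 1) := by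
    ext k
    rw [Finset.mem_Ico, Finset.mem_Ioc]
    omega
  rw [e]
  exact Finset.sum_le_sum fun p _ => wt_le_rpow

lemma PZ_diff_eq {δ : ℝ} (hδ : 0 < δ) (y : ℝ) :
    PZ ((1 + δ : ℝ) + y * Complex.I) - PZ ((1 + 2 * δ : ℝ) + y * Complex.I) =
      ∑' p : Nat.Primes, (wt δ p : ℂ) * Complex.exp (((-y * Real.log p : ℝ) : ℂ) * Complex.I) ∧
    Summable (fun p : Nat.Primes =>
      (wt δ p : ℂ) * Complex.exp (((-y * Real.log p : ℝ) : ℂ) * Complex.I)) := by
  have h1 : 1 < ((1 + δ : ℝ) + y * Complex.I : ℂ).re := by simpa using hδ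
  have h2 : 1 < ((1 + 2 * δ : ℝ) + y * Complex.I : ℂ).re := by simpa using hδ
  have hs1 := summable_prime_cpow h1
  have hs2 := summable_prime_cpow h2
  have hterm : ∀ p : Nat.Primes, ∀ c : ℝ, (p : ℂ) ^ (-((c : ℂ) + y * Complex.I)) =
      (((p : ℝ) ^ (-c) : ℝ) : ℂ) * Complex.exp (((-y * Real.log p : ℝ) : ℂ) * Complex.I) := by
    intro p c
    have hp := prime_pos p
    have hp0 : (p : ℂ) ≠ 0 := by exact_mod_cast hp.ne'
    have e : -((c : ℂ) + y * Complex.I) = ((-c : ℝ) : ℂ) + -(y * Complex.I) := by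
      push_cast; ring
    rw [e, Complex.cpow_add _ _ hp0, Complex.ofReal_cpow hp.le]
    simp only [Complex.ofReal_natCast]
    congr 1
    rw [Complex.cpow_def_of_ne_zero hp0]
    congr 1
    rw [← Complex.natCast_log]
    push_cast
    ring
  have heq : ∀ p : Nat.Primes, (wt δ p : ℂ) *
      Complex.exp (((-y * Real.log p : ℝ) : ℂ) * Complex.I) =
      (p : ℂ) ^ (-(((1 + δ : ℝ) : ℂ) + y * Complex.I)) -
        (p : ℂ) ^ (-(((1 + 2 * δ : ℝ) : ℂ) + y * Complex.I)) := by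
    intro p
    rw [hterm p (1 + δ), hterm p (1 + 2 * δ), ← sub_mul]
    congr 1
    unfold wt
    push_cast
    ring
  constructor
  · unfold PZ
    rw [← Summable.tsum_sub hs1 hs2]
    exact tsum_congr fun p => (heq p).symm
  · exact (hs1.sub hs2).congr fun p => (heq p).symm

end Pool.Agent.MP_018e62_nt
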