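import Mathlib

/-!
Bounds for the Riemann zeta function to the right of the line `Re s = 1`.
-/

set_option autoImplicit false

namespace Pool.Agent.MP_018e62_nt

open Complex MeasureTheory Set Filter Topology

/-- The integral of the fractional part against `x ^ (-s-1)`. -/
noncomputable def fracInt (s : ℂ) : ℂ :=
  ∫ x in Ioi (1 : ℝ), ((Int.fract x : ℝ) : ℂ) * (x : ℂ) ^ (-(s + 1))

lemma norm_cpow_aux {x : ℝ} (hx : x ∈ Ioi (1 : ℝ)) (s : ℂ) :
    ‖(x : ℂ) ^ (-(s + 1))‖ = x ^ (-(s.re + 1)) := by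
  have hx0 : 0 < x := lt_trans zero_lt_one hx
  rw [Complex.norm_cpow_eq_rpow_re_of_pos hx0]
  simp

lemma integrableOn_frac {s : ℂ} (hs : 0 < s.re) :
    IntegrableOn (fun x : ℝ => ((Int.fract x : ℝ) : ℂ) * (x : ℂ) ^ (-(s + 1))) (Ioi 1) := by
  have h1 : IntegrableOn (fun x : ℝ => (x : ℂ) ^ (-(s + 1))) (Ioi 1) :=
    integrableOn_Ioi_cpow_of_lt (by simp; linarith) zero_lt_one
  refine Integrable.bdd_mul (c := 1) h1 ?_ ?_
  · exact (Complex.measurable_ofReal.comp measurable_fract).aestronglyMeasurable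
  · refine Eventually.of_forall (fun x => ?_)
    rw [Complex.norm_real, Real.norm_eq_abs, abs_of_nonneg (Int.fract_nonneg x)]
    exact (Int.fract_lt_one x).le

lemma zeta_eq {s : ℂ} (hs : 1 < s.re) :
    riemannZeta s = 1 + 1 / (s - 1) - s * fracInt s := by
  have hs1 : s - 1 ≠ 0 := by
    intro h
    have : s = 1 := sub_eq_zero.mp h
    rw [this] at hs
    simp at hs
  have key := LSeries_eq_mul_integral (1 : ℕ → ℂ) (r := 1) zero_le_one hs
    (LSeriesSummable_one_iff.mpr hs) (by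
      simp only [Pi.one_apply, Finset.sum_const, Nat.card_Icc, add_tsub_cancel_right,
        nsmul_eq_mul, mul_one, Real.rpow_one]
      refine Asymptotics.IsBigO.of_bound 1 (Eventually.of_forall fun n => ?_)
      simp)
  rw [LSeries_one_eq_riemannZeta hs] at key
  rw [key]
  have h2 : ∫ t in Ioi (1 : ℝ), (∑ k ∈ Finset.Icc 1 ⌊t⌋₊, (1 : ℕ → ℂ) k) * (t : ℂ) ^ (-(s + 1)) =
      (∫ t in Ioi (1 : ℝ), (t : ℂ) ^ (-s)) - fracInt s := by
    unfold fracInt
    rw [← integral_sub]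
    · refine setIntegral_congr_fun measurableSet_Ioi (fun t ht => ?_)
      have ht0 : (0 : ℝ) < t := lt_trans zero_lt_one ht
      have ht0' : (t : ℂ) ≠ 0 := by exact_mod_cast ht0.ne'
      simp only [Pi.one_apply, Finset.sum_const, Nat.card_Icc, add_tsub_cancel_right,
        nsmul_eq_mul, mul_one]
      have h3 : ((⌊t⌋₊ : ℕ) : ℂ) = (t : ℂ) - ((Int.fract t : ℝ) : ℂ) := by
        have h4 : ((⌊t⌋₊ : ℕ) : ℝ) = t - Int.fract t := by
          rw [natCast_floor_eq_intCast_floor ht0.le]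
          exact (Int.self_sub_fract t).symm
        have := congrArg (fun x : ℝ => (x : ℂ)) h4
        push_cast at this
        simpa using this
      rw [h3, sub_mul]
      congr 1
      have : -s = 1 + -(s + 1) := by ring
      rw [this, Complex.cpow_add _ _ ht0', Complex.cpow_one]
    · exact integrableOn_Ioi_cpow_of_lt (by simpa using hs) zero_lt_one
    · exact integrableOn_frac (by linarith)
  rw [h2, integral_Ioi_cpow_of_lt (by simpa using hs) zero_lt_one]
  have h5 : -s + 1 ≠ 0 := by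
    intro h
    apply hs1
    linear_combination -h
  simp only [ofReal_one, one_cpow]
  field_simp
  ring

lemma norm_fracInt_le {s : ℂ} (hs : 1 ≤ s.re) : ‖fracInt s‖ ≤ 1 := by
  unfold fracInt
  have h0 : (0 : ℝ) < s.re := by linarith
  calc ‖∫ x in Ioi (1 : ℝ), ((Int.fract x : ℝ) : ℂ) * (x : ℂ) ^ (-(s + 1))‖
      ≤ ∫ x in Ioi (1 : ℝ), x ^ (-(s.re + 1)) := by
        refine norm_integral_le_of_norm_le
          (integrableOn_Ioi_rpow_of_lt (by linarith) zero_lt_one) ?_
        refine (ae_restrict_iff' measurableSet_Ioi).mpr (Eventually.of_forall fun x hx => ?_)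
        rw [norm_mul, norm_cpow_aux hx, Complex.norm_real, Real.norm_eq_abs,
          abs_of_nonneg (Int.fract_nonneg x)]
        have hx0 : (0 : ℝ) < x := lt_trans zero_lt_one hx
        exact mul_le_of_le_one_left (Real.rpow_nonneg hx0.le _) (Int.fract_lt_one x).le
    _ = 1 / s.re := by
        rw [integral_Ioi_rpow_of_lt (by linarith) zero_lt_one]
        simp only [Real.one_rpow]
        have : -(s.re + 1) + 1 = -s.re := by ring
        rw [this, neg_div_neg_eq]
    _ ≤ 1 := by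
        rw [div_le_one h0]
        exact hs

lemma rpow_diff_bound {x a b : ℝ} (hx : 1 < x) (ha : 1 ≤ a) (hab : a ≤ b) :
    |x ^ (-(a + 1)) - x ^ (-(b + 1))| ≤ 2 * (b - a) * x ^ (-(3 / 2) : ℝ) := by
  have hx0 : (0 : ℝ) < x := by linarith
  have hlog : 0 ≤ Real.log x := Real.log_nonneg hx.le
  have h1 : x ^ (-(b + 1)) = x ^ (-(a + 1)) * x ^ (-(b - a)) := by
    rw [← Real.rpow_add hx0]
    congr 1
    ring
  have h2 : x ^ (-(b - a)) = Real.exp (-(b - a) * Real.log x) := by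
    rw [Real.rpow_def_of_pos hx0, mul_comm]
  have h3 : 1 - x ^ (-(b - a)) ≤ (b - a) * Real.log x := by
    rw [h2]
    have := Real.add_one_le_exp (-(b - a) * Real.log x)
    linarith
  have h4 : x ^ (-(b - a)) ≤ 1 := Real.rpow_le_one_of_one_le_of_nonpos hx.le (by linarith)
  have h5 : Real.log x ≤ x ^ (1 / 2 : ℝ) / (1 / 2) := Real.log_le_rpow_div hx0.le (by norm_num)
  have h6 : x ^ (-(a + 1)) ≤ x ^ (-2 : ℝ) :=
    Real.rpow_le_rpow_of_exponent_le hx.le (by linarith)
  have h7 : 0 ≤ x ^ (-(a + 1)) := Real.rpow_nonneg hx0.le _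
  rw [h1]
  have h8 : x ^ (-(a + 1)) - x ^ (-(a + 1)) * x ^ (-(b - a)) =
      x ^ (-(a + 1)) * (1 - x ^ (-(b - a))) := by ring
  rw [h8, abs_of_nonneg (mul_nonneg h7 (by linarith))]
  calc x ^ (-(a + 1)) * (1 - x ^ (-(b - a)))
      ≤ x ^ (-2 : ℝ) * ((b - a) * (x ^ (1 / 2 : ℝ) / (1 / 2))) := by
        apply mul_le_mul h6 _ (by linarith) (Real.rpow_nonneg hx0.le _)
        exact h3.trans (mul_le_mul_of_nonneg_left h5 (by linarith))
    _ = 2 * (b - a) * (x ^ (-2 : ℝ) * x ^ (1 / 2 : ℝ)) := by ring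
    _ = 2 * (b - a) * x ^ (-(3 / 2) : ℝ) := by
        rw [← Real.rpow_add hx0]
        norm_num

lemma norm_fracInt_sub_le_aux {a b y : ℝ} (ha : 1 ≤ a) (hab : a ≤ b) :
    ‖fracInt (a + y * I) - fracInt (b + y * I)‖ ≤ 4 * (b - a) := by
  unfold fracInt
  rw [← integral_sub (integrableOn_frac (by simp; linarith)) (integrableOn_frac (by simp; linarith))]
  calc ‖∫ x in Ioi (1 : ℝ), (((Int.fract x : ℝ) : ℂ) * (x : ℂ) ^ (-((a + y * I : ℂ) + 1)) -
        ((Int.fract x : ℝ) : ℂ) * (x : ℂ) ^ (-((b + y * I : ℂ) + 1)))‖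
      ≤ ∫ x in Ioi (1 : ℝ), 2 * (b - a) * x ^ (-(3 / 2) : ℝ) := by
        refine norm_integral_le_of_norm_le
          ((integrableOn_Ioi_rpow_of_lt (by norm_num) zero_lt_one).const_mul _) ?_
        refine (ae_restrict_iff' measurableSet_Ioi).mpr (Eventually.of_forall fun x hx => ?_)
        have hx0 : (0 : ℝ) < x := lt_trans zero_lt_one hx
        have hx0' : (x : ℂ) ≠ 0 := by exact_mod_cast hx0.ne'
        rw [← mul_sub, norm_mul, Complex.norm_real, Real.norm_eq_abs,
          abs_of_nonneg (Int.fract_nonneg x)]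
        have e1 : ∀ c : ℝ, (x : ℂ) ^ (-((c + y * I : ℂ) + 1)) =
            (x : ℂ) ^ (-(y * I)) * ((x ^ (-(c + 1)) : ℝ) : ℂ) := by
          intro c
          rw [Complex.ofReal_cpow hx0.le, ← Complex.cpow_add _ _ hx0']
          congr 1
          push_cast
          ring
        rw [e1 a, e1 b, ← mul_sub, norm_mul, Complex.norm_cpow_eq_rpow_re_of_pos hx0]
        have e2 : (-(y * I) : ℂ).re = 0 := by simp
        rw [e2, Real.rpow_zero, one_mul, ← Complex.ofReal_sub, Complex.norm_real, Real.norm_eq_abs]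
        calc Int.fract x * |x ^ (-(a + 1)) - x ^ (-(b + 1))|
            ≤ 1 * |x ^ (-(a + 1)) - x ^ (-(b + 1))| :=
              mul_le_mul_of_nonneg_right (Int.fract_lt_one x).le (abs_nonneg _)
          _ ≤ 2 * (b - a) * x ^ (-(3 / 2) : ℝ) := by
              rw [one_mul]
              exact rpow_diff_bound hx ha hab
    _ = 4 * (b - a) := by
        rw [integral_const_mul, integral_Ioi_rpow_of_lt (by norm_num) zero_lt_one]
        norm_num
        ring

lemma norm_fracInt_sub_le {a b y : ℝ} (ha : 1 ≤ a) (hb : 1 ≤ b) :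
    ‖fracInt (a + y * I) - fracInt (b + y * I)‖ ≤ 4 * |b - a| := by
  rcases le_total a b with h | h
  · rw [abs_of_nonneg (by linarith)]
    exact norm_fracInt_sub_le_aux ha h
  · rw [abs_sub_comm, abs_of_nonneg (by linarith), norm_sub_rev]
    exact norm_fracInt_sub_le_aux hb h

lemma abs_le_norm_sub_one (a y : ℝ) : |y| ≤ ‖(a + y * I : ℂ) - 1‖ := by
  have h := Complex.abs_im_le_norm ((a + y * I : ℂ) - 1)
  simpa using h

lemma norm_zeta_le {a y : ℝ} (ha : 1 < a) (ha3 : a ≤ 3) (hy : 1 ≤ |y|) :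
    ‖riemannZeta (a + y * I)‖ ≤ 6 * |y| := by
  rw [zeta_eq (by simpa using ha)]
  have h1 : ‖(a + y * I : ℂ)‖ ≤ 4 * |y| := by
    calc ‖(a + y * I : ℂ)‖ ≤ ‖(a : ℂ)‖ + ‖(y * I : ℂ)‖ := norm_add_le _ _
      _ = |a| + |y| := by simp
      _ ≤ 4 * |y| := by rw [abs_of_pos (by linarith)]; linarith
  have h2 : ‖1 / ((a + y * I : ℂ) - 1)‖ ≤ 1 := by
    rw [norm_div, norm_one]
    have := abs_le_norm_sub_one a y
    rw [div_le_one (by linarith)]
    linarith
  have h3 : ‖fracInt (a + y * I)‖ ≤ 1 := norm_fracInt_le (by simp; linarith)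
  calc ‖1 + 1 / ((a + y * I : ℂ) - 1) - (a + y * I) * fracInt (a + y * I)‖
      ≤ ‖1 + 1 / ((a + y * I : ℂ) - 1)‖ + ‖(a + y * I) * fracInt (a + y * I)‖ := norm_sub_le _ _
    _ ≤ (1 + 1) + 4 * |y| * 1 := by
        refine add_le_add ?_ ?_
        · refine (norm_add_le _ _).trans ?_
          rw [norm_one]
          linarith
        · rw [norm_mul]
          exact mul_le_mul h1 h3 (norm_nonneg _) (by positivity)
    _ ≤ 6 * |y| := by linarith

lemma norm_zeta_sub_le {a b y : ℝ} (ha : 1 < a) (hb : 1 < b) (hb3 : b ≤ 3) (hy : 1 ≤ |y|) :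
    ‖riemannZeta (a + y * I) - riemannZeta (b + y * I)‖ ≤ 18 * |y| * |b - a| := by
  rw [zeta_eq (by simpa using ha), zeta_eq (by simpa using hb)]
  set A : ℂ := a + y * I with hA
  set B : ℂ := b + y * I with hB
  have hA1 : 1 ≤ ‖A - 1‖ := hy.trans (abs_le_norm_sub_one a y)
  have hB1 : 1 ≤ ‖B - 1‖ := hy.trans (abs_le_norm_sub_one b y)
  have hA0 : A - 1 ≠ 0 := by
    intro h
    rw [h, norm_zero] at hA1
    linarith
  have hB0 : B - 1 ≠ 0 := by
    intro h
    rw [h, norm_zero] at hB1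
    linarith
  have hBA : B - A = ((b - a : ℝ) : ℂ) := by
    rw [hA, hB]
    push_cast
    ring
  have hBn : ‖B‖ ≤ 4 * |y| := by
    calc ‖B‖ ≤ ‖(b : ℂ)‖ + ‖(y * I : ℂ)‖ := norm_add_le _ _
      _ = |b| + |y| := by simp
      _ ≤ 4 * |y| := by rw [abs_of_pos (by linarith)]; linarith
  have e : 1 + 1 / (A - 1) - A * fracInt A - (1 + 1 / (B - 1) - B * fracInt B) =
      (B - A) / ((A - 1) * (B - 1)) + ((B - A) * fracInt A - B * (fracInt A - fracInt B)) := by
    field_simp
    ring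
  rw [e]
  have h1 : ‖(B - A) / ((A - 1) * (B - 1))‖ ≤ |b - a| := by
    rw [norm_div, norm_mul, hBA, Complex.norm_real, Real.norm_eq_abs]
    apply div_le_self (abs_nonneg _)
    nlinarith
  have h2 : ‖(B - A) * fracInt A‖ ≤ |b - a| := by
    rw [norm_mul, hBA, Complex.norm_real, Real.norm_eq_abs]
    exact mul_le_of_le_one_right (abs_nonneg _) (norm_fracInt_le (by simp [hA]; linarith))
  have h3 : ‖B * (fracInt A - fracInt B)‖ ≤ 4 * |y| * (4 * |b - a|) := by
    rw [norm_mul]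
    exact mul_le_mul hBn (norm_fracInt_sub_le ha.le hb.le) (norm_nonneg _) (by positivity)
  calc ‖(B - A) / ((A - 1) * (B - 1)) + ((B - A) * fracInt A - B * (fracInt A - fracInt B))‖
      ≤ ‖(B - A) / ((A - 1) * (B - 1))‖ +
        (‖(B - A) * fracInt A‖ + ‖B * (fracInt A - fracInt B)‖) :=
        (norm_add_le _ _).trans (add_le_add_right (norm_sub_le _ _) _)
    _ ≤ |b - a| + (|b - a| + 4 * |y| * (4 * |b - a|)) := by
        gcongr
    _ ≤ 18 * |y| * |b - a| := by nlinarith [abs_nonneg (b - a)]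

end Pool.Agent.MP_018e62_nt
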