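import Pool.Agent.MP_018e62_nt.Zeta

/-!
Lower bounds for the Riemann zeta function to the right of the line `Re s = 1`, and the
variation of its logarithm.
-/

set_option autoImplicit false

namespace Pool.Agent.MP_018e62_nt

open Complex MeasureTheory Set Filter Topology

lemma product_ge_one {x : ℝ} (hx : 0 < x) (y : ℝ) :
    1 ≤ ‖riemannZeta ((1 + x : ℝ) : ℂ)‖ ^ 3 * ‖riemannZeta ((1 + x : ℝ) + y * I)‖ ^ 4 *
      ‖riemannZeta ((1 + x : ℝ) + ((2 * y : ℝ) : ℂ) * I)‖ := by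
  have h := DirichletCharacter.norm_LFunction_product_ge_one (1 : DirichletCharacter ℂ 1) hx y
  simp only [DirichletCharacter.LFunctionTrivChar, DirichletCharacter.LFunction_modOne_eq] at h
  rw [norm_mul, norm_mul, norm_pow, norm_pow] at h
  have e1 : ((1 + x : ℝ) : ℂ) = 1 + x := by push_cast; ring
  have e2 : ((1 + x : ℝ) : ℂ) + y * I = 1 + x + I * y := by push_cast; ring
  have e3 : ((1 + x : ℝ) : ℂ) + ((2 * y : ℝ) : ℂ) * I = 1 + x + 2 * I * y := by push_cast; ring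
  rw [e2, e3, e1]
  exact h

lemma norm_zeta_real_le {x : ℝ} (hx : 0 < x) (hx1 : x ≤ 1) :
    ‖riemannZeta ((1 + x : ℝ) : ℂ)‖ ≤ 4 / x := by
  rw [zeta_eq (by simpa using hx)]
  have h1 : ‖1 / (((1 + x : ℝ) : ℂ) - 1)‖ = 1 / x := by
    have : ((1 + x : ℝ) : ℂ) - 1 = (x : ℂ) := by push_cast; ring
    rw [this, norm_div, norm_one, Complex.norm_real, Real.norm_eq_abs, abs_of_pos hx]
  have h2 : ‖((1 + x : ℝ) : ℂ)‖ = 1 + x := by
    rw [Complex.norm_real, Real.norm_eq_abs, abs_of_pos (by linarith)]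
  have h3 : ‖fracInt ((1 + x : ℝ) : ℂ)‖ ≤ 1 := norm_fracInt_le (by simp; linarith)
  calc ‖1 + 1 / (((1 + x : ℝ) : ℂ) - 1) - ((1 + x : ℝ) : ℂ) * fracInt ((1 + x : ℝ) : ℂ)‖
      ≤ ‖1 + 1 / (((1 + x : ℝ) : ℂ) - 1)‖ + ‖((1 + x : ℝ) : ℂ) * fracInt ((1 + x : ℝ) : ℂ)‖ :=
        norm_sub_le _ _
    _ ≤ (1 + 1 / x) + (1 + x) * 1 := by
        refine add_le_add ?_ ?_
        · refine (norm_add_le _ _).trans ?_
          rw [norm_one, h1]
        · rw [norm_mul, h2]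
          exact mul_le_mul_of_nonneg_left h3 (by linarith)
    _ ≤ 4 / x := by
        rw [show (4 : ℝ) / x = 1 / x + 3 / x by ring]
        have : 3 ≤ 3 / x := by
          rw [le_div_iff₀ hx]
          linarith
        linarith

lemma zeta_pow_four_ge {x y : ℝ} (hx : 0 < x) (hx1 : x ≤ 1) (hy : 1 ≤ |y|) :
    x ^ 3 / (768 * |y|) ≤ ‖riemannZeta ((1 + x : ℝ) + y * I)‖ ^ 4 := by
  have h := product_ge_one hx y
  have h1 := norm_zeta_real_le hx hx1
  have h2 : ‖riemannZeta ((1 + x : ℝ) + ((2 * y : ℝ) : ℂ) * I)‖ ≤ 12 * |y| := by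
    have := norm_zeta_le (a := 1 + x) (y := 2 * y) (by linarith) (by linarith)
      (by rw [abs_mul, abs_two]; linarith)
    rw [abs_mul, abs_two] at this
    linarith
  set Z := ‖riemannZeta ((1 + x : ℝ) + y * I)‖ ^ 4 with hZ
  have hZ0 : 0 ≤ Z := by positivity
  have h3 : ‖riemannZeta ((1 + x : ℝ) : ℂ)‖ ^ 3 ≤ (4 / x) ^ 3 :=
    pow_le_pow_left₀ (norm_nonneg _) h1 3
  have h4 : 1 ≤ (4 / x) ^ 3 * Z * (12 * |y|) := by
    calc (1 : ℝ) ≤ _ := h
      _ ≤ (4 / x) ^ 3 * Z * (12 * |y|) := by gcongr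
  have hy0 : 0 < |y| := by linarith
  rw [div_le_iff₀ (by positivity)]
  have h5 : (4 / x) ^ 3 * Z * (12 * |y|) = (Z * (768 * |y|)) / x ^ 3 := by
    field_simp
    ring
  rw [h5, le_div_iff₀ (by positivity), one_mul] at h4
  exact h4

lemma zeta_lower {x y : ℝ} (hx : 0 < x) (hx1 : x ≤ 1) (hy : 1 ≤ |y|) :
    18 * (1 / 10 ^ 10) / |y| ^ 4 ≤ ‖riemannZeta ((1 + x : ℝ) + y * I)‖ := by
  have hy0 : 0 < |y| := by linarith
  set x0 : ℝ := (1 / 10 ^ 10) / |y| ^ 5 with hx0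
  have hx0pos : 0 < x0 := by positivity
  have hx01 : x0 ≤ 1 := by
    rw [hx0, div_le_one (by positivity)]
    have : (1 : ℝ) ≤ |y| ^ 5 := one_le_pow₀ hy
    linarith
  have big : ∀ x : ℝ, x0 ≤ x → x ≤ 1 →
      36 * (1 / 10 ^ 10) / |y| ^ 4 ≤ ‖riemannZeta ((1 + x : ℝ) + y * I)‖ := by
    intro x hxx hx1'
    have hxpos : 0 < x := lt_of_lt_of_le hx0pos hxx
    have h := zeta_pow_four_ge hxpos hx1' hy
    have h1 : (36 * (1 / 10 ^ 10) / |y| ^ 4) ^ 4 ≤ x0 ^ 3 / (768 * |y|) := by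
      rw [hx0, le_div_iff₀ (by positivity)]
      rw [div_pow, div_pow, div_mul_eq_mul_div, div_le_div_iff₀ (by positivity) (by positivity)]
      have e : |y| * (|y| ^ 5) ^ 3 = (|y| ^ 4) ^ 4 := by ring
      calc (36 * (1 / 10 ^ 10)) ^ 4 * (768 * |y|) * (|y| ^ 5) ^ 3
          = ((36 * (1 / 10 ^ 10)) ^ 4 * 768) * (|y| * (|y| ^ 5) ^ 3) := by ring
        _ = ((36 * (1 / 10 ^ 10)) ^ 4 * 768) * (|y| ^ 4) ^ 4 := by rw [e]
        _ ≤ (1 / 10 ^ 10) ^ 3 * (|y| ^ 4) ^ 4 := by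
            apply mul_le_mul_of_nonneg_right _ (by positivity)
            norm_num
    have h2 : x0 ^ 3 / (768 * |y|) ≤ x ^ 3 / (768 * |y|) := by gcongr
    have h3 := h1.trans (h2.trans h)
    exact le_of_pow_le_pow_left₀ (by norm_num) (norm_nonneg _) h3
  rcases le_total x0 x with hxx | hxx
  · refine le_trans ?_ (big x hxx hx1)
    gcongr
    norm_num
  · have h1 := big x0 le_rfl hx01
    have h2 := norm_zeta_sub_le (a := 1 + x0) (b := 1 + x) (y := y) (by linarith) (by linarith)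
      (by linarith) hy
    have h3 : ‖riemannZeta ((1 + x0 : ℝ) + y * I)‖ - ‖riemannZeta ((1 + x : ℝ) + y * I)‖ ≤
        ‖riemannZeta ((1 + x0 : ℝ) + y * I) - riemannZeta ((1 + x : ℝ) + y * I)‖ :=
      norm_sub_norm_le _ _
    have h4 : 18 * |y| * |(1 + x) - (1 + x0)| ≤ 18 * (1 / 10 ^ 10) / |y| ^ 4 := by
      have : |(1 + x) - (1 + x0)| ≤ x0 := by
        rw [abs_le]
        constructor <;> linarith
      calc 18 * |y| * |(1 + x) - (1 + x0)| ≤ 18 * |y| * x0 := by gcongr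
        _ = 18 * (1 / 10 ^ 10) / |y| ^ 4 := by
            rw [hx0]
            field_simp
    have h5 : 36 * (1 / 10 ^ 10) / |y| ^ 4 = 18 * (1 / 10 ^ 10) / |y| ^ 4 +
        18 * (1 / 10 ^ 10) / |y| ^ 4 := by ring
    linarith

end Pool.Agent.MP_018e62_nt
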